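import Pool.Agent.Q10.PK.Greedy

/-!
# Assembling packings
-/

set_option autoImplicit false

open Finset

namespace Pool.Agent.Q10.PK

lemma pack_mono {I : Finset ℕ} {A : ℕ → Finset ℕ} {m m' : ℕ} (h : PackInto I A m) (hm : m ≤ m') :
    PackInto I A m' := by
  obtain ⟨s, h1, h2⟩ := h
  exact ⟨s, fun i hi a ha => ⟨(h1 i hi a ha).1, (h1 i hi a ha).2.trans (by exact_mod_cast hm)⟩, h2⟩

lemma pack_sub {I J : Finset ℕ} {A : ℕ → Finset ℕ} {m : ℕ} (h : PackInto I A m) (hJ : J ⊆ I) :
    PackInto J A m := by
  obtain ⟨s, h1, h2⟩ := h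
  exact ⟨s, fun i hi => h1 i (hJ hi), fun i hi j hj => h2 i (hJ hi) j (hJ hj)⟩

lemma pack_empty (A : ℕ → Finset ℕ) (m : ℕ) : PackInto ∅ A m :=
  ⟨fun _ => 0, by simp, by simp⟩

lemma pack_union {I J : Finset ℕ} {A : ℕ → Finset ℕ} {l m : ℕ} (hIJ : Disjoint I J)
    (h1 : PackInto I A l) (h2 : PackInto J A m) : PackInto (I ∪ J) A (l + m) := by
  classical
  obtain ⟨s, h1, h1'⟩ := h1
  obtain ⟨t, h2, h2'⟩ := h2
  have hJI : ∀ i ∈ J, i ∉ I := fun i hi hi' => (Finset.disjoint_left.1 hIJ) hi' hi
  refine ⟨fun i => if i ∈ I then s i else t i + l, ?_, ?_⟩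
  · intro i hi a ha
    rcases Finset.mem_union.1 hi with hi | hi
    · have := h1 i hi a ha
      simp only [hi, if_true]
      push_cast; omega
    · have := h2 i hi a ha
      simp only [hJI i hi, if_false]
      push_cast; omega
  · intro i hi j hj hij a ha b hb
    rcases Finset.mem_union.1 hi with hi | hi <;> rcases Finset.mem_union.1 hj with hj | hj
    · simp only [hi, hj, if_true]; exact h1' i hi j hj hij a ha b hb
    · simp only [hi, hJI j hj, if_true, if_false]
      have := h1 i hi a ha
      have := h2 j hj b hb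
      omega
    · simp only [hj, hJI i hi, if_true, if_false]
      have := h2 i hi a ha
      have := h1 j hj b hb
      omega
    · simp only [hJI i hi, hJI j hj, if_false]
      have := h2' i hi j hj hij a ha b hb
      omega

/-- Placing the sets one after the other. -/
lemma pack_separate {A : ℕ → Finset ℕ} {S : ℕ} (I : Finset ℕ)
    (h : ∀ i ∈ I, ∀ a ∈ A i, 1 ≤ a ∧ a ≤ S) : PackInto I A (I.card * S) := by
  classical
  induction I using Finset.induction_on with
  | empty => exact pack_empty A _
  | insert i I hi ih =>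
    have h1 : PackInto {i} A S := by
      refine ⟨fun _ => 0, ?_, ?_⟩
      · intro j hj a ha
        rw [Finset.mem_singleton] at hj
        subst hj
        have := h j (Finset.mem_insert_self _ _) a ha
        show 1 ≤ (0 : ℤ) + a ∧ (0 : ℤ) + a ≤ S
        omega
      · intro j hj k hk hjk
        rw [Finset.mem_singleton] at hj hk
        exact absurd (hj.trans hk.symm) hjk
    have h2 := pack_union (Finset.disjoint_singleton_left.2 hi) h1
      (ih (fun j hj => h j (Finset.mem_insert_of_mem hj)))
    rw [Finset.card_insert_of_notMem hi, Finset.insert_eq]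
    refine pack_mono h2 (le_of_eq ?_)
    ring

/-- A union of packings indexed by `range K`. -/
lemma pack_biUnion {A : ℕ → Finset ℕ} (K : ℕ) (I : ℕ → Finset ℕ) (L : ℕ → ℕ)
    (hd : ∀ k < K, ∀ k' < K, k ≠ k' → Disjoint (I k) (I k'))
    (h : ∀ k < K, PackInto (I k) A (L k)) :
    PackInto ((Finset.range K).biUnion I) A (∑ k ∈ Finset.range K, L k) := by
  classical
  induction K with
  | zero => exact pack_empty A _
  | succ K ih =>
    rw [Finset.sum_range_succ, Finset.range_add_one, Finset.biUnion_insert, Finset.union_comm]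
    apply pack_union
    · rw [Finset.disjoint_biUnion_left]
      intro k hk
      rw [Finset.mem_range] at hk
      exact hd k (by omega) K (by omega) (by omega)
    · exact ih (fun k hk k' hk' => hd k (by omega) k' (by omega)) (fun k hk => h k (by omega))
    · exact h K (by omega)

/-- The block lemma. -/
lemma Blk.pack {Q : Finset ℕ} {N : ℕ → ℕ} {a ε : ℝ} {X S σ R H : ℕ}
    (B : Blk Q N a ε X S σ R H) :
    PackInto Q (fun p => prog (N p) p) (Q.card * σ + X + S + leftC R H * S) := by
  classical
  have hbd : ∀ p ∈ Q, ∀ x ∈ prog (N p) p, 1 ≤ x ∧ x ≤ S := by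
    intro p hp x hx
    obtain ⟨i, hi, rfl⟩ := Finset.mem_image.1 hx
    rw [Finset.mem_Icc] at hi
    refine ⟨Nat.mul_pos (by omega) (B.prime p hp).pos, ?_⟩
    exact (Nat.mul_le_mul_right _ hi.2).trans (B.span p hp)
  rcases le_or_gt Q.card (leftC R H) with hc | hc
  · refine pack_mono (pack_separate Q hbd) ?_
    have := Nat.mul_le_mul_right S hc
    omega
  · obtain ⟨j, hj⟩ : ∃ j, j = Q.card - leftC R H := ⟨_, rfl⟩
    obtain ⟨f, s, hf, hinj, hs, hdis⟩ := B.place j (by omega)
    obtain ⟨P, hP⟩ : ∃ P, P = (Finset.range j).image f := ⟨_, rfl⟩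
    have hPsub : P ⊆ Q := by
      intro p hp
      rw [hP] at hp
      obtain ⟨i, hi, rfl⟩ := Finset.mem_image.1 hp
      exact hf i (Finset.mem_range.1 hi)
    have hPc : P.card = j := by
      rw [hP, Finset.card_image_of_injOn, Finset.card_range]
      intro i hi i' hi' h
      exact hinj i (Finset.mem_range.1 hi) i' (Finset.mem_range.1 hi') h
    -- the packing of `P`
    have hpack : PackInto P (fun p => prog (N p) p) (j * σ + X + S) := by
      obtain ⟨g, hg⟩ : ∃ g : ℕ → ℕ, ∀ i < j, g (f i) = i := by
        refine ⟨fun p => if h : ∃ i < j, f i = p then h.choose else 0, ?_⟩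
        intro i hi
        have h : ∃ i' < j, f i' = f i := ⟨i, hi, rfl⟩
        show (if h : ∃ i' < j, f i' = f i then h.choose else 0) = i
        rw [dif_pos h]
        exact hinj _ h.choose_spec.1 _ hi h.choose_spec.2
      refine ⟨fun p => s (g p), ?_, ?_⟩
      · intro p hp x hx
        rw [hP] at hp
        obtain ⟨i, hi, rfl⟩ := Finset.mem_image.1 hp
        rw [Finset.mem_range] at hi
        simp only [hg i hi]
        have h1 := hs i hi
        have h2 := hbd _ (hf i hi) x hx
        have h3 : i * σ ≤ j * σ := Nat.mul_le_mul_right _ hi.le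
        push_cast at h1 ⊢
        have h3' : (i : ℤ) * σ ≤ j * σ := by exact_mod_cast h3
        have h4 : (0 : ℤ) ≤ (i : ℤ) * σ := by positivity
        constructor <;> omega
      · intro p hp p' hp' hpp x hx x' hx'
        rw [hP] at hp hp'
        obtain ⟨i, hi, rfl⟩ := Finset.mem_image.1 hp
        obtain ⟨i', hi', rfl⟩ := Finset.mem_image.1 hp'
        rw [Finset.mem_range] at hi hi'
        obtain ⟨t, ht, rfl⟩ := Finset.mem_image.1 hx
        obtain ⟨t', ht', rfl⟩ := Finset.mem_image.1 hx'
        rw [Finset.mem_Icc] at ht ht'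
        simp only [hg i hi, hg i' hi']
        push_cast
        have hii : i ≠ i' := fun h => hpp (by rw [h])
        rcases Nat.lt_or_gt_of_ne hii with hlt | hlt
        · exact hdis i' hi' i hlt t t' (by omega) (by omega) (by omega) (by omega)
        · exact (hdis i hi i' hlt t' t (by omega) (by omega) (by omega) (by omega)).symm
    have hrest : PackInto (Q \ P) (fun p => prog (N p) p) ((Q \ P).card * S) :=
      pack_separate _ (fun p hp => hbd p (Finset.mem_sdiff.1 hp).1)
    have hu := pack_union (Finset.disjoint_sdiff) hpack hrest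
    rw [Finset.union_sdiff_of_subset hPsub] at hu
    refine pack_mono hu ?_
    have h1 : (Q \ P).card = leftC R H := by
      rw [Finset.card_sdiff_of_subset hPsub, hPc]; omega
    rw [h1]
    have h2 : j * σ ≤ Q.card * σ := Nat.mul_le_mul_right _ (by omega)
    omega

end Pool.Agent.Q10.PK
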