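import Mathlib

/-!
# Few primes admit a short relation between the inverses of given primes
-/

set_option autoImplicit false

open Finset

namespace Pool.Agent.Q10.PK.Bad

variable {ι : Type*} [Fintype ι] [DecidableEq ι]

/-- The numerator of `∑ h i / p i`. -/
def Z (p : ι → ℕ) (h : ι → ℤ) : ℤ := ∑ i, h i * ∏ l ∈ Finset.univ.erase i, (p l : ℤ)

lemma Z_ne {p : ι → ℕ} (hp : ∀ i, (p i).Prime) (hinj : Function.Injective p) {H : ℕ}
    (hH : ∀ i, H < p i) {h : ι → ℤ} (hh : ∀ i, |h i| ≤ H) (h0 : h ≠ 0) : Z p h ≠ 0 := by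
  intro hZ
  apply h0
  funext i
  by_contra hi
  simp only [Pi.zero_apply] at hi
  have h1 : (p i : ℤ) ∣ h i * ∏ l ∈ Finset.univ.erase i, (p l : ℤ) := by
    have h2 : h i * ∏ l ∈ Finset.univ.erase i, (p l : ℤ)
        = Z p h - ∑ j ∈ Finset.univ.erase i, h j * ∏ l ∈ Finset.univ.erase j, (p l : ℤ) := by
      unfold Z
      rw [← Finset.add_sum_erase _ _ (Finset.mem_univ i)]; ring
    rw [h2, hZ]
    apply dvd_sub (dvd_zero _)
    apply Finset.dvd_sum
    intro j hj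
    apply dvd_mul_of_dvd_right
    exact Finset.dvd_prod_of_mem (fun l => (p l : ℤ))
      (Finset.mem_erase.2 ⟨(Finset.mem_erase.1 hj).1.symm, Finset.mem_univ _⟩)
  have hpi : Prime (p i : ℤ) := Nat.prime_iff_prime_int.1 (hp i)
  rcases hpi.dvd_or_dvd h1 with h3 | h3
  · have h4 := Int.le_of_dvd (abs_pos.2 hi) ((dvd_abs _ _).2 h3)
    have h5 := hh i
    have h6 := hH i
    omega
  · rw [Prime.dvd_finsetProd_iff hpi] at h3
    obtain ⟨l, hl, h4⟩ := h3
    have h5 : p i ∣ p l := by exact_mod_cast h4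
    have h6 := (Nat.prime_dvd_prime_iff_eq (hp i) (hp l)).1 h5
    exact (Finset.mem_erase.1 hl).1 (hinj h6).symm

lemma Z_le {p : ι → ℕ} {H X R : ℕ} (hpX : ∀ i, p i ≤ X) (hX : 0 < X) (hR : Fintype.card ι ≤ R)
    {h : ι → ℤ} (hh : ∀ i, |h i| ≤ H) : |Z p h| ≤ ((R * H * X ^ R : ℕ) : ℤ) := by
  unfold Z
  refine (Finset.abs_sum_le_sum_abs _ _).trans ?_
  have h1 : ∀ i ∈ (Finset.univ : Finset ι), |h i * ∏ l ∈ Finset.univ.erase i, (p l : ℤ)|
      ≤ ((H * X ^ R : ℕ) : ℤ) := by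
    intro i _
    rw [abs_mul, Finset.abs_prod]
    have h2 : ∏ l ∈ Finset.univ.erase i, |(p l : ℤ)| ≤ (X : ℤ) ^ R := by
      calc ∏ l ∈ Finset.univ.erase i, |(p l : ℤ)| ≤ ∏ _l ∈ Finset.univ.erase i, (X : ℤ) := by
            apply Finset.prod_le_prod (fun l _ => abs_nonneg _)
            intro l _
            rw [abs_of_nonneg (by positivity)]
            exact_mod_cast hpX l
        _ = (X : ℤ) ^ (Finset.univ.erase i).card := by rw [Finset.prod_const]
        _ ≤ (X : ℤ) ^ R := by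
            apply pow_le_pow_right₀ (by exact_mod_cast hX)
            exact (Finset.card_le_univ _).trans hR
    push_cast
    have h3 : (0 : ℤ) ≤ ∏ l ∈ Finset.univ.erase i, |(p l : ℤ)| :=
      Finset.prod_nonneg fun l _ => abs_nonneg _
    have h4 : (0 : ℤ) ≤ H := by positivity
    exact mul_le_mul (hh i) h2 h3 h4
  refine (Finset.sum_le_sum h1).trans ?_
  rw [Finset.sum_const, nsmul_eq_mul, Finset.card_univ]
  have h5 : (Fintype.card ι : ℤ) ≤ R := by exact_mod_cast hR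
  push_cast
  have h6 : (0 : ℤ) ≤ H * X ^ R := by positivity
  calc (Fintype.card ι : ℤ) * (H * X ^ R) ≤ R * (H * X ^ R) := by gcongr
    _ = _ := by ring

/-- The primes `q ≥ a` which admit a relation are few. -/
theorem good_exists {p : ι → ℕ} (hp : ∀ i, (p i).Prime) (hinj : Function.Injective p) {H X R : ℕ}
    (hH : ∀ i, H < p i) (hpX : ∀ i, p i ≤ X) (hX : 0 < X) (hR : Fintype.card ι ≤ R) {a : ℝ}
    (ha : 0 ≤ a) (haX : ((R * H * X ^ R : ℕ) : ℝ) < a ^ (R + 1)) {Q : Finset ℕ}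
    (hQ : ∀ q ∈ Q, q.Prime) (hQa : ∀ q ∈ Q, a ≤ q) (hcard : R * (2 * H + 1) ^ R < Q.card) :
    ∃ q ∈ Q, ∀ h : ι → ℤ, (∀ i, |h i| ≤ H) → (q : ℤ) ∣ Z p h → h = 0 := by
  classical
  by_contra hcon
  push Not at hcon
  obtain ⟨B, hB⟩ : ∃ B : Finset (ι → ℤ), B
    = (Fintype.piFinset (fun _ : ι => Finset.Icc (-(H : ℤ)) H)).filter (fun h => h ≠ 0) := ⟨_, rfl⟩
  have hsub : Q ⊆ B.biUnion (fun h => Q.filter (fun q : ℕ => (q : ℤ) ∣ Z p h)) := by
    intro q hq
    obtain ⟨h, hh, hd, h0⟩ := hcon q hq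
    rw [Finset.mem_biUnion]
    refine ⟨h, ?_, Finset.mem_filter.2 ⟨hq, hd⟩⟩
    rw [hB, Finset.mem_filter, Fintype.mem_piFinset]
    exact ⟨fun i => Finset.mem_Icc.2 (abs_le.1 (hh i)), h0⟩
  have hfew : ∀ h ∈ B, (Q.filter (fun q : ℕ => (q : ℤ) ∣ Z p h)).card ≤ R := by
    intro h hh
    rw [hB, Finset.mem_filter, Fintype.mem_piFinset] at hh
    have hh1 : ∀ i, |h i| ≤ H := fun i => abs_le.2 (Finset.mem_Icc.1 (hh.1 i))
    have hne := Z_ne hp hinj hH hh1 hh.2
    have hle := Z_le hpX hX hR hh1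
    by_contra hcard'
    push Not at hcard'
    have hdvd : ∏ q ∈ Q.filter (fun q : ℕ => (q : ℤ) ∣ Z p h), q ∣ (Z p h).natAbs := by
      apply Finset.prod_primes_dvd
      · intro q hq
        exact (hQ q (Finset.mem_filter.1 hq).1).prime
      · intro q hq
        exact Int.natCast_dvd.1 (Finset.mem_filter.1 hq).2
    have hle2 := Nat.le_of_dvd (Int.natAbs_pos.2 hne) hdvd
    have hle3 : (Z p h).natAbs ≤ R * H * X ^ R := by
      have : ((Z p h).natAbs : ℤ) ≤ ((R * H * X ^ R : ℕ) : ℤ) := by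
        rw [Int.natCast_natAbs]; exact hle
      exact_mod_cast this
    have hlow : a ^ (Q.filter (fun q : ℕ => (q : ℤ) ∣ Z p h)).card
        ≤ ((∏ q ∈ Q.filter (fun q : ℕ => (q : ℤ) ∣ Z p h), q : ℕ) : ℝ) := by
      push_cast
      rw [← Finset.prod_const]
      apply Finset.prod_le_prod (fun _ _ => ha)
      intro q hq
      exact hQa q (Finset.mem_filter.1 hq).1
    have h1 : ((∏ q ∈ Q.filter (fun q : ℕ => (q : ℤ) ∣ Z p h), q : ℕ) : ℝ)
        ≤ ((R * H * X ^ R : ℕ) : ℝ) := by exact_mod_cast hle2.trans hle3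
    -- `a ≥ 1`
    have ha1 : 1 ≤ a := by
      by_contra hlt
      push Not at hlt
      have h2 : a ^ (R + 1) < 1 := pow_lt_one₀ ha hlt (by omega)
      have h3 : ((R * H * X ^ R : ℕ) : ℝ) < 1 := lt_trans haX h2
      have h4 : R * H * X ^ R < 1 := by exact_mod_cast h3
      have h5 : (Z p h).natAbs ≤ 0 := by omega
      have h6 := Int.natAbs_pos.2 hne
      omega
    have h2 : a ^ (R + 1) ≤ a ^ (Q.filter (fun q : ℕ => (q : ℤ) ∣ Z p h)).card :=
      pow_le_pow_right₀ ha1 hcard'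
    linarith
  have h1 := (Finset.card_le_card hsub).trans (Finset.card_biUnion_le_card_mul B _ R hfew)
  have h2 : B.card ≤ (2 * H + 1) ^ R := by
    calc B.card ≤ (Fintype.piFinset (fun _ : ι => Finset.Icc (-(H : ℤ)) H)).card := by
          rw [hB]; exact Finset.card_filter_le _ _
      _ = (2 * H + 1) ^ Fintype.card ι := by
          rw [Fintype.card_piFinset, Finset.prod_const, Int.card_Icc, Finset.card_univ]
          congr 1; omega
      _ ≤ (2 * H + 1) ^ R := Nat.pow_le_pow_right (by omega) hR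
  have h3 : B.card * R ≤ R * (2 * H + 1) ^ R := by
    rw [Nat.mul_comm]; exact Nat.mul_le_mul_left _ h2
  omega

/-- Passing to the inverses. -/
lemma dvd_Z {p : ι → ℕ} {q : ℕ} {b : ι → ℤ} (hb : ∀ i, (q : ℤ) ∣ b i * p i - 1) {h : ι → ℤ}
    (hd : (q : ℤ) ∣ ∑ i, h i * b i) : (q : ℤ) ∣ Z p h := by
  have h1 : Z p h = (∏ l, (p l : ℤ)) * ∑ i, h i * b i
      - ∑ i, h i * (∏ l ∈ Finset.univ.erase i, (p l : ℤ)) * (b i * p i - 1) := by
    unfold Z
    rw [Finset.mul_sum, ← Finset.sum_sub_distrib]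
    apply Finset.sum_congr rfl
    intro i _
    rw [← Finset.mul_prod_erase _ _ (Finset.mem_univ i)]
    ring
  rw [h1]
  apply dvd_sub (dvd_mul_of_dvd_right hd _)
  apply Finset.dvd_sum
  intro i _
  exact dvd_mul_of_dvd_right (hb i) _

end Pool.Agent.Q10.PK.Bad
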