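import Pool.Agent.Q10.PK.Bundle

/-!
# Placement of the bundles of a block
-/

set_option autoImplicit false

open Finset

namespace Pool.Agent.Q10.PK

/-- The data of a block, for bundles of `J` progressions. -/
structure BlkJ (Q : Finset ℕ) (N : ℕ → ℕ) (a ε : ℝ) (X S σ R H T J : ℕ) : Prop where
  prime : ∀ q ∈ Q, q.Prime
  low : ∀ q ∈ Q, a ≤ q
  up : ∀ q ∈ Q, q ≤ X
  span : ∀ q ∈ Q, N q * q ≤ S
  a0 : 0 ≤ a
  e0 : 0 < ε
  e1 : 7 * ε < 1
  rs : S + 2 * X ≤ R * σ
  hs : (S : ℝ) + 2 * X ≤ σ + (1 - 7 * ε) * a ^ 2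
  hH : (R : ℝ) < H * (2 * ε ^ 2)
  Hlt : ∀ q ∈ Q, H < q
  big : ((R * H * X ^ R : ℕ) : ℝ) < a ^ (R + 1)
  T1 : 1 ≤ ε * T
  J1 : ∀ q ∈ Q, J * T ^ (2 * R) ≤ q
  eq1 : ∀ q ∈ Q, 1 < ε * q

variable {Q : Finset ℕ} {N : ℕ → ℕ} {a ε : ℝ} {X S σ R H T J : ℕ}

/-- A recent progression and the new one are disjoint. -/
lemma BlkJ.recent (B : BlkJ Q N a ε X S σ R H T J) {p q : ℕ} (hp : p ∈ Q) (hq : q ∈ Q) (hpq : p ≠ q)
    {sp s t' : ℤ} (hb : (q : ℤ) ∣ t' * p - (s - sp))
    (h1 : (N p : ℤ) < t') (h2 : (t' : ℝ) < N p + 7 * ε * q) (hs : sp < s + 2 * X - σ)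
    {t u : ℤ} (ht : t ≤ N p) (hu : 1 ≤ u) : sp + t * p ≠ s + u * q := by
  intro hcol
  have hqpos : (0 : ℤ) < q := by exact_mod_cast (B.prime q hq).pos
  have hppos : (0 : ℤ) < p := by exact_mod_cast (B.prime p hp).pos
  have hd : (q : ℤ) ∣ (t' - t) * p := by
    have : (t' - t) * p = (t' * p - (s - sp)) + q * (-u) + (s + u * q - (sp + t * p)) := by ring
    rw [this, hcol, sub_self, add_zero]
    exact dvd_add hb (dvd_mul_right _ _)
  have hcop : IsCoprime (q : ℤ) (p : ℤ) := by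
    rw [Nat.isCoprime_iff_coprime]
    exact (Nat.coprime_primes (B.prime q hq) (B.prime p hp)).2 hpq.symm
  have hd2 : (q : ℤ) ∣ t' - t := hcop.dvd_of_dvd_mul_right hd
  have h3 : (q : ℤ) ≤ t' - t := Int.le_of_dvd (by omega) hd2
  have h3' : (q : ℝ) ≤ t' - t := by exact_mod_cast h3
  have hq' : (0 : ℝ) < q := by exact_mod_cast hqpos
  have hp' : (0 : ℝ) < p := by exact_mod_cast hppos
  have h4 : (1 - 7 * ε) * q < N p - t := by linarith
  have h5 : (1 - 7 * ε) * q * p < (N p - t) * p := mul_lt_mul_of_pos_right h4 hp'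
  have h6 : (1 - 7 * ε) * a ^ 2 ≤ (1 - 7 * ε) * q * p := by
    have e1 := B.low q hq
    have e2 := B.low p hp
    have e3 : a ^ 2 ≤ (q : ℝ) * p := by
      rw [sq]; exact mul_le_mul e1 e2 B.a0 hq'.le
    have e4 : 0 < 1 - 7 * ε := by linarith [B.e1]
    calc (1 - 7 * ε) * a ^ 2 ≤ (1 - 7 * ε) * ((q : ℝ) * p) := by gcongr
      _ = _ := by ring
  have h7 : ((N p * p : ℕ) : ℝ) ≤ S := by exact_mod_cast B.span p hp
  have h8 : (sp : ℝ) + t * p = s + u * q := by exact_mod_cast hcol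
  have h9 : (sp : ℝ) < s + 2 * X - σ := by exact_mod_cast hs
  have h10 : (0 : ℝ) ≤ u * q := by
    have : (0 : ℤ) ≤ u * q := mul_nonneg (by omega) hqpos.le
    exact_mod_cast this
  have h11 := B.hs
  push_cast at h7
  nlinarith

/-- The state of the placement after `j` steps. -/
def StateJ (Q : Finset ℕ) (N : ℕ → ℕ) (ε : ℝ) (X σ R j : ℕ) (f : ℕ → ℕ) (s : ℕ → ℤ) : Prop :=
  (∀ i < j, f i ∈ Q) ∧ (∀ i < j, ∀ i' < j, f i = f i' → i = i') ∧
  (∀ i < j, ((i * σ : ℕ) : ℤ) ≤ s i ∧ s i < ((i * σ : ℕ) : ℤ) + X) ∧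
  (∀ i' < j, ∀ i < i', i' < i + R → ∃ t0 : ℤ, (f i' : ℤ) ∣ t0 * f i - (s i' - s i) ∧
    (N (f i) : ℝ) + 3 * ε * f i' < t0 ∧ (t0 : ℝ) < N (f i) + 4 * ε * f i')

lemma BlkJ.step (B : BlkJ Q N a ε X S σ R H T J) {j : ℕ} {f : ℕ → ℕ} {s : ℕ → ℤ}
    (h : StateJ Q N ε X σ R j f s) (hj : j + leftC R H < Q.card) :
    ∃ (f' : ℕ → ℕ) (s' : ℕ → ℤ), StateJ Q N ε X σ R (j + 1) f' s' := by
  classical
  obtain ⟨hf, hinj, hs, hdis⟩ := h
  let ι := {i : ℕ // i ∈ (Finset.range j).filter (fun i => j < i + R)}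
  have hιlt : ∀ i : ι, (i : ℕ) < j := fun i =>
    Finset.mem_range.1 (Finset.mem_filter.1 i.2).1
  have hcard : Fintype.card ι ≤ R := by
    have h1 : Fintype.card ι = ((Finset.range j).filter (fun i => j < i + R)).card :=
      Fintype.card_coe _
    rw [h1]
    have h2 : (Finset.range j).filter (fun i => j < i + R) ⊆ Finset.Ico (j - R) j := by
      intro i hi
      rw [Finset.mem_filter, Finset.mem_range] at hi
      rw [Finset.mem_Ico]; omega
    refine (Finset.card_le_card h2).trans ?_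
    rw [Nat.card_Ico]; omega
  obtain ⟨Q', hQ'⟩ : ∃ Q', Q' = Q \ (Finset.range j).image f := ⟨_, rfl⟩
  have hQ'c : leftC R H < Q'.card := by
    have h1 : Q.card - ((Finset.range j).image f).card ≤ Q'.card := by
      rw [hQ']; exact Finset.le_card_sdiff _ _
    have h2 : ((Finset.range j).image f).card ≤ j := by
      simpa using Finset.card_image_le (s := Finset.range j) (f := f)
    omega
  have hQ'sub : ∀ q ∈ Q', q ∈ Q := fun q hq => by
    rw [hQ'] at hq; exact (Finset.mem_sdiff.1 hq).1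
  have hQ'new : ∀ q ∈ Q', ∀ i < j, f i ≠ q := by
    intro q hq i hi hcon
    rw [hQ', Finset.mem_sdiff] at hq
    exact hq.2 (Finset.mem_image.2 ⟨i, Finset.mem_range.2 hi, hcon⟩)
  have hX : 0 < X := by
    obtain ⟨q, hq⟩ : Q.Nonempty := Finset.card_pos.1 (by omega)
    exact (B.prime q hq).pos.trans_le (B.up q hq)
  obtain ⟨q, hqQ', hgood⟩ := Bad.good_exists (p := fun i : ι => f i) (H := H) (X := X) (R := R)
    (a := a) (Q := Q') (fun i => B.prime _ (hf _ (hιlt i)))
    (fun i i' hii => Subtype.ext (hinj _ (hιlt i) _ (hιlt i') hii))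
    (fun i => B.Hlt _ (hf _ (hιlt i))) (fun i => B.up _ (hf _ (hιlt i))) hX hcard B.a0 B.big
    (fun q hq => B.prime q (hQ'sub q hq)) (fun q hq => B.low q (hQ'sub q hq)) hQ'c
  have hqQ := hQ'sub q hqQ'
  have hqp := B.prime q hqQ
  have hinv : ∀ i : ι, ∃ b : ℤ, (q : ℤ) ∣ b * (f i : ℕ) - 1 := by
    intro i
    have hne := hQ'new q hqQ' i (hιlt i)
    have hcop : IsCoprime ((f i : ℕ) : ℤ) (q : ℤ) := by
      rw [Nat.isCoprime_iff_coprime]
      exact (Nat.coprime_primes (B.prime _ (hf _ (hιlt i))) hqp).2 hne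
    obtain ⟨u, v, huv⟩ := hcop
    exact ⟨u, ⟨-v, by linarith⟩⟩
  choose b hb using hinv
  have hδ : (0 : ℝ) < 2 * ε ^ 2 := by have := B.e0; positivity
  obtain ⟨y, hyq, hy⟩ := Kron.kron hqp.pos b
    (fun i : ι => -(((((j * σ : ℕ) : ℤ) - s i) * b i - N (f i) : ℤ) : ℝ) / q + 7 * ε / 2) H
    (fun h hh hd => hgood h hh (Bad.dvd_Z hb hd)) hδ
    (lt_of_le_of_lt (by exact_mod_cast hcard) B.hH)
  have hq' : (0 : ℝ) < q := by exact_mod_cast hqp.pos
  obtain ⟨s0, hs0⟩ : ∃ s0 : ℤ, s0 = ((j * σ : ℕ) : ℤ) + y := ⟨_, rfl⟩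
  have hm : ∀ i : ι, ∃ t0 : ℤ, (q : ℤ) ∣ t0 * f i - (s0 - s i) ∧
      (N (f i) : ℝ) + 3 * ε * q < t0 ∧ (t0 : ℝ) < N (f i) + 4 * ε * q := by
    intro i
    obtain ⟨m, hm⟩ := Kron.near_int B.e0 (hy i)
    refine ⟨(s0 - s i) * b i - m * q, ?_, ?_⟩
    · have : ((s0 - s i) * b i - m * q) * f i - (s0 - s i)
          = (s0 - s i) * (b i * f i - 1) + q * (-m * f i) := by ring
      rw [this]
      exact dvd_add (dvd_mul_of_dvd_right (hb i) _) (dvd_mul_right _ _)
    rw [abs_lt] at hm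
    have h1 : (y * (b i / q : ℝ) - (-(((((j * σ : ℕ) : ℤ) - s i) * b i - N (f i) : ℤ) : ℝ) / q
        + 7 * ε / 2)) - m = ((((s0 - s i) * b i - m * q : ℤ) : ℝ) - N (f i)) / q - 7 * ε / 2 := by
      rw [hs0]; push_cast; field_simp; ring
    rw [h1] at hm
    have h2 : 3 * ε < ((((s0 - s i) * b i - m * q : ℤ) : ℝ) - N (f i)) / q := by linarith [hm.1]
    have h3 : ((((s0 - s i) * b i - m * q : ℤ) : ℝ) - N (f i)) / q < 4 * ε := by linarith [hm.2]
    rw [lt_div_iff₀ hq'] at h2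
    rw [div_lt_iff₀ hq'] at h3
    constructor
    · linarith
    · linarith
  have hyX : (y : ℤ) < X := by
    have := B.up q hqQ
    exact_mod_cast lt_of_lt_of_le hyq this
  refine ⟨fun i => if i = j then q else f i, fun i => if i = j then s0 else s i, ?_, ?_, ?_, ?_⟩
  · intro i hi
    by_cases hij : i = j
    · simp only [hij, if_true]; exact hqQ
    · simp only [hij, if_false]; exact hf i (by omega)
  · intro i hi i' hi' hii
    by_cases hij : i = j
    · by_cases hij' : i' = j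
      · rw [hij, hij']
      · simp only [hij, hij', if_true, if_false] at hii
        exact absurd hii.symm (hQ'new q hqQ' i' (by omega))
    · by_cases hij' : i' = j
      · simp only [hij, hij', if_true, if_false] at hii
        exact absurd hii (hQ'new q hqQ' i (by omega))
      · simp only [hij, hij', if_false] at hii
        exact hinj i (by omega) i' (by omega) hii
  · intro i hi
    by_cases hij : i = j
    · simp only [hij, if_true]
      rw [hs0]
      constructor <;> omega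
    · simp only [hij, if_false]; exact hs i (by omega)
  · intro i' hi' i hi hR
    have hij : i ≠ j := by omega
    simp only [hij, if_false]
    by_cases hij' : i' = j
    · simp only [hij', if_true]
      have hilt : i < j := by omega
      exact hm ⟨i, Finset.mem_filter.2 ⟨Finset.mem_range.2 hilt, by omega⟩⟩
    · simp only [hij', if_false]
      exact hdis i' (by omega) i hi hR

/-- The placement. -/
lemma BlkJ.place (B : BlkJ Q N a ε X S σ R H T J) : ∀ j, j + leftC R H ≤ Q.card →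
    ∃ (f : ℕ → ℕ) (s : ℕ → ℤ), StateJ Q N ε X σ R j f s := by
  intro j
  induction j with
  | zero =>
    intro _
    refine ⟨fun _ => 0, fun _ => 0, ?_, ?_, ?_, ?_⟩ <;> intros <;> omega
  | succ j ih =>
    intro hj
    obtain ⟨f, s, h⟩ := ih (by omega)
    exact B.step h (by omega)

/-- The offsets. -/
lemma BlkJ.offsets (B : BlkJ Q N a ε X S σ R H T J) {j : ℕ} {f : ℕ → ℕ} {s : ℕ → ℤ}
    (h : StateJ Q N ε X σ R j f s) :
    ∃ δ : ℕ → ℕ → ℕ, (∀ i < j, ∀ m < J, δ i m < f i) ∧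
      (∀ i < j, ∀ m < J, ∀ m' < J, δ i m = δ i m' → m = m') ∧
      (∀ i < j, ∀ i' < j, i ≠ i' → i < i' + R → i' < i + R → ∀ m < J, ∃ x : ℤ,
        (f i : ℤ) ∣ x * f i' - δ i m ∧ |(x : ℝ)| < ε * f i) := by
  classical
  obtain ⟨hf, hinj, hs, hdis⟩ := h
  have hTpos : 0 < T := by
    have h1 := B.T1
    rcases Nat.eq_zero_or_pos T with h | h
    · subst h; norm_num at h1
    · exact h
  have key : ∀ i, ∃ δ : ℕ → ℕ, i < j → (∀ m < J, δ m < f i) ∧
      (∀ m < J, ∀ m' < J, δ m = δ m' → m = m') ∧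
      (∀ i' < j, i ≠ i' → i < i' + R → i' < i + R → ∀ m < J, ∃ x : ℤ,
        (f i : ℤ) ∣ x * f i' - δ m ∧ |(x : ℝ)| < ε * f i) := by
    intro i
    by_cases hij : i < j
    · let ι := {i' : ℕ // i' ∈ (Finset.range j).filter (fun i' => i ≠ i' ∧ i < i' + R ∧ i' < i + R)}
      have hmem : ∀ i' : ι, (i' : ℕ) < j ∧ i ≠ i' ∧ i < i' + R ∧ (i' : ℕ) < i + R := fun i' => by
        have := Finset.mem_filter.1 i'.2
        exact ⟨Finset.mem_range.1 this.1, this.2⟩
      have hcard : Fintype.card ι ≤ 2 * R := by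
        have h1 : Fintype.card ι = ((Finset.range j).filter
            (fun i' => i ≠ i' ∧ i < i' + R ∧ i' < i + R)).card := Fintype.card_coe _
        rw [h1]
        have h2 : (Finset.range j).filter (fun i' => i ≠ i' ∧ i < i' + R ∧ i' < i + R)
            ⊆ Finset.Ico (i - R) (i + R) := by
          intro i' hi'
          rw [Finset.mem_filter, Finset.mem_range] at hi'
          rw [Finset.mem_Ico]; omega
        refine (Finset.card_le_card h2).trans ?_
        rw [Nat.card_Ico]; omega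
      have hqp := B.prime _ (hf i hij)
      have hinv : ∀ i' : ι, ∃ b : ℤ, (f i : ℤ) ∣ b * (f i' : ℕ) - 1 := by
        intro i'
        have hne : f i' ≠ f i := fun hcon => (hmem i').2.1 (hinj _ (hmem i').1 _ hij hcon).symm
        have hcop : IsCoprime ((f i' : ℕ) : ℤ) (f i : ℤ) := by
          rw [Nat.isCoprime_iff_coprime]
          exact (Nat.coprime_primes (B.prime _ (hf _ (hmem i').1)) hqp).2 hne
        obtain ⟨u, v, huv⟩ := hcop
        exact ⟨u, ⟨-v, by linarith⟩⟩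
      choose b hb using hinv
      obtain ⟨δ, h1, h2, h3⟩ := bohr hqp.pos hTpos (J := J) b (by
        refine le_trans ?_ (B.J1 _ (hf i hij))
        exact Nat.mul_le_mul_left _ (Nat.pow_le_pow_right hTpos hcard))
      refine ⟨δ, fun _ => ⟨h1, h2, ?_⟩⟩
      intro i' hi' hne hr1 hr2 m hm
      have hmi : i' ∈ (Finset.range j).filter (fun i' => i ≠ i' ∧ i < i' + R ∧ i' < i + R) :=
        Finset.mem_filter.2 ⟨Finset.mem_range.2 hi', hne, hr1, hr2⟩
      obtain ⟨x, hx1, hx2⟩ := h3 m hm ⟨i', hmi⟩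
      have hb' := hb ⟨i', hmi⟩
      simp only at hb'
      refine ⟨x, ?_, ?_⟩
      · have : x * f i' - δ m = (x - δ m * b ⟨i', hmi⟩) * f i'
            + δ m * (b ⟨i', hmi⟩ * f i' - 1) := by ring
        rw [this]
        exact dvd_add (dvd_mul_of_dvd_left hx1 _) (dvd_mul_of_dvd_right hb' _)
      · have e1 : |(x : ℝ)| * T < f i := by
          have : ((|x| * T : ℤ) : ℝ) < ((f i : ℤ) : ℝ) := by exact_mod_cast hx2
          push_cast at this
          exact this
        have hT' : (0 : ℝ) < T := by exact_mod_cast hTpos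
        have e2 : (f i : ℝ) ≤ ε * f i * T := by
          have := B.T1
          have hfi : (0 : ℝ) ≤ f i := by positivity
          nlinarith
        have e3 : |(x : ℝ)| * T < ε * f i * T := by linarith
        exact lt_of_mul_lt_mul_right e3 hT'.le
    · exact ⟨fun _ => 0, fun h => absurd h hij⟩
  choose δ hδ using key
  exact ⟨δ, fun i hi => (hδ i hi).1, fun i hi => (hδ i hi).2.1, fun i hi => (hδ i hi).2.2⟩

/-- Two bundles are disjoint. -/
lemma BlkJ.disj (B : BlkJ Q N a ε X S σ R H T J) {j : ℕ} {f : ℕ → ℕ} {s : ℕ → ℤ}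
    (h : StateJ Q N ε X σ R j f s) {δ : ℕ → ℕ → ℕ} (hδ1 : ∀ i < j, ∀ m < J, δ i m < f i)
    (hδ3 : ∀ i < j, ∀ i' < j, i ≠ i' → i < i' + R → i' < i + R → ∀ m < J, ∃ x : ℤ,
        (f i : ℤ) ∣ x * f i' - δ i m ∧ |(x : ℝ)| < ε * f i)
    {i i' : ℕ} (hi' : i' < j) (hi : i < i') {m m' : ℕ} (hm : m < J) (hm' : m' < J) {t u : ℤ}
    (ht2 : t ≤ N (f i)) (hu1 : 1 ≤ u) :
    s i + δ i m + t * f i ≠ s i' + δ i' m' + u * f i' := by
  obtain ⟨hf, hinj, hs, hdis⟩ := h
  have hij : i < j := by omega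
  have hpQ := hf i hij
  have hqQ := hf i' hi'
  have hne : f i ≠ f i' := fun hcon => by
    have := hinj i hij i' hi' hcon
    omega
  have hp1 := hs i hij
  have hq1 := hs i' hi'
  have hδp := hδ1 i hij m hm
  have hδq := hδ1 i' hi' m' hm'
  have hpX := B.up _ hpQ
  by_cases hrec : i' < i + R
  · obtain ⟨t0, ht0, h1, h2⟩ := hdis i' hi' i hi hrec
    obtain ⟨x, hx1, hx2⟩ := hδ3 i' hi' i hij (by omega) (by omega) (by omega) m' hm'
    obtain ⟨x', hx1', hx2'⟩ := hδ3 i hij i' hi' (by omega) (by omega) (by omega) m hm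
    obtain ⟨z, hz⟩ := hx1'
    -- `x'' = -z`
    have hpos : (0 : ℝ) < f i := by exact_mod_cast (B.prime _ hpQ).pos
    have hqpos : (0 : ℝ) < f i' := by exact_mod_cast (B.prime _ hqQ).pos
    have hz1 : (f i : ℝ) * z = x' * f i' - δ i m := by
      have : ((f i * z : ℤ) : ℝ) = ((x' * f i' - δ i m : ℤ) : ℝ) := by rw [hz]
      push_cast at this; exact this
    have hδp' : (δ i m : ℝ) ≤ f i := by exact_mod_cast hδp.le
    have hδ0 : (0 : ℝ) ≤ δ i m := by positivity
    rw [abs_lt] at hx2 hx2'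
    have hz2 : (z : ℝ) < ε * f i' := by
      have : (f i : ℝ) * z < f i * (ε * f i') := by
        rw [hz1]; nlinarith
      exact lt_of_mul_lt_mul_left this hpos.le
    have hz3 : -(ε * f i') - 1 < (z : ℝ) := by
      have : (f i : ℝ) * (-(ε * f i') - 1) < f i * z := by
        rw [hz1]; nlinarith
      exact lt_of_mul_lt_mul_left this hpos.le
    have heq := B.eq1 _ hqQ
    refine B.recent hpQ hqQ hne (t' := t0 + x + z) ?_ ?_ ?_ ?_ ht2 hu1
    · have : (t0 + x + z) * (f i : ℤ) - (s i' + δ i' m' - (s i + δ i m))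
          = (t0 * f i - (s i' - s i)) + (x * f i - δ i' m') + (f i * z + δ i m) := by ring
      rw [this, ← hz]
      refine dvd_add (dvd_add ht0 hx1) ?_
      exact ⟨x', by ring⟩
    · have : ((N (f i) : ℤ) : ℝ) < ((t0 + x + z : ℤ) : ℝ) := by
        push_cast; linarith
      exact_mod_cast this
    · push_cast; linarith
    · have h2 : ((i * σ : ℕ) : ℤ) + σ ≤ ((i' * σ : ℕ) : ℤ) := by
        have : i * σ + σ ≤ i' * σ := by
          calc i * σ + σ = (i + 1) * σ := by ring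
            _ ≤ i' * σ := Nat.mul_le_mul_right _ (by omega)
        exact_mod_cast this
      have h3 : ((δ i m : ℕ) : ℤ) < X := by exact_mod_cast hδp.trans_le hpX
      have h4 : (0 : ℤ) ≤ ((δ i' m' : ℕ) : ℤ) := by positivity
      omega
  · push Not at hrec
    have h2 : ((i * σ : ℕ) : ℤ) + (S + 2 * X) ≤ ((i' * σ : ℕ) : ℤ) := by
      have : i * σ + (S + 2 * X) ≤ i' * σ := by
        calc i * σ + (S + 2 * X) ≤ i * σ + R * σ := Nat.add_le_add_left B.rs _
          _ = (i + R) * σ := by ring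
          _ ≤ i' * σ := Nat.mul_le_mul_right _ hrec
      exact_mod_cast this
    have h3 : t * f i ≤ S := by
      have e1 : t * (f i : ℤ) ≤ (N (f i) : ℤ) * f i := by
        apply mul_le_mul_of_nonneg_right ht2 (by positivity)
      have e2 : ((N (f i) * f i : ℕ) : ℤ) ≤ S := by exact_mod_cast B.span _ hpQ
      push_cast at e2
      linarith
    have h4 : (0 : ℤ) < u * f i' := by
      have : (0 : ℤ) < f i' := by exact_mod_cast (B.prime _ hqQ).pos
      apply mul_pos (by omega) this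
    have h5 : ((δ i m : ℕ) : ℤ) < X := by exact_mod_cast hδp.trans_le hpX
    have h6 : (0 : ℤ) ≤ ((δ i' m' : ℕ) : ℤ) := by positivity
    apply ne_of_lt
    omega

/-- The block lemma for bundles. -/
lemma BlkJ.pack (B : BlkJ Q N a ε X S σ R H T J) :
    BPack Q N J (Q.card * σ + 2 * X + S + leftC R H * (S + J)) := by
  classical
  have hpos : ∀ q ∈ Q, 0 < q := fun q hq => (B.prime q hq).pos
  have hTpos : 0 < T := by
    have h1 := B.T1
    rcases Nat.eq_zero_or_pos T with h | h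
    · subst h; norm_num at h1
    · exact h
  have hJq : ∀ q ∈ Q, J ≤ q := by
    intro q hq
    refine le_trans ?_ (B.J1 q hq)
    exact Nat.le_mul_of_pos_right _ (Nat.pow_pos hTpos)
  rcases le_or_gt Q.card (leftC R H) with hc | hc
  · refine (BPack.separate Q hpos B.span hJq).mono ?_
    have := Nat.mul_le_mul_right (S + J) hc
    omega
  · obtain ⟨j, hj⟩ : ∃ j, j = Q.card - leftC R H := ⟨_, rfl⟩
    obtain ⟨f, s, hst⟩ := B.place j (by omega)
    obtain ⟨δ, hδ1, hδ2, hδ3⟩ := B.offsets hst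
    have hdj := fun {i i' : ℕ} (hi' : i' < j) (hi : i < i') {m m' : ℕ} (hm : m < J) (hm' : m' < J)
      {t u : ℤ} (ht2 : t ≤ N (f i)) (hu1 : 1 ≤ u) => B.disj hst hδ1 hδ3 hi' hi hm hm' ht2 hu1
    obtain ⟨hf, hinj, hs, -⟩ := hst
    obtain ⟨P, hP⟩ : ∃ P, P = (Finset.range j).image f := ⟨_, rfl⟩
    have hPsub : P ⊆ Q := by
      intro p hp
      rw [hP] at hp
      obtain ⟨i, hi, rfl⟩ := Finset.mem_image.1 hp
      exact hf i (Finset.mem_range.1 hi)
    have hPc : P.card = j := by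
      rw [hP, Finset.card_image_of_injOn, Finset.card_range]
      intro i hi i' hi' h
      exact hinj i (Finset.mem_range.1 hi) i' (Finset.mem_range.1 hi') h
    have hpack : BPack P N J (j * σ + 2 * X + S) := by
      obtain ⟨g, hg⟩ : ∃ g : ℕ → ℕ, ∀ i < j, g (f i) = i := by
        refine ⟨fun p => if h : ∃ i < j, f i = p then h.choose else 0, ?_⟩
        intro i hi
        have h : ∃ i' < j, f i' = f i := ⟨i, hi, rfl⟩
        show (if h : ∃ i' < j, f i' = f i then h.choose else 0) = i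
        rw [dif_pos h]
        exact hinj _ h.choose_spec.1 _ hi h.choose_spec.2
      refine ⟨fun p m => s (g p) + δ (g p) m, ?_, ?_, ?_⟩
      · intro p hp m hm
        rw [hP] at hp
        obtain ⟨i, hi, rfl⟩ := Finset.mem_image.1 hp
        rw [Finset.mem_range] at hi
        simp only [hg i hi]
        have h1 := hs i hi
        have h2 : ((N (f i) * f i : ℕ) : ℤ) ≤ S := by exact_mod_cast B.span _ (hf i hi)
        have h3 : i * σ ≤ j * σ := Nat.mul_le_mul_right _ hi.le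
        have h5 : ((δ i m : ℕ) : ℤ) < X := by exact_mod_cast (hδ1 i hi m hm).trans_le (B.up _ (hf i hi))
        have h6 : (0 : ℤ) ≤ ((δ i m : ℕ) : ℤ) := by positivity
        push_cast at h1 h2 ⊢
        have h3' : (i : ℤ) * σ ≤ j * σ := by exact_mod_cast h3
        have h4 : (0 : ℤ) ≤ (i : ℤ) * σ := by positivity
        constructor <;> omega
      · intro p hp m hm m' hm' hmm hd
        rw [hP] at hp
        obtain ⟨i, hi, rfl⟩ := Finset.mem_image.1 hp
        rw [Finset.mem_range] at hi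
        simp only [hg i hi] at hd
        have e1 := hδ1 i hi m hm
        have e2 := hδ1 i hi m' hm'
        have e3 : ((δ i m : ℤ) - δ i m') = 0 := by
          apply Int.eq_zero_of_abs_lt_dvd (m := (f i : ℤ))
          · have : s i + (δ i m : ℤ) - (s i + δ i m') = (δ i m : ℤ) - δ i m' := by ring
            rwa [this] at hd
          · rw [abs_lt]; constructor <;> omega
        exact hmm (hδ2 i hi m hm m' hm' (by omega))
      · intro p hp p' hp' hpp m hm m' hm' t u ht1 ht2 hu1 hu2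
        rw [hP] at hp hp'
        obtain ⟨i, hi, rfl⟩ := Finset.mem_image.1 hp
        obtain ⟨i', hi', rfl⟩ := Finset.mem_image.1 hp'
        rw [Finset.mem_range] at hi hi'
        simp only [hg i hi, hg i' hi']
        have hii : i ≠ i' := fun h => hpp (by rw [h])
        rcases Nat.lt_or_gt_of_ne hii with hlt | hlt
        · exact hdj hi' hlt hm hm' ht2 hu1
        · exact (hdj hi hlt hm' hm hu2 ht1).symm
    have hrest : BPack (Q \ P) N J ((Q \ P).card * (S + J)) :=
      BPack.separate _ (fun p hp => hpos p (Finset.mem_sdiff.1 hp).1)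
        (fun p hp => B.span p (Finset.mem_sdiff.1 hp).1) (fun p hp => hJq p (Finset.mem_sdiff.1 hp).1)
    have hu := BPack.union (Finset.disjoint_sdiff) hpack hrest (fun p hp => hpos p (hPsub hp))
      (fun p hp => hpos p (Finset.mem_sdiff.1 hp).1)
    rw [Finset.union_sdiff_of_subset hPsub] at hu
    refine hu.mono ?_
    have h1 : (Q \ P).card = leftC R H := by
      rw [Finset.card_sdiff_of_subset hPsub, hPc]; omega
    rw [h1]
    have h2 : j * σ ≤ Q.card * σ := Nat.mul_le_mul_right _ (by omega)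
    omega

end Pool.Agent.Q10.PK
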