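import Pool.Agent.Q10.PK.Assemble

/-!
# Bundles: `J` copies of each progression of a block of primes
-/

set_option autoImplicit false

open Finset

namespace Pool.Agent.Q10.PK

/-- A placement of `J` copies of the progression with difference `q`, `q ∈ Q`, the copies having
different starts modulo `q`. -/
def BPack (Q : Finset ℕ) (N : ℕ → ℕ) (J L : ℕ) : Prop :=
  ∃ s : ℕ → ℕ → ℤ, (∀ q ∈ Q, ∀ m < J, 0 ≤ s q m ∧ s q m + N q * q ≤ L) ∧
    (∀ q ∈ Q, ∀ m < J, ∀ m' < J, m ≠ m' → ¬ (q : ℤ) ∣ s q m - s q m') ∧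
    (∀ q ∈ Q, ∀ q' ∈ Q, q ≠ q' → ∀ m < J, ∀ m' < J, ∀ t u : ℤ, 1 ≤ t → t ≤ N q → 1 ≤ u →
      u ≤ N q' → s q m + t * q ≠ s q' m' + u * q')

lemma BPack.empty (N : ℕ → ℕ) (J L : ℕ) : BPack ∅ N J L :=
  ⟨fun _ _ => 0, by simp, by simp, by simp⟩

lemma BPack.mono {Q : Finset ℕ} {N : ℕ → ℕ} {J L L' : ℕ} (h : BPack Q N J L) (hL : L ≤ L') :
    BPack Q N J L' := by
  obtain ⟨s, h1, h2, h3⟩ := h
  exact ⟨s, fun q hq m hm => ⟨(h1 q hq m hm).1, (h1 q hq m hm).2.trans (by exact_mod_cast hL)⟩,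
    h2, h3⟩

lemma BPack.union {P Q : Finset ℕ} {N : ℕ → ℕ} {J l m : ℕ} (hd : Disjoint P Q)
    (h1 : BPack P N J l) (h2 : BPack Q N J m) (hP : ∀ q ∈ P, 0 < q) (hQ : ∀ q ∈ Q, 0 < q) :
    BPack (P ∪ Q) N J (l + m) := by
  classical
  obtain ⟨s, s1, s2, s3⟩ := h1
  obtain ⟨t, t1, t2, t3⟩ := h2
  have hQP : ∀ q ∈ Q, q ∉ P := fun q hq hq' => (Finset.disjoint_left.1 hd) hq' hq
  -- the elements of the progressions
  have key : ∀ q ∈ P, ∀ q' ∈ Q, ∀ k < J, ∀ k' < J, ∀ u v : ℤ, 1 ≤ u → u ≤ N q → 1 ≤ v →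
      v ≤ N q' → s q k + u * q < t q' k' + l + v * q' := by
    intro q hq q' hq' k hk k' hk' u v hu hu2 hv hv2
    have e1 := (s1 q hq k hk).2
    have e2 := (t1 q' hq' k' hk').1
    have e3 : (0 : ℤ) < q := by exact_mod_cast hP q hq
    have e4 : (0 : ℤ) < q' := by exact_mod_cast hQ q' hq'
    have e5 : u * (q : ℤ) ≤ N q * q := mul_le_mul_of_nonneg_right hu2 e3.le
    have e6 : 0 < v * (q' : ℤ) := mul_pos (by omega) e4
    linarith
  refine ⟨fun q k => if q ∈ P then s q k else t q k + l, ?_, ?_, ?_⟩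
  · intro q hq k hk
    rcases Finset.mem_union.1 hq with hq | hq
    · simp only [hq, if_true]
      have := s1 q hq k hk
      push_cast; omega
    · simp only [hQP q hq, if_false]
      have := t1 q hq k hk
      push_cast; omega
  · intro q hq k hk k' hk' hkk
    rcases Finset.mem_union.1 hq with hq | hq
    · simp only [hq, if_true]; exact s2 q hq k hk k' hk' hkk
    · simp only [hQP q hq, if_false]
      have := t2 q hq k hk k' hk' hkk
      rwa [add_sub_add_right_eq_sub]
  · intro q hq q' hq' hqq k hk k' hk' u v hu hu2 hv hv2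
    rcases Finset.mem_union.1 hq with hq | hq <;> rcases Finset.mem_union.1 hq' with hq' | hq'
    · simp only [hq, hq', if_true]
      exact s3 q hq q' hq' hqq k hk k' hk' u v hu hu2 hv hv2
    · simp only [hq, hQP q' hq', if_true, if_false]
      exact (key q hq q' hq' k hk k' hk' u v hu hu2 hv hv2).ne
    · simp only [hq', hQP q hq, if_true, if_false]
      exact (key q' hq' q hq k' hk' k hk v u hv hv2 hu hu2).ne'
    · simp only [hQP q hq, hQP q' hq', if_false]
      have := t3 q hq q' hq' hqq k hk k' hk' u v hu hu2 hv hv2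
      intro hcon
      apply this
      linarith

/-- Bundles one after the other. -/
lemma BPack.separate {N : ℕ → ℕ} {S J : ℕ} (Q : Finset ℕ) (hpos : ∀ q ∈ Q, 0 < q)
    (h : ∀ q ∈ Q, N q * q ≤ S) (hJ : ∀ q ∈ Q, J ≤ q) : BPack Q N J (Q.card * (S + J)) := by
  classical
  induction Q using Finset.induction_on with
  | empty => exact BPack.empty N J _
  | insert a Q ha ih =>
    have h1 : BPack {a} N J (S + J) := by
      refine ⟨fun _ m => (m : ℤ), ?_, ?_, ?_⟩
      · intro q hq m hm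
        rw [Finset.mem_singleton] at hq
        subst hq
        have e1 := h q (Finset.mem_insert_self _ _)
        have e2 : ((N q * q : ℕ) : ℤ) ≤ S := by exact_mod_cast e1
        push_cast at e2 ⊢
        constructor
        · positivity
        · have : (m : ℤ) < J := by exact_mod_cast hm
          linarith
      · intro q hq m hm m' hm' hmm hd
        rw [Finset.mem_singleton] at hq
        subst hq
        have e1 := hJ q (Finset.mem_insert_self _ _)
        change (q : ℤ) ∣ (m : ℤ) - m' at hd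
        have e2 : ((m : ℤ) - m') = 0 := by
          apply Int.eq_zero_of_abs_lt_dvd hd
          rw [abs_lt]; constructor <;> omega
        omega
      · intro q hq q' hq' hqq
        rw [Finset.mem_singleton] at hq hq'
        exact absurd (hq.trans hq'.symm) hqq
    have h2 := BPack.union (Finset.disjoint_singleton_left.2 ha) h1
      (ih (fun q hq => hpos q (Finset.mem_insert_of_mem hq))
        (fun q hq => h q (Finset.mem_insert_of_mem hq))
        (fun q hq => hJ q (Finset.mem_insert_of_mem hq)))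
      (by intro q hq; rw [Finset.mem_singleton] at hq; subst hq; exact hpos q (Finset.mem_insert_self _ _))
      (fun q hq => hpos q (Finset.mem_insert_of_mem hq))
    rw [Finset.card_insert_of_notMem ha, Finset.insert_eq]
    refine h2.mono (le_of_eq ?_)
    ring

/-- From bundles to progressions with differences `m q`, `m ≤ J`. -/
lemma BPack.toPack {Q : Finset ℕ} {n J L : ℕ} (h : BPack Q (fun q => n / q) J L) {I : Finset ℕ}
    (hpos : ∀ q ∈ Q, 0 < q)
    (hI : ∀ d ∈ I, ∃ q ∈ Q, ∃ m, 1 ≤ m ∧ m ≤ J ∧ d = m * q) :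
    PackInto I (fun d => prog (n / d) d) L := by
  classical
  obtain ⟨s, h1, h2, h3⟩ := h
  choose! q hq m hm1 hm2 hd using hI
  have hel : ∀ d ∈ I, ∀ i, 1 ≤ i → i ≤ n / d → ∃ t : ℤ, 1 ≤ t ∧ t ≤ ((n / q d : ℕ) : ℤ) ∧
      ((i * d : ℕ) : ℤ) = t * q d := by
    intro d hdI i hi1 hi2
    refine ⟨((i * m d : ℕ) : ℤ), ?_, ?_, ?_⟩
    · have : 1 ≤ i * m d := Nat.mul_pos hi1 (hm1 d hdI)
      exact_mod_cast this
    · have hqpos := hpos _ (hq d hdI)
      have : i * m d ≤ n / q d := by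
        rw [Nat.le_div_iff_mul_le hqpos]
        have e1 : i * d ≤ n := (Nat.mul_le_mul_right _ hi2).trans (Nat.div_mul_le_self _ _)
        calc i * m d * q d = i * (m d * q d) := by ring
          _ = i * d := by rw [← hd d hdI]
          _ ≤ n := e1
      exact_mod_cast this
    · have : i * d = i * m d * q d := by
        conv_lhs => rw [hd d hdI]
        ring
      rw [this]; push_cast; ring
  refine ⟨fun d => s (q d) (m d - 1), ?_, ?_⟩
  · intro d hdI x hx
    obtain ⟨i, hi, rfl⟩ := Finset.mem_image.1 hx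
    rw [Finset.mem_Icc] at hi
    obtain ⟨t, ht1, ht2, ht3⟩ := hel d hdI i hi.1 hi.2
    have e1 := h1 (q d) (hq d hdI) (m d - 1) (by have := hm1 d hdI; have := hm2 d hdI; omega)
    have e2 : (0 : ℤ) < q d := by exact_mod_cast hpos _ (hq d hdI)
    show 1 ≤ s (q d) (m d - 1) + ((i * d : ℕ) : ℤ) ∧ s (q d) (m d - 1) + ((i * d : ℕ) : ℤ) ≤ L
    rw [ht3]
    constructor
    · nlinarith [e1.1]
    · have : t * (q d : ℤ) ≤ ((n / q d : ℕ) : ℤ) * q d := mul_le_mul_of_nonneg_right ht2 e2.le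
      have e3 := e1.2
      push_cast at this e3 ⊢
      linarith
  · intro d hdI d' hdI' hdd x hx x' hx'
    obtain ⟨i, hi, rfl⟩ := Finset.mem_image.1 hx
    obtain ⟨i', hi', rfl⟩ := Finset.mem_image.1 hx'
    rw [Finset.mem_Icc] at hi hi'
    obtain ⟨t, ht1, ht2, ht3⟩ := hel d hdI i hi.1 hi.2
    obtain ⟨t', ht1', ht2', ht3'⟩ := hel d' hdI' i' hi'.1 hi'.2
    show s (q d) (m d - 1) + ((i * d : ℕ) : ℤ) ≠ s (q d') (m d' - 1) + ((i' * d' : ℕ) : ℤ)
    rw [ht3, ht3']
    have b1 : m d - 1 < J := by have := hm1 d hdI; have := hm2 d hdI; omega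
    have b2 : m d' - 1 < J := by have := hm1 d' hdI'; have := hm2 d' hdI'; omega
    by_cases hqq : q d = q d'
    · have hmm : m d ≠ m d' := by
        intro hmm; apply hdd
        rw [hd d hdI, hd d' hdI', hmm, hqq]
      intro hcon
      apply h2 (q d) (hq d hdI) (m d - 1) b1 (m d' - 1) b2
        (by have := hm1 d hdI; have := hm1 d' hdI'; omega)
      rw [← hqq] at hcon
      exact ⟨t' - t, by linarith⟩
    · exact h3 (q d) (hq d hdI) (q d') (hq d' hdI') hqq (m d - 1) b1 (m d' - 1) b2 t t' ht1 ht2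
        ht1' ht2'

/-- A homogeneous Bohr set has many elements. -/
lemma bohr {q T J : ℕ} (hq : 0 < q) (hT : 0 < T) {ι : Type*} [Fintype ι] [DecidableEq ι] (b : ι → ℤ)
    (hc : J * T ^ Fintype.card ι ≤ q) :
    ∃ δ : ℕ → ℕ, (∀ m < J, δ m < q) ∧ (∀ m < J, ∀ m' < J, δ m = δ m' → m = m') ∧
      ∀ m < J, ∀ i, ∃ x : ℤ, (q : ℤ) ∣ x - δ m * b i ∧ |x| * T < q := by
  classical
  rcases Nat.eq_zero_or_pos J with hJ | hJ
  · subst hJ
    exact ⟨fun _ => 0, by simp, by simp, by simp⟩
  have hq' : (0 : ℤ) < q := by exact_mod_cast hq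
  have hT' : (0 : ℤ) < T := by exact_mod_cast hT
  obtain ⟨r, hr⟩ : ∃ r : ℕ → ι → ℕ, ∀ y i, (r y i : ℤ) = ((y : ℤ) * b i) % q := by
    refine ⟨fun y i => (((y : ℤ) * b i) % q).toNat, fun y i => ?_⟩
    exact Int.toNat_of_nonneg (Int.emod_nonneg _ hq'.ne')
  have hrq : ∀ y i, r y i < q := by
    intro y i
    have : (r y i : ℤ) < q := by rw [hr]; exact Int.emod_lt_of_pos _ hq'
    exact_mod_cast this
  have hmaps : ∀ y ∈ Finset.range q, (fun i => r y i * T / q) ∈
      Fintype.piFinset (fun _ : ι => Finset.range T) := by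
    intro y _
    rw [Fintype.mem_piFinset]
    intro i
    rw [Finset.mem_range, Nat.div_lt_iff_lt_mul hq, Nat.mul_comm]
    exact Nat.mul_lt_mul_of_pos_left (hrq y i) hT
  have hne : (Fintype.piFinset (fun _ : ι => Finset.range T)).Nonempty := by
    refine ⟨fun _ => 0, ?_⟩
    rw [Fintype.mem_piFinset]
    intro _; exact Finset.mem_range.2 hT
  have hcard : (Fintype.piFinset (fun _ : ι => Finset.range T)).card * J ≤ (Finset.range q).card := by
    rw [Fintype.card_piFinset, Finset.prod_const, Finset.card_range, Finset.card_range,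
      Finset.card_univ, Nat.mul_comm]
    exact hc
  obtain ⟨v, -, hv⟩ := Finset.exists_le_card_fiber_of_mul_le_card_of_maps_to hmaps hne hcard
  obtain ⟨F, hFsub, hFc⟩ := Finset.exists_subset_card_eq hv
  have hFne : F.Nonempty := Finset.card_pos.1 (by omega)
  obtain ⟨y0, hy0, hmin⟩ := Finset.exists_min_image F id hFne
  obtain ⟨e⟩ : Nonempty (Fin J ≃ F) := by
    rw [← hFc]; exact ⟨F.equivFin.symm⟩
  have hF : ∀ y ∈ F, y < q ∧ ∀ i, r y i * T / q = v i := by
    intro y hy
    have := Finset.mem_filter.1 (hFsub hy)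
    exact ⟨Finset.mem_range.1 this.1, fun i => congrFun this.2 i⟩
  refine ⟨fun m => if h : m < J then (e ⟨m, h⟩ : ℕ) - y0 else 0, ?_, ?_, ?_⟩
  · intro m hm
    simp only [hm, dif_pos]
    have := (hF _ (e ⟨m, hm⟩).2).1
    omega
  · intro m hm m' hm' h
    simp only [hm, hm', dif_pos] at h
    have h1 := hmin _ (e ⟨m, hm⟩).2
    have h2 := hmin _ (e ⟨m', hm'⟩).2
    simp only [id] at h1 h2
    have h3 : (e ⟨m, hm⟩ : ℕ) = (e ⟨m', hm'⟩ : ℕ) := by omega
    have h4 := e.injective (Subtype.ext h3)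
    simpa using h4
  · intro m hm i
    simp only [hm, dif_pos]
    obtain ⟨y, hy⟩ : ∃ y, y = (e ⟨m, hm⟩ : ℕ) := ⟨_, rfl⟩
    have hyF : y ∈ F := by rw [hy]; exact (e ⟨m, hm⟩).2
    rw [← hy]
    have h1 := hmin _ hyF
    simp only [id] at h1
    have h2 := (hF y hyF).2 i
    have h3 := (hF y0 hy0).2 i
    refine ⟨(r y i : ℤ) - r y0 i, ?_, ?_⟩
    · rw [hr, hr]
      have e1 := Int.emod_add_mul_ediv ((y : ℤ) * b i) q
      have e2 := Int.emod_add_mul_ediv ((y0 : ℤ) * b i) q
      refine ⟨(y0 : ℤ) * b i / q - (y : ℤ) * b i / q, ?_⟩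
      rw [Nat.cast_sub h1]
      linear_combination e1 - e2
    · have e1 := Nat.div_mul_le_self (r y i * T) q
      have e2 := Nat.lt_div_mul_add (a := r y i * T) hq
      have e3 := Nat.div_mul_le_self (r y0 i * T) q
      have e4 := Nat.lt_div_mul_add (a := r y0 i * T) hq
      rw [h2] at e1 e2
      rw [h3] at e3 e4
      have f1 : r y i * T < r y0 i * T + q := by omega
      have f2 : r y0 i * T < r y i * T + q := by omega
      have f1' : (r y i : ℤ) * T < r y0 i * T + q := by exact_mod_cast f1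
      have f2' : (r y0 i : ℤ) * T < r y i * T + q := by exact_mod_cast f2
      rcases abs_choice ((r y i : ℤ) - r y0 i) with h | h
      · rw [h]; nlinarith
      · rw [h]; nlinarith

end Pool.Agent.Q10.PK
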