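import Pool.Agent.Q10.PK.Cost

/-!
# The cheap classes
-/

set_option autoImplicit false

open Filter Topology Finset

namespace Pool.Agent.Q10.PK

def yy (n : ℕ) : ℕ := Nat.log 2 n ^ 5
def zz (n : ℕ) : ℕ := Nat.sqrt n / Nat.log 2 n ^ 2
def DD (n : ℕ) : ℕ := Nat.sqrt n * Nat.log 2 n ^ 3

lemma A_bd {n d x : ℕ} (hd : 0 < d) (hx : x ∈ prog (n / d) d) : 1 ≤ x ∧ x ≤ n :=
  ⟨(mem_A hx).2.2.2 hd, (mem_A hx).1⟩

lemma card_A {n d : ℕ} (hd : 0 < d) : (prog (n / d) d).card = n / d := by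
  unfold prog
  rw [Finset.card_image_of_injective, Nat.card_Icc, Nat.add_sub_cancel]
  intro a b h
  exact Nat.eq_of_mul_eq_mul_right hd h

/-- Class A. -/
lemma costA {c : ℝ} (hc : 0 < c) : Cost (fun n => Finset.Icc 1 (yy n)) c := by
  apply Cost.of_small 4 _ hc
  filter_upwards [sqrt_facts, poly_log 1 7] with n hn hp
  obtain ⟨X, hX⟩ : ∃ X, X = Nat.sqrt n := ⟨_, rfl⟩
  obtain ⟨l, hl⟩ : ∃ l, l = Nat.log 2 n := ⟨_, rfl⟩
  refine ⟨(Finset.Icc 1 (yy n)).card * n, pack_separate _ (fun d hd x hx => A_bd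
    (Finset.mem_Icc.1 hd).1 hx), ?_⟩
  rw [Nat.card_Icc, Nat.add_sub_cancel, yy]
  rw [← hX] at hn hp ⊢
  rw [← hl] at hp ⊢
  obtain ⟨h1, h2, h3, -⟩ := hn
  have h4 : l ^ 5 * n * l ^ 2 ≤ 4 * X ^ 3 := by
    calc l ^ 5 * n * l ^ 2 = (1 * l ^ 7) * n := by ring
      _ ≤ X * (4 * (X * X)) := Nat.mul_le_mul hp h3
      _ = 4 * X ^ 3 := by ring
  exact_mod_cast h4

/-- Class B. -/
lemma costB {c : ℝ} (hc : 0 < c) : Cost (fun n => (Finset.Icc 1 n).filter
    (fun d => d ≤ DD n ∧ ∃ g ∈ Finset.Ioc (yy n) (zz n), g ∣ d)) c := by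
  classical
  apply Cost.of_small 16 _ hc
  filter_upwards [sqrt_facts, log_large 1] with n hn hl1
  obtain ⟨X, hX⟩ : ∃ X, X = Nat.sqrt n := ⟨_, rfl⟩
  obtain ⟨l, hl⟩ : ∃ l, l = Nat.log 2 n := ⟨_, rfl⟩
  obtain ⟨h1, h2, h3, -⟩ := hn
  refine ⟨∑ g ∈ Finset.Ioc (yy n) (zz n), (DD n / g / g + 1) * (n + g), ?_, ?_⟩
  · apply pack_cover _ (fun g => (Finset.Icc 1 (DD n / g)).image (fun m => m * g))
    · intro g hg
      rw [Finset.mem_Ioc] at hg
      exact group n g _ (by omega)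
    · intro d hd
      obtain ⟨hd1, hd2, g, hg, hgd⟩ := Finset.mem_filter.1 hd
      rw [Finset.mem_Icc] at hd1
      refine ⟨g, hg, ?_⟩
      rw [Finset.mem_Ioc] at hg
      rw [Finset.mem_image]
      refine ⟨d / g, ?_, Nat.div_mul_cancel hgd⟩
      rw [Finset.mem_Icc]
      exact ⟨Nat.div_pos (Nat.le_of_dvd (by omega) hgd) (by omega), Nat.div_le_div_right hd2⟩
  · rw [← hX] at h1 h2 h3 ⊢
    rw [← hl] at hl1 ⊢
    have hy : yy n = l ^ 5 := by rw [yy, ← hl]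
    have hz : zz n = X / l ^ 2 := by rw [zz, ← hl, ← hX]
    have hD : DD n = X * l ^ 3 := by rw [DD, ← hl, ← hX]
    have hl0 : (0 : ℝ) < l := by exact_mod_cast hl1
    have hn0 : (0 : ℝ) < n := by
      have : 0 < n := by nlinarith
      exact_mod_cast this
    have hX0 : (0 : ℝ) < X := by exact_mod_cast (by omega : 0 < X)
    have hn4 : (n : ℝ) ≤ 4 * (X * X) := by exact_mod_cast h3
    have hzX : (zz n : ℝ) * l ^ 2 ≤ X := by
      rw [hz]; exact_mod_cast Nat.div_mul_le_self _ _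
    have hzn : zz n ≤ n := by
      rw [hz]
      calc X / l ^ 2 ≤ X := Nat.div_le_self _ _
        _ ≤ X * X := Nat.le_mul_of_pos_left _ (by omega)
        _ ≤ n := h2
    have hterm : ∀ g ∈ Finset.Ioc (yy n) (zz n), (((DD n / g / g + 1) * (n + g) : ℕ) : ℝ)
        ≤ 2 * n * (DD n * ((g : ℝ) ^ 2)⁻¹ + 1) := by
      intro g hg
      rw [Finset.mem_Ioc] at hg
      have hg0 : (0 : ℝ) < g := by exact_mod_cast (by omega : 0 < g)
      have e1 : ((DD n / g / g : ℕ) : ℝ) ≤ DD n * ((g : ℝ) ^ 2)⁻¹ := by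
        rw [Nat.div_div_eq_div_mul]
        have : ((DD n / (g * g) : ℕ) : ℝ) ≤ ((DD n : ℕ) : ℝ) / ((g * g : ℕ) : ℝ) := Nat.cast_div_le
        refine this.trans (le_of_eq ?_)
        push_cast; rw [div_eq_mul_inv, sq]
      have e2 : (g : ℝ) ≤ n := by exact_mod_cast hg.2.trans hzn
      push_cast
      calc ((DD n / g / g : ℕ) + 1 : ℝ) * (n + g) ≤ (DD n * ((g : ℝ) ^ 2)⁻¹ + 1) * (n + n) := by
            gcongr
        _ = _ := by ring
    have hsum : (((∑ g ∈ Finset.Ioc (yy n) (zz n), (DD n / g / g + 1) * (n + g) : ℕ)) : ℝ)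
        ≤ 2 * n * (DD n * ((yy n : ℕ) : ℝ)⁻¹ + zz n) := by
      rw [Nat.cast_sum]
      refine (Finset.sum_le_sum hterm).trans ?_
      rw [← Finset.mul_sum]
      apply mul_le_mul_of_nonneg_left _ (by positivity)
      rw [Finset.sum_add_distrib, ← Finset.mul_sum, Finset.sum_const, nsmul_eq_mul, mul_one]
      apply add_le_add
      · apply mul_le_mul_of_nonneg_left _ (by positivity)
        rcases le_or_gt (yy n) (zz n) with hle | hlt
        · have := sum_Ioc_inv_sq_le_sub (α := ℝ) (k := yy n) (n := zz n) (by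
            rw [hy]; positivity) hle
          have h0 : (0 : ℝ) ≤ ((zz n : ℕ) : ℝ)⁻¹ := by positivity
          linarith
        · rw [Finset.Ioc_eq_empty (by omega)]
          simp
      · rw [Nat.card_Ioc]
        exact_mod_cast Nat.sub_le _ _
    have h5 : (DD n : ℝ) * ((yy n : ℕ) : ℝ)⁻¹ * l ^ 2 = X := by
      rw [hD, hy]; push_cast; field_simp
    calc (((∑ g ∈ Finset.Ioc (yy n) (zz n), (DD n / g / g + 1) * (n + g) : ℕ)) : ℝ) * (l : ℝ) ^ 2
        ≤ (2 * n * (DD n * ((yy n : ℕ) : ℝ)⁻¹ + zz n)) * (l : ℝ) ^ 2 := by gcongr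
      _ = 2 * n * (DD n * ((yy n : ℕ) : ℝ)⁻¹ * l ^ 2 + zz n * l ^ 2) := by ring
      _ ≤ 2 * (4 * (X * X)) * (X + X) := by
          rw [h5]; gcongr
      _ = ((16 : ℕ) : ℝ) * (X : ℝ) ^ 3 := by push_cast; ring

open scoped Classical in
/-- Class C. -/
noncomputable def setC (K n : ℕ) : Finset ℕ := (Finset.Icc 1 n).filter
    (fun d => d ≤ DD n ∧ ∃ q : ℕ, q.Prime ∧ zz n < q ∧ q * K ≤ Nat.sqrt n ∧ q ∣ d)

lemma costC {K : ℕ} (hK : 0 < K) : Cost (setC K) (6 / K) := by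
  classical
  have hK' : (0 : ℝ) < K := by exact_mod_cast hK
  apply Cost.of_tendsto (F := fun n => ((Pnt.P (1 * Nat.sqrt n / K)).card : ℝ) *
    (5 * ((Nat.sqrt n : ℕ) : ℝ) ^ 2)) (c0 := 5 * (((1 : ℕ) : ℝ) / K))
  · filter_upwards [sqrt_facts, poly_log 1 7, log_large 1] with n hn hp hl1
    obtain ⟨X, hX⟩ : ∃ X, X = Nat.sqrt n := ⟨_, rfl⟩
    obtain ⟨l, hl⟩ : ∃ l, l = Nat.log 2 n := ⟨_, rfl⟩
    obtain ⟨h1, h2, h3, -⟩ := hn
    have hz : zz n = X / l ^ 2 := by rw [zz, ← hl, ← hX]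
    have hD : DD n = X * l ^ 3 := by rw [DD, ← hl, ← hX]
    rw [← hX] at h1 h2 h3 hp ⊢
    rw [← hl] at hp hl1
    obtain ⟨G, hG⟩ : ∃ G, G = (Pnt.P (1 * X / K)).filter (fun q => zz n < q) := ⟨_, rfl⟩
    have hT : ∀ q ∈ G, DD n / q / q = 0 := by
      intro q hq
      rw [hG, Finset.mem_filter] at hq
      rw [Nat.div_div_eq_div_mul]
      apply Nat.div_eq_of_lt
      have e1 : X < q * l ^ 2 := by
        have := hq.2
        rw [hz] at this
        exact (Nat.div_lt_iff_lt_mul (by positivity)).1 this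
      rw [hD]
      have e2 : l ^ 7 ≤ X := by omega
      have e4 : X * X < (q * l ^ 2) * (q * l ^ 2) := Nat.mul_lt_mul'' e1 e1
      have e5 : X * l ^ 3 * l ^ 4 < q * q * l ^ 4 := by
        calc X * l ^ 3 * l ^ 4 = X * l ^ 7 := by ring
          _ ≤ X * X := Nat.mul_le_mul_left _ e2
          _ < (q * l ^ 2) * (q * l ^ 2) := e4
          _ = q * q * l ^ 4 := by ring
      exact Nat.lt_of_mul_lt_mul_right e5
    refine ⟨∑ q ∈ G, (DD n / q / q + 1) * (n + q), ?_, ?_⟩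
    · apply pack_cover _ (fun g => (Finset.Icc 1 (DD n / g)).image (fun m => m * g))
      · intro g hg
        rw [hG, Finset.mem_filter] at hg
        exact group n g _ (by omega)
      · intro d hd
        obtain ⟨hd1, hd2, q, hq, hzq, hqK, hqd⟩ := Finset.mem_filter.1 hd
        rw [Finset.mem_Icc] at hd1
        refine ⟨q, ?_, ?_⟩
        · rw [hG, Finset.mem_filter, Pnt.mem_P]
          refine ⟨⟨?_, hq⟩, hzq⟩
          rw [Nat.le_div_iff_mul_le hK]; omega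
        · rw [Finset.mem_image]
          refine ⟨d / q, ?_, Nat.div_mul_cancel hqd⟩
          rw [Finset.mem_Icc]
          exact ⟨Nat.div_pos (Nat.le_of_dvd (by omega) hqd) hq.pos, Nat.div_le_div_right hd2⟩
    · have hterm : ∀ q ∈ G, (DD n / q / q + 1) * (n + q) ≤ 5 * X ^ 2 := by
        intro q hq
        rw [hT q hq]
        rw [hG, Finset.mem_filter, Pnt.mem_P] at hq
        have : q ≤ X := by
          calc q ≤ 1 * X / K := hq.1.1
            _ ≤ 1 * X := Nat.div_le_self _ _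
            _ = X := Nat.one_mul _
        nlinarith
      have h5 : ∑ q ∈ G, (DD n / q / q + 1) * (n + q) ≤ (Pnt.P (1 * X / K)).card * (5 * X ^ 2) := by
        refine (Finset.sum_le_sum hterm).trans ?_
        rw [Finset.sum_const, smul_eq_mul]
        apply Nat.mul_le_mul_right
        rw [hG]; exact Finset.card_filter_le _ _
      exact_mod_cast h5
  · have h := (Pnt.pi_frac K 1 hK).comp sqrt_tendsto
    refine (h.const_mul 5).congr' ?_
    filter_upwards [sqrt_facts] with n hn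
    have hX0 : (0 : ℝ) < (Nat.sqrt n : ℕ) := by exact_mod_cast (by omega : 0 < Nat.sqrt n)
    simp only [Function.comp]
    field_simp
  · push_cast
    rw [mul_one_div]
    gcongr
    norm_num

/-- Class E2. -/
lemma costE2 {c : ℝ} (hc : 0 < c) : Cost (fun n => (Finset.Icc 1 n).filter
    (fun d => DD n < d)) c := by
  classical
  apply Cost.of_small 52 _ hc
  filter_upwards [sqrt_facts, poly_log 1 2, log_large 1, log_facts] with n hn hp hl1 hlog
  obtain ⟨X, hX⟩ : ∃ X, X = Nat.sqrt n := ⟨_, rfl⟩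
  obtain ⟨l, hl⟩ : ∃ l, l = Nat.log 2 n := ⟨_, rfl⟩
  obtain ⟨h1, h2, h3, -⟩ := hn
  have hD : DD n = X * l ^ 3 := by rw [DD, ← hl, ← hX]
  rw [← hX] at h1 h2 h3 hp hlog ⊢
  rw [← hl] at hp hl1 hlog ⊢
  have hpos : ∀ d ∈ (Finset.Icc 1 n).filter (fun d => DD n < d), 0 < d := fun d hd =>
    (Finset.mem_Icc.1 (Finset.mem_filter.1 hd).1).1
  refine ⟨(∑ d ∈ (Finset.Icc 1 n).filter (fun d => DD n < d), (prog (n / d) d).card) * (n / DD n) + n,
    greedy2 _ (fun d hd x hx => A_bd (hpos d hd) hx) ?_, ?_⟩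
  · intro d hd
    rw [card_A (hpos d hd)]
    exact Nat.div_le_div_left (Finset.mem_filter.1 hd).2.le (by rw [hD]; positivity)
  · have hl0 : (1 : ℝ) ≤ l := by exact_mod_cast hl1
    have hX0 : (0 : ℝ) < X := by exact_mod_cast (by omega : 0 < X)
    have hn4 : (n : ℝ) ≤ 4 * (X * X) := by exact_mod_cast h3
    have hn0 : (0 : ℝ) < n := by
      have : 0 < n := by nlinarith
      exact_mod_cast this
    have hU : (((∑ d ∈ (Finset.Icc 1 n).filter (fun d => DD n < d), (prog (n / d) d).card) : ℕ) : ℝ)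
        ≤ 3 * n * l := by
      have e1 : (∑ d ∈ (Finset.Icc 1 n).filter (fun d => DD n < d), (prog (n / d) d).card)
          ≤ ∑ d ∈ Finset.Icc 1 n, n / d := by
        calc _ = ∑ d ∈ (Finset.Icc 1 n).filter (fun d => DD n < d), n / d :=
              Finset.sum_congr rfl fun d hd => card_A (hpos d hd)
          _ ≤ _ := Finset.sum_le_sum_of_subset (Finset.filter_subset _ _)
      have e2 : ((∑ d ∈ Finset.Icc 1 n, n / d : ℕ) : ℝ) ≤ n * (1 + Real.log n) := by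
        have e3 := harmonic_le_one_add_log n
        rw [harmonic_eq_sum_Icc] at e3
        push_cast at e3 ⊢
        calc ∑ d ∈ Finset.Icc 1 n, ((n / d : ℕ) : ℝ) ≤ ∑ d ∈ Finset.Icc 1 n, (n : ℝ) * ((d : ℝ))⁻¹ := by
              apply Finset.sum_le_sum
              intro d _
              rw [← div_eq_mul_inv]
              exact Nat.cast_div_le
          _ = n * ∑ d ∈ Finset.Icc 1 n, ((d : ℝ))⁻¹ := by rw [Finset.mul_sum]
          _ ≤ n * (1 + Real.log n) := by gcongr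
      have e4 : (((∑ d ∈ (Finset.Icc 1 n).filter (fun d => DD n < d), (prog (n / d) d).card) : ℕ) : ℝ)
          ≤ ((∑ d ∈ Finset.Icc 1 n, n / d : ℕ) : ℝ) := by exact_mod_cast e1
      refine e4.trans (e2.trans ?_)
      have e5 := hlog.2.2.1
      nlinarith
    have hN : ((n / DD n : ℕ) : ℝ) * (l : ℝ) ^ 3 ≤ 4 * X := by
      have e1 : n / DD n * DD n ≤ n := Nat.div_mul_le_self _ _
      have e2 : ((n / DD n : ℕ) : ℝ) * (X * (l : ℝ) ^ 3) ≤ 4 * (X * X) := by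
        have : ((n / DD n : ℕ) : ℝ) * ((DD n : ℕ) : ℝ) ≤ n := by exact_mod_cast e1
        rw [hD] at this
        push_cast at this ⊢
        rw [hD]
        linarith
      have e3 : (((n / DD n : ℕ) : ℝ) * (l : ℝ) ^ 3) * X ≤ 4 * (X : ℝ) * X := by
        calc (((n / DD n : ℕ) : ℝ) * (l : ℝ) ^ 3) * (X : ℝ)
            = ((n / DD n : ℕ) : ℝ) * (X * (l : ℝ) ^ 3) := by ring
          _ ≤ 4 * ((X : ℝ) * X) := e2
          _ = 4 * (X : ℝ) * X := by ring
      exact le_of_mul_le_mul_right e3 hX0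
    have hp' : (l : ℝ) ^ 2 ≤ X := by
      have : 1 * l ^ 2 ≤ X := hp
      rw [one_mul] at this
      exact_mod_cast this
    push_cast
    rw [add_mul]
    obtain ⟨U, hU0⟩ : ∃ U : ℝ, U = (((∑ d ∈ (Finset.Icc 1 n).filter (fun d => DD n < d),
      (prog (n / d) d).card) : ℕ) : ℝ) := ⟨_, rfl⟩
    obtain ⟨N, hN0⟩ : ∃ N : ℝ, N = ((n / DD n : ℕ) : ℝ) := ⟨_, rfl⟩
    have hNnn : 0 ≤ N := by rw [hN0]; positivity
    rw [← hU0] at hU
    rw [← hN0] at hN
    have hgoal : U * N * (l : ℝ) ^ 2 + n * (l : ℝ) ^ 2 ≤ 52 * (X : ℝ) ^ 3 := by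
      have e1 : U * N * (l : ℝ) ^ 2 ≤ 48 * (X : ℝ) ^ 3 := by
        calc U * N * (l : ℝ) ^ 2 ≤ (3 * n * l) * N * (l : ℝ) ^ 2 := by gcongr
          _ = 3 * n * (N * (l : ℝ) ^ 3) := by ring
          _ ≤ 3 * (4 * (X * X)) * (4 * X) := by gcongr
          _ = 48 * (X : ℝ) ^ 3 := by ring
      have e2 : (n : ℝ) * (l : ℝ) ^ 2 ≤ 4 * (X : ℝ) ^ 3 := by
        calc (n : ℝ) * (l : ℝ) ^ 2 ≤ (4 * (X * X)) * X := by gcongr
          _ = _ := by ring
      linarith
    rw [hU0, hN0] at hgoal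
    push_cast at hgoal
    exact hgoal

end Pool.Agent.Q10.PK
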