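import Pool.Agent.Q10.PK.ClassE

/-!
# The main class
-/

set_option autoImplicit false

open Filter Topology Finset

namespace Pool.Agent.Q10.PK

open scoped Classical in
/-- The numbers `m q`, `q ∈ Q`, `1 ≤ m ≤ J`. -/
noncomputable def setD (J : ℕ) (Q : Finset ℕ) (n : ℕ) : Finset ℕ := (Finset.Icc 1 n).filter
    (fun d => ∃ q ∈ Q, ∃ m, 1 ≤ m ∧ m ≤ J ∧ d = m * q)

lemma setD_pack {J n L : ℕ} {Q : Finset ℕ} (h : BPack Q (fun q => n / q) J L)
    (hpos : ∀ q ∈ Q, 0 < q) : PackInto (setD J Q n) (fun d => prog (n / d) d) L := by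
  classical
  refine h.toPack hpos (fun d hd => ?_)
  unfold setD at hd
  exact (Finset.mem_filter.1 hd).2

lemma mkBlkJ {K V R H T J : ℕ} {ε : ℝ} (hK : 0 < K) (he0 : 0 < ε) (he1 : 7 * ε < 1)
    (hH : (R : ℝ) < H * (2 * ε ^ 2)) (hT : 1 ≤ ε * T) :
    ∀ᶠ X : ℕ in atTop, ∀ (Q : Finset ℕ) (N : ℕ → ℕ) (a : ℝ) (S σ : ℕ),
      (∀ q ∈ Q, q.Prime) → (∀ q ∈ Q, a ≤ q) → (∀ q ∈ Q, q ≤ V * X) → (∀ q ∈ Q, N q * q ≤ S) →
      (X : ℝ) / K ≤ a → S + 2 * (V * X) ≤ R * σ →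
      (S : ℝ) + 2 * (V * X : ℕ) ≤ σ + (1 - 7 * ε) * a ^ 2 → BlkJ Q N a ε (V * X) S σ R H T J := by
  have hK0 : (0 : ℝ) < K := by exact_mod_cast hK
  obtain ⟨D, hD⟩ := exists_nat_gt (1 / ε)
  rw [div_lt_iff₀ he0] at hD
  filter_upwards [eventually_gt_atTop (K * H + K * D + K * (J * T ^ (2 * R))
    + R * H * V ^ R * K ^ (R + 1))] with X hX Q N a S σ h1 h2 h3 h4 h5 h6 h7
  have hX0 : 0 < X := by omega
  have hX0' : (0 : ℝ) < X := by exact_mod_cast hX0
  have hq : ∀ q ∈ Q, X ≤ q * K := by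
    intro q hq
    have e1 : (X : ℝ) / K ≤ q := h5.trans (h2 q hq)
    rw [div_le_iff₀ hK0] at e1
    exact_mod_cast e1
  have hlt : ∀ c, K * c < X → ∀ q ∈ Q, c < q := by
    intro c hc q hqQ
    have := hq q hqQ
    have h8 : c * K < q * K := by
      calc c * K = K * c := Nat.mul_comm _ _
        _ < X := hc
        _ ≤ q * K := this
    exact Nat.lt_of_mul_lt_mul_right h8
  refine ⟨h1, h2, h3, h4, (by positivity : (0 : ℝ) ≤ (X : ℝ) / K).trans h5, he0, he1, h6, ?_, hH, ?_,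
    ?_, hT, ?_, ?_⟩
  · exact_mod_cast h7
  · exact hlt H (by omega)
  · have e1 : ((X : ℝ) / K) ^ (R + 1) ≤ a ^ (R + 1) := by gcongr
    refine lt_of_lt_of_le ?_ e1
    rw [div_pow, lt_div_iff₀ (by positivity)]
    have e2 : R * H * (V * X) ^ R * K ^ (R + 1) < X ^ (R + 1) := by
      calc R * H * (V * X) ^ R * K ^ (R + 1) = (R * H * V ^ R * K ^ (R + 1)) * X ^ R := by
            rw [mul_pow]; ring
        _ < X * X ^ R := by
            apply Nat.mul_lt_mul_of_pos_right _ (by positivity)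
            omega
        _ = X ^ (R + 1) := by ring
    exact_mod_cast e2
  · intro q hqQ
    exact (hlt (J * T ^ (2 * R)) (by omega) q hqQ).le
  · intro q hqQ
    have e1 := hlt D (by omega) q hqQ
    have e2 : (D : ℝ) < q := by exact_mod_cast e1
    nlinarith

/-- Limits of the elementary expressions. -/
lemma lim_lx : Tendsto (fun n : ℕ => Real.log (Nat.sqrt n : ℕ) / ((Nat.sqrt n : ℕ) : ℝ)) atTop (𝓝 0) :=
  log_div.comp sqrt_tendsto

lemma lim_ix : Tendsto (fun n : ℕ => 1 / ((Nat.sqrt n : ℕ) : ℝ)) atTop (𝓝 0) :=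
  tendsto_one_div_atTop_nhds_zero_nat.comp sqrt_tendsto

/-- The block `k`. -/
lemma costDk {K k J : ℕ} (hk1 : 1 ≤ k) (hkK : k < K) {ε : ℝ} (he0 : 0 < ε) (he1 : 7 * ε < 1)
    {c : ℝ} (hc : 1 / K * (1 - (1 - 7 * ε) * ((k : ℝ) / K) ^ 2) < c) :
    Cost (fun n => setD J (Qk K (Nat.sqrt n) k) n) c := by
  have hK : 0 < K := by omega
  have hK' : (0 : ℝ) < K := by exact_mod_cast hK
  have hk1' : (1 : ℝ) ≤ k := by exact_mod_cast hk1
  have hkK' : (k : ℝ) + 1 ≤ K := by exact_mod_cast hkK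
  obtain ⟨H, hH⟩ := exists_nat_gt ((K : ℝ) / (2 * ε ^ 2))
  rw [div_lt_iff₀ (by positivity)] at hH
  obtain ⟨T, hT⟩ := exists_nat_gt (1 / ε)
  rw [div_lt_iff₀ he0] at hT
  apply Cost.of_tendsto (F := fun n => ((Qk K (Nat.sqrt n) k).card : ℝ) *
    ((n : ℝ) + 2 * (Nat.sqrt n : ℕ) - (1 - 7 * ε) * ((k : ℝ) * (Nat.sqrt n : ℕ) / K) ^ 2 + 1)
      + (2 * (Nat.sqrt n : ℕ) + n + leftC K H * (n + J)))
    (c0 := (((k + 1 : ℕ) : ℝ) / K - (k : ℝ) / K) * (1 + 2 * 0 - (1 - 7 * ε) * ((k : ℝ) / K) ^ 2 + 0 * 0)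
      + (2 * (0 * 0) + 1 * 0 + leftC K H * (1 * 0 + J * (0 * 0 * 0))))
  · filter_upwards [sqrt_facts, sqrt_tendsto.eventually (mkBlkJ (K := K) (V := 1) (R := K) (H := H)
      (T := T) (J := J) hK he0 he1 hH (by linarith))] with n hn hB
    obtain ⟨X, hX⟩ : ∃ X, X = Nat.sqrt n := ⟨_, rfl⟩
    rw [← hX] at hn hB ⊢
    obtain ⟨h1, h2, h3, -⟩ := hn
    have hX0 : 0 < X := by omega
    have hX0' : (0 : ℝ) < X := by exact_mod_cast hX0
    have hXn' : (X : ℝ) * X ≤ n := by exact_mod_cast h2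
    obtain ⟨σ, hσ⟩ : ∃ σ : ℕ, σ = ⌈(n : ℝ) + 2 * X - (1 - 7 * ε) * ((k : ℝ) * X / K) ^ 2⌉₊ := ⟨_, rfl⟩
    have hσ1 : (n : ℝ) + 2 * X - (1 - 7 * ε) * ((k : ℝ) * X / K) ^ 2 ≤ σ := by
      rw [hσ]; exact Nat.le_ceil _
    have hsq0 : (0 : ℝ) ≤ ((k : ℝ) * X / K) ^ 2 := sq_nonneg _
    have hsq : ((k : ℝ) * X / K) ^ 2 * K ≤ (K - 1) * ((n : ℝ) + 2 * X) := by
      have e3 : ((k : ℝ) * X / K) ^ 2 * K = (k : ℝ) ^ 2 / K * ((X : ℝ) * X) := by field_simp
      have e4 : (k : ℝ) ^ 2 / K ≤ K - 1 := by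
        rw [div_le_iff₀ hK']; nlinarith
      have e5 : (0 : ℝ) ≤ (K : ℝ) - 1 := by linarith
      rw [e3]
      calc (k : ℝ) ^ 2 / K * ((X : ℝ) * X) ≤ (K - 1) * ((X : ℝ) * X) := by gcongr
        _ ≤ (K - 1) * ((n : ℝ) + 2 * X) := by
          apply mul_le_mul_of_nonneg_left _ e5
          linarith
    have hle : ((k : ℝ) * X / K) ^ 2 ≤ (n : ℝ) + 2 * X := by
      have : ((k : ℝ) * X / K) ^ 2 * K ≤ ((n : ℝ) + 2 * X) * K := by nlinarith
      exact le_of_mul_le_mul_right this hK'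
    have hσ2 : (σ : ℝ) ≤ (n : ℝ) + 2 * X - (1 - 7 * ε) * ((k : ℝ) * X / K) ^ 2 + 1 := by
      rw [hσ]
      apply (Nat.ceil_lt_add_one _).le
      nlinarith
    have hBk := hB (Qk K X k) (fun q => n / q) ((k : ℝ) * X / K) n σ
      (fun q hq => ((mem_Qk hK hX0).1 hq).2.1)
      (fun q hq => by
        rw [div_le_iff₀ hK']
        exact_mod_cast ((mem_Qk hK hX0).1 hq).2.2.1.le)
      (fun q hq => by rw [one_mul]; exact ((mem_Qk hK hX0).1 hq).1)
      (fun q hq => Nat.div_mul_le_self _ _)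
      (by
        apply div_le_div_of_nonneg_right _ hK'.le
        nlinarith)
      (by
        rw [one_mul]
        have h2 : ((n + 2 * X : ℕ) : ℝ) ≤ ((K * σ : ℕ) : ℝ) := by
          push_cast
          have e1 : (K : ℝ) * ((n : ℝ) + 2 * X - (1 - 7 * ε) * ((k : ℝ) * X / K) ^ 2) ≤ K * σ := by
            gcongr
          have e2 : (0 : ℝ) ≤ 7 * ε * (((k : ℝ) * X / K) ^ 2 * K) := by positivity
          nlinarith
        exact_mod_cast h2)
      (by rw [one_mul]; linarith)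
    refine ⟨_, setD_pack hBk.pack (fun q hq => (((mem_Qk hK hX0).1 hq).2.1).pos), ?_⟩
    push_cast
    have hc0 : (0 : ℝ) ≤ ((Qk K X k).card : ℝ) := by positivity
    have := mul_le_mul_of_nonneg_left hσ2 hc0
    linarith
  · have t1 := ((Pnt.pi_frac K (k + 1) hK).sub (Pnt.pi_frac K k hK)).comp sqrt_tendsto
    have t2 := ((ratio_tendsto.add (lim_ix.const_mul 2)).sub_const
      ((1 - 7 * ε) * ((k : ℝ) / K) ^ 2)).add (lim_ix.mul lim_ix)
    have t3 := ((lim_ix.mul lim_lx).const_mul 2).add (ratio_tendsto.mul lim_lx)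
    have t4 := ((ratio_tendsto.mul lim_lx).add (((lim_ix.mul lim_ix).mul lim_lx).const_mul
      (J : ℝ))).const_mul (leftC K H : ℝ)
    have t5 := (t1.mul t2).add (t3.add t4)
    refine t5.congr' ?_
    filter_upwards [sqrt_facts] with n hn
    obtain ⟨X, hX⟩ : ∃ X, X = Nat.sqrt n := ⟨_, rfl⟩
    simp only [Function.comp]
    rw [← hX] at hn ⊢
    have hX0 : 0 < X := by omega
    have hX0' : (0 : ℝ) < X := by exact_mod_cast hX0
    have hcard : ((Qk K X k).card : ℝ) = ((Pnt.P ((k + 1) * X / K)).card : ℝ)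
        - (Pnt.P (k * X / K)).card := by
      unfold Qk
      rw [Pnt.blk_card hK hX0 (by omega) (by omega), Nat.add_sub_cancel]
    rw [hcard]
    field_simp
  · refine lt_of_eq_of_lt ?_ hc
    push_cast
    field_simp
    ring

/-- The primes slightly larger than `√ n`. -/
lemma costD' {K J : ℕ} (hK : 0 < K) {c : ℝ} (hc : 1 / (K : ℝ) < c) :
    Cost (fun n => setD J (Pnt.P ((K + 1) * Nat.sqrt n / K) \ Pnt.P (Nat.sqrt n)) n) c := by
  have hK' : (0 : ℝ) < K := by exact_mod_cast hK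
  apply Cost.of_tendsto (F := fun n => (((Pnt.P ((K + 1) * Nat.sqrt n / K)).card : ℝ)
    - (Pnt.P (Nat.sqrt n)).card) * (n + J))
    (c0 := (((K + 1 : ℕ) : ℝ) / K - 1) * (1 + J * (0 * 0)))
  · filter_upwards [sqrt_facts, sqrt_tendsto.eventually (eventually_ge_atTop J)] with n hn hJ
    obtain ⟨X, hX⟩ : ∃ X, X = Nat.sqrt n := ⟨_, rfl⟩
    rw [← hX] at hn hJ ⊢
    obtain ⟨h1, h2, h3, -⟩ := hn
    have hsub : Pnt.P X ⊆ Pnt.P ((K + 1) * X / K) := by
      intro p hp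
      rw [Pnt.mem_P] at hp ⊢
      refine ⟨hp.1.trans ?_, hp.2⟩
      rw [Nat.le_div_iff_mul_le hK]; nlinarith
    have hbig : ∀ q ∈ Pnt.P ((K + 1) * X / K) \ Pnt.P X, X < q := by
      intro q hq
      rw [Finset.mem_sdiff, Pnt.mem_P, Pnt.mem_P] at hq
      by_contra hcon
      exact hq.2 ⟨not_lt.1 hcon, hq.1.2⟩
    have hsep := BPack.separate (N := fun q => n / q) (S := n) (J := J)
      (Pnt.P ((K + 1) * X / K) \ Pnt.P X) (fun q hq => by have := hbig q hq; omega)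
      (fun q _ => Nat.div_mul_le_self _ _) (fun q hq => by have := hbig q hq; omega)
    refine ⟨_, setD_pack hsep (fun q hq => by have := hbig q hq; omega), ?_⟩
    rw [Finset.card_sdiff_of_subset hsub]
    push_cast
    rw [Nat.cast_sub (Finset.card_le_card hsub)]
  · have t1 := ((Pnt.pi_frac K (K + 1) hK).sub Pnt.pi_nat).comp sqrt_tendsto
    have t2 := ratio_tendsto.add ((lim_ix.mul lim_ix).const_mul (J : ℝ))
    refine (t1.mul t2).congr' ?_
    filter_upwards [sqrt_facts] with n hn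
    obtain ⟨X, hX⟩ : ∃ X, X = Nat.sqrt n := ⟨_, rfl⟩
    simp only [Function.comp]
    rw [← hX] at hn ⊢
    have hX0' : (0 : ℝ) < X := by exact_mod_cast (by omega : 0 < X)
    field_simp
  · refine lt_of_eq_of_lt ?_ hc
    push_cast
    field_simp
    ring

/-- The larger primes. -/
lemma costD2 {K w J : ℕ} (hK : 2 ≤ K) (hw : 0 < w) {c : ℝ} (hc : 1 / (K : ℝ) < c) :
    Cost (fun n => setD J (Pnt.P (w ^ 2 * Nat.sqrt n) \ Pnt.P ((K + 1) * Nat.sqrt n / K)) n) c := by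
  have hK0 : 0 < K := by omega
  have hK' : (2 : ℝ) ≤ K := by exact_mod_cast hK
  have hK'' : (0 : ℝ) < K := by linarith
  have hw' : (0 : ℝ) < w := by exact_mod_cast hw
  obtain ⟨ε, hε⟩ : ∃ ε : ℝ, ε = 1 / (14 * K) := ⟨_, rfl⟩
  have he0 : 0 < ε := by rw [hε]; positivity
  have he7 : 7 * ε = 1 / (2 * K) := by rw [hε]; field_simp; norm_num
  have he1 : 7 * ε < 1 := by
    rw [he7, div_lt_one (by positivity)]; linarith
  obtain ⟨B, hB⟩ : ∃ B, B = w ^ 2 * K := ⟨_, rfl⟩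
  have hB0 : 0 < B := by rw [hB]; positivity
  have hB0' : (0 : ℝ) < B := by exact_mod_cast hB0
  obtain ⟨H, hH⟩ := exists_nat_gt (((4 * B : ℕ) : ℝ) / (2 * ε ^ 2))
  rw [div_lt_iff₀ (by positivity)] at hH
  obtain ⟨T, hT⟩ := exists_nat_gt (1 / ε)
  rw [div_lt_iff₀ he0] at hT
  apply Cost.of_tendsto (F := fun n => ((Pnt.P (w ^ 2 * Nat.sqrt n / 1)).card : ℝ) *
    (((Nat.sqrt n : ℕ) : ℝ) ^ 2 / B + 1)
      + (2 * (w ^ 2 * (Nat.sqrt n : ℕ)) + n + leftC (4 * B) H * (n + J)))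
    (c0 := ((w ^ 2 : ℕ) : ℝ) / (1 : ℕ) * (1 / B + 0 * 0)
      + (2 * w ^ 2 * (0 * 0) + 1 * 0 + leftC (4 * B) H * (1 * 0 + J * (0 * 0 * 0))))
  · filter_upwards [sqrt_facts, sqrt_tendsto.eventually (mkBlkJ (K := K) (V := w ^ 2) (R := 4 * B)
      (H := H) (T := T) (J := J) hK0 he0 he1 hH (by linarith)),
      sqrt_tendsto.eventually (eventually_ge_atTop (K * (2 + 2 * w ^ 2)))] with n hn hBl hbig
    obtain ⟨X, hX⟩ : ∃ X, X = Nat.sqrt n := ⟨_, rfl⟩
    rw [← hX] at hn hBl hbig ⊢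
    obtain ⟨h1, h2, h3, h4⟩ := hn
    have hX0 : 0 < X := by omega
    have hX0' : (0 : ℝ) < X := by exact_mod_cast hX0
    have hmem : ∀ q ∈ Pnt.P (w ^ 2 * X) \ Pnt.P ((K + 1) * X / K), q.Prime ∧ q ≤ w ^ 2 * X ∧
        (K + 1) * X < q * K := by
      intro q hq
      rw [Finset.mem_sdiff, Pnt.mem_P, Pnt.mem_P] at hq
      refine ⟨hq.1.2, hq.1.1, ?_⟩
      by_contra hcon
      exact hq.2 ⟨(Nat.le_div_iff_mul_le hK0).2 (not_lt.1 hcon), hq.1.2⟩
    obtain ⟨σ, hσ⟩ : ∃ σ : ℕ, σ = X ^ 2 / B + 1 := ⟨_, rfl⟩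
    have hBk := hBl (Pnt.P (w ^ 2 * X) \ Pnt.P ((K + 1) * X / K)) (fun q => n / q)
      (((K : ℝ) + 1) * X / K) n σ
      (fun q hq => (hmem q hq).1)
      (fun q hq => by
        rw [div_le_iff₀ hK'']
        exact_mod_cast (hmem q hq).2.2.le)
      (fun q hq => (hmem q hq).2.1)
      (fun q hq => Nat.div_mul_le_self _ _)
      (by
        apply div_le_div_of_nonneg_right _ hK''.le
        nlinarith)
      (by
        have e1 : X ^ 2 < (X ^ 2 / B + 1) * B := by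
          have := Nat.lt_div_mul_add (a := X ^ 2) hB0
          calc X ^ 2 < X ^ 2 / B * B + B := this
            _ = _ := by ring
        have e2 : 2 * X + 2 * (w ^ 2 * X) ≤ X * X := by
          calc 2 * X + 2 * (w ^ 2 * X) = (1 * (2 + 2 * w ^ 2)) * X := by ring
            _ ≤ (K * (2 + 2 * w ^ 2)) * X := by
                apply Nat.mul_le_mul_right
                exact Nat.mul_le_mul_right _ hK0
            _ ≤ X * X := Nat.mul_le_mul_right _ hbig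
        have e3 : 4 * B * σ = 4 * ((X ^ 2 / B + 1) * B) := by rw [hσ]; ring
        rw [e3]
        have e4 : X ^ 2 = X * X := sq X
        omega)
      (by
        have e1 : (n : ℝ) ≤ X * X + 2 * X := by exact_mod_cast h4
        have e2 : (K : ℝ) * (2 + 2 * w ^ 2) ≤ X := by exact_mod_cast hbig
        have e3 : (2 + 2 * (w : ℝ) ^ 2) * X ≤ X * X / K := by
          rw [le_div_iff₀ hK'']
          nlinarith
        have e4 : (1 + 1 / (K : ℝ)) * (X * X) ≤ (1 - 7 * ε) * (((K : ℝ) + 1) * X / K) ^ 2 := by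
          rw [he7]
          have e5 : (1 - 1 / (2 * (K : ℝ))) * (((K : ℝ) + 1) * X / K) ^ 2
              = (1 - 1 / (2 * (K : ℝ))) * (1 + 1 / K) ^ 2 * (X * X) := by
            field_simp
          rw [e5]
          apply mul_le_mul_of_nonneg_right _ (by positivity)
          have e6 : (0 : ℝ) < 1 / K := by positivity
          have e7 : 1 / (2 * (K : ℝ)) = 1 / 2 * (1 / K) := by field_simp
          rw [e7]
          obtain ⟨u, hu⟩ : ∃ u : ℝ, u = 1 / K := ⟨_, rfl⟩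
          rw [← hu] at e6 ⊢
          have e8 : u ≤ 1 / 2 := by
            rw [hu, div_le_div_iff₀ hK'' (by norm_num)]; linarith
          nlinarith [mul_pos e6 e6, mul_pos (mul_pos e6 e6) e6]
        have e9 : (0 : ℝ) ≤ σ := by positivity
        push_cast
        have e10 : (1 + 1 / (K : ℝ)) * (X * X) = X * X + X * X / K := by ring
        nlinarith)
    refine ⟨_, setD_pack hBk.pack (fun q hq => ((hmem q hq).1).pos), ?_⟩
    have hσ2 : (σ : ℝ) ≤ (X : ℝ) ^ 2 / B + 1 := by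
      rw [hσ]; push_cast
      have : ((X ^ 2 / B : ℕ) : ℝ) ≤ ((X ^ 2 : ℕ) : ℝ) / B := Nat.cast_div_le
      push_cast at this
      linarith
    have hcard : ((Pnt.P (w ^ 2 * X) \ Pnt.P ((K + 1) * X / K)).card : ℝ)
        ≤ ((Pnt.P (w ^ 2 * X / 1)).card : ℝ) := by
      rw [Nat.div_one]
      exact_mod_cast Finset.card_le_card Finset.sdiff_subset
    push_cast
    have hc0 : (0 : ℝ) ≤ (((Pnt.P (w ^ 2 * X) \ Pnt.P ((K + 1) * X / K)).card : ℕ) : ℝ) := by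
      positivity
    have hs0 : (0 : ℝ) ≤ (X : ℝ) ^ 2 / B + 1 := by positivity
    have := mul_le_mul hcard hσ2 (by positivity) (by positivity)
    linarith
  · have t1 := (Pnt.pi_frac 1 (w ^ 2) one_pos).comp sqrt_tendsto
    have t2 := (lim_ix.mul lim_ix).const_add (1 / (B : ℝ))
    have t3 := ((lim_ix.mul lim_lx).const_mul (2 * (w : ℝ) ^ 2)).add (ratio_tendsto.mul lim_lx)
    have t4 := ((ratio_tendsto.mul lim_lx).add (((lim_ix.mul lim_ix).mul lim_lx).const_mul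
      (J : ℝ))).const_mul (leftC (4 * B) H : ℝ)
    have t5 := (t1.mul t2).add (t3.add t4)
    refine t5.congr' ?_
    filter_upwards [sqrt_facts] with n hn
    obtain ⟨X, hX⟩ : ∃ X, X = Nat.sqrt n := ⟨_, rfl⟩
    simp only [Function.comp]
    rw [← hX] at hn ⊢
    have hX0' : (0 : ℝ) < X := by exact_mod_cast (by omega : 0 < X)
    field_simp
  · refine lt_of_eq_of_lt ?_ hc
    rw [hB]
    push_cast
    field_simp
    ring

end Pool.Agent.Q10.PK
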