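import Pool.Agent.Q10.PK.ClassA

/-!
# The middle class
-/

set_option autoImplicit false

open Filter Topology Finset

namespace Pool.Agent.Q10.PK

open scoped Classical in
/-- Class E1. -/
noncomputable def setE (K w n : ℕ) : Finset ℕ := (Finset.Icc 1 n).filter
    (fun d => w ^ 2 * Nat.sqrt n < d ∧ d ≤ DD n ∧ ∃ q : ℕ, q.Prime ∧ Nat.sqrt n < q * K ∧ q ∣ d)

lemma P_le {K : ℕ} (hK : 0 < K) : ∀ᶠ X : ℕ in atTop, ∀ x, X / K ≤ x →
    ((Pnt.P x).card : ℝ) * Real.log X ≤ 4 * x := by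
  have h := Pnt.pi_nat.eventually (eventually_lt_nhds (show (1 : ℝ) < 2 by norm_num))
  rw [Filter.eventually_atTop] at h
  obtain ⟨x0, hx0⟩ := h
  filter_upwards [eventually_ge_atTop (K * (x0 + 2 * K + 2))] with X hX x hx
  have h1 : x0 + 2 * K + 2 ≤ X / K := by
    rw [Nat.le_div_iff_mul_le hK, Nat.mul_comm]; exact hX
  have h2 : x0 ≤ x := by omega
  have h3 := hx0 x h2
  have hxpos : 0 < x := by omega
  have hx' : (0 : ℝ) < x := by exact_mod_cast hxpos
  rw [div_lt_iff₀ hx'] at h3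
  -- `X ≤ x ^ 2`
  have h4 : X < (X / K + 1) * K := by
    have := Nat.lt_div_mul_add (a := X) hK
    calc X < X / K * K + K := this
      _ = _ := by ring
  have h5 : X ≤ x ^ 2 := by
    have : (X / K + 1) * K ≤ x ^ 2 := by
      calc (X / K + 1) * K ≤ (x + 1) * K := Nat.mul_le_mul_right _ (by omega)
        _ ≤ (2 * x) * K := Nat.mul_le_mul_right _ (by omega)
        _ = x * (2 * K) := by ring
        _ ≤ x * x := Nat.mul_le_mul_left _ (by omega)
        _ = x ^ 2 := by ring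
    omega
  have hX0 : 0 < X := by
    rcases Nat.eq_zero_or_pos X with h | h
    · subst h; simp at h1
    · exact h
  have h6 : Real.log X ≤ 2 * Real.log x := by
    have : Real.log X ≤ Real.log ((x : ℝ) ^ 2) := by
      apply Real.log_le_log (by exact_mod_cast hX0)
      exact_mod_cast h5
    rw [Real.log_pow] at this
    push_cast at this; exact this
  calc ((Pnt.P x).card : ℝ) * Real.log X ≤ (Pnt.P x).card * (2 * Real.log x) := by gcongr
    _ = 2 * ((Pnt.P x).card * Real.log x) := by ring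
    _ ≤ 2 * (2 * x) := by gcongr
    _ = 4 * x := by ring

/-- The layer `(Y, 4 Y]`, `Y = w ^ 2 4 ^ i X`. -/
lemma layer_card {K w X : ℕ} (hK : 0 < K) (hKw : K ≤ w) (hX : 0 < X) (hlogX : 0 < Real.log X)
    (hP : ∀ x, X / K ≤ x → ((Pnt.P x).card : ℝ) * Real.log X ≤ 4 * x) (i : ℕ) (E : Finset ℕ)
    (hE : ∀ d ∈ E, 1 ≤ d ∧ d ≤ 4 * (w ^ 2 * 4 ^ i * X) ∧ ∃ q : ℕ, q.Prime ∧ X < q * K ∧ q ∣ d) :
    (E.card : ℝ) * Real.log X ≤ 80 * ((w : ℝ) * 2 ^ i) * ((w : ℝ) ^ 2 * 4 ^ i * X) := by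
  classical
  obtain ⟨Y, hY⟩ : ∃ Y, Y = w ^ 2 * 4 ^ i * X := ⟨_, rfl⟩
  obtain ⟨M, hM⟩ : ∃ M, M = 4 * w ^ 2 * 4 ^ i * K := ⟨_, rfl⟩
  have hw : 0 < w := by omega
  have hM0 : 0 < M := by rw [hM]; positivity
  rw [← hY] at hE
  have hsub : E ⊆ (Finset.Icc 1 M).biUnion (fun m => (Pnt.P (4 * Y / m)).image (fun q => m * q)) := by
    intro d hd
    obtain ⟨h1, h2, q, hq, hqK, hqd⟩ := hE d hd
    obtain ⟨m, rfl⟩ := hqd
    have hm0 : 0 < m := by
      rcases Nat.eq_zero_or_pos m with h | h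
      · subst h; simp at h1
      · exact h
    rw [Finset.mem_biUnion]
    refine ⟨m, ?_, ?_⟩
    · rw [Finset.mem_Icc]
      refine ⟨hm0, ?_⟩
      have h3 : m * X ≤ M * X := by
        calc m * X ≤ m * (q * K) := Nat.mul_le_mul_left _ hqK.le
          _ = q * m * K := by ring
          _ ≤ 4 * Y * K := Nat.mul_le_mul_right _ h2
          _ = M * X := by rw [hY, hM]; ring
      exact Nat.le_of_mul_le_mul_right h3 hX
    · rw [Finset.mem_image]
      refine ⟨q, ?_, Nat.mul_comm _ _⟩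
      rw [Pnt.mem_P]
      exact ⟨(Nat.le_div_iff_mul_le hm0).2 h2, hq⟩
  have hcard : (E.card : ℝ) ≤ ∑ m ∈ Finset.Icc 1 M, ((Pnt.P (4 * Y / m)).card : ℝ) := by
    have h1 : E.card ≤ ∑ m ∈ Finset.Icc 1 M, (Pnt.P (4 * Y / m)).card := by
      refine (Finset.card_le_card hsub).trans (Finset.card_biUnion_le.trans ?_)
      apply Finset.sum_le_sum
      intro m _
      exact Finset.card_image_le
    exact_mod_cast h1
  have hterm : ∀ m ∈ Finset.Icc 1 M, ((Pnt.P (4 * Y / m)).card : ℝ) * Real.log X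
      ≤ 16 * Y * ((m : ℝ))⁻¹ := by
    intro m hm
    rw [Finset.mem_Icc] at hm
    have h1 : X / K ≤ 4 * Y / m := by
      have e1 : 4 * Y / M = X / K := by
        have e2 : 4 * Y = (4 * w ^ 2 * 4 ^ i) * X := by rw [hY]; ring
        rw [e2, hM]
        exact Nat.mul_div_mul_left _ _ (by positivity)
      rw [← e1]
      exact Nat.div_le_div_left hm.2 (by omega)
    have h2 := hP _ h1
    have h3 : ((4 * Y / m : ℕ) : ℝ) ≤ 4 * Y * ((m : ℝ))⁻¹ := by
      have : ((4 * Y / m : ℕ) : ℝ) ≤ ((4 * Y : ℕ) : ℝ) / m := Nat.cast_div_le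
      rw [div_eq_mul_inv] at this
      push_cast at this ⊢
      exact this
    calc _ ≤ 4 * ((4 * Y / m : ℕ) : ℝ) := h2
      _ ≤ 4 * (4 * Y * ((m : ℝ))⁻¹) := by gcongr
      _ = _ := by ring
  have hharm : ∑ m ∈ Finset.Icc 1 M, ((m : ℝ))⁻¹ ≤ 5 * (w * 2 ^ i) := by
    have e3 := harmonic_le_one_add_log M
    rw [harmonic_eq_sum_Icc] at e3
    push_cast at e3
    refine e3.trans ?_
    have hw0 : (0 : ℝ) < w := by exact_mod_cast hw
    have hK0 : (0 : ℝ) < K := by exact_mod_cast hK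
    have h2i : (1 : ℝ) ≤ 2 ^ i := one_le_pow₀ (by norm_num)
    have hKw' : (K : ℝ) ≤ w := by exact_mod_cast hKw
    have e4 : (M : ℝ) = (2 * (w * 2 ^ i)) ^ 2 * K := by
      rw [hM]; push_cast
      have : (4 : ℝ) ^ i = (2 ^ i) ^ 2 := by rw [← pow_mul, mul_comm, pow_mul]; norm_num
      rw [this]; ring
    have hpos : (0 : ℝ) < 2 * (w * 2 ^ i) := by positivity
    rw [e4, Real.log_mul (by positivity) hK0.ne', Real.log_pow]
    have e5 := Real.log_le_sub_one_of_pos hpos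
    have e6 := Real.log_le_sub_one_of_pos hK0
    push_cast
    nlinarith
  have hfin : (E.card : ℝ) * Real.log X ≤ 16 * Y * ∑ m ∈ Finset.Icc 1 M, ((m : ℝ))⁻¹ := by
    calc (E.card : ℝ) * Real.log X ≤ (∑ m ∈ Finset.Icc 1 M, ((Pnt.P (4 * Y / m)).card : ℝ)) * Real.log X := by
          gcongr
      _ = ∑ m ∈ Finset.Icc 1 M, ((Pnt.P (4 * Y / m)).card : ℝ) * Real.log X := by rw [Finset.sum_mul]
      _ ≤ ∑ m ∈ Finset.Icc 1 M, 16 * Y * ((m : ℝ))⁻¹ := Finset.sum_le_sum hterm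
      _ = _ := by rw [Finset.mul_sum]
  refine hfin.trans ?_
  have hYr : (Y : ℝ) = (w : ℝ) ^ 2 * 4 ^ i * X := by rw [hY]; push_cast; ring
  rw [← hYr]
  calc 16 * (Y : ℝ) * ∑ m ∈ Finset.Icc 1 M, ((m : ℝ))⁻¹ ≤ 16 * Y * (5 * (w * 2 ^ i)) := by gcongr
    _ = _ := by ring

/-- The cost of class E1. -/
lemma costE {K w : ℕ} (hK : 0 < K) (hKw : K ≤ w) : Cost (setE K w) (2561 / w) := by
  classical
  have hw : 0 < w := by omega
  have hw0 : (0 : ℝ) < w := by exact_mod_cast hw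
  filter_upwards [sqrt_facts, poly_log (8 * w) 2, log_large 1, log_facts,
    sqrt_tendsto.eventually (P_le hK)] with n hn hp hl1 hlog hP
  obtain ⟨X, hX⟩ : ∃ X, X = Nat.sqrt n := ⟨_, rfl⟩
  obtain ⟨l, hl⟩ : ∃ l, l = Nat.log 2 n := ⟨_, rfl⟩
  obtain ⟨h1, h2, h3, -⟩ := hn
  have hD : DD n = X * l ^ 3 := by rw [DD, ← hl, ← hX]
  have hSE : ∀ d ∈ setE K w n, 1 ≤ d ∧ w ^ 2 * X < d ∧ d ≤ X * l ^ 3 ∧
      ∃ q : ℕ, q.Prime ∧ X < q * K ∧ q ∣ d := by
    intro d hd
    unfold setE at hd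
    rw [Finset.mem_filter, ← hX, hD] at hd
    exact ⟨(Finset.mem_Icc.1 hd.1).1, hd.2⟩
  rw [← hX] at h1 h2 h3 hp hlog hP ⊢
  rw [← hl] at hp hl1 hlog
  have hX0 : 0 < X := by omega
  have hX' : (0 : ℝ) < X := by exact_mod_cast hX0
  obtain ⟨E, hE⟩ : ∃ E : ℕ → Finset ℕ, ∀ i, E i = (setE K w n).filter
    (fun d => w ^ 2 * 4 ^ i * X < d ∧ d ≤ w ^ 2 * 4 ^ (i + 1) * X) := ⟨_, fun _ => rfl⟩
  obtain ⟨N, hN⟩ : ∃ N : ℕ → ℕ, ∀ i, N i = n / (w ^ 2 * 4 ^ i * X) := ⟨_, fun _ => rfl⟩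
  refine ⟨∑ i ∈ Finset.range (2 * l), ((E i).card * N i * N i + n), ?_, ?_⟩
  · apply pack_cover (Finset.range (2 * l)) E
    · intro i _
      have hmem : ∀ d ∈ E i, 1 ≤ d ∧ w ^ 2 * 4 ^ i * X < d := by
        intro d hd
        rw [hE, Finset.mem_filter] at hd
        exact ⟨(hSE d hd.1).1, hd.2.1⟩
      have hcA : ∀ d ∈ E i, (prog (n / d) d).card ≤ N i := by
        intro d hd
        rw [card_A (hmem d hd).1, hN]
        exact Nat.div_le_div_left (hmem d hd).2.le (by positivity)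
      have hg := greedy2 (A := fun d => prog (n / d) d) (n := n) (N := N i) (E i)
        (fun d hd x hx => A_bd (hmem d hd).1 hx) hcA
      refine pack_mono hg ?_
      apply Nat.add_le_add_right
      apply Nat.mul_le_mul_right
      calc ∑ d ∈ E i, (prog (n / d) d).card ≤ ∑ _d ∈ E i, N i := Finset.sum_le_sum hcA
        _ = (E i).card * N i := by rw [Finset.sum_const, smul_eq_mul]
    · intro d hd
      obtain ⟨e1, e2, e3, -⟩ := hSE d hd
      have hcom : X * l ^ 3 ≤ w ^ 2 * 4 ^ (2 * l) * X := by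
        have f1 : l < 2 ^ l := Nat.lt_two_pow_self
        have f2 : l ^ 3 ≤ 4 ^ (2 * l) := by
          calc l ^ 3 ≤ (2 ^ l) ^ 3 := Nat.pow_le_pow_left f1.le 3
            _ = 2 ^ (l * 3) := by rw [← pow_mul]
            _ ≤ 2 ^ (2 * (2 * l)) := Nat.pow_le_pow_right (by norm_num) (by omega)
            _ = 4 ^ (2 * l) := by rw [pow_mul]; norm_num
        have f3 : 1 ≤ w ^ 2 := Nat.one_le_pow _ _ hw
        calc X * l ^ 3 ≤ X * 4 ^ (2 * l) := Nat.mul_le_mul_left _ f2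
          _ = 1 * 4 ^ (2 * l) * X := by ring
          _ ≤ w ^ 2 * 4 ^ (2 * l) * X := by
            apply Nat.mul_le_mul_right
            exact Nat.mul_le_mul_right _ f3
      have hex : ∃ j, d ≤ w ^ 2 * 4 ^ j * X := by
        refine ⟨2 * l, e3.trans ?_⟩
        exact hcom
      obtain ⟨j, hj⟩ : ∃ j, j = Nat.find hex := ⟨_, rfl⟩
      have hj1 : d ≤ w ^ 2 * 4 ^ j * X := by rw [hj]; exact Nat.find_spec hex
      have hj0 : j ≠ 0 := by
        intro h0
        rw [h0] at hj1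
        simp only [pow_zero, mul_one] at hj1
        omega
      have hj2 : ¬ d ≤ w ^ 2 * 4 ^ (j - 1) * X := by
        apply Nat.find_min hex
        rw [← hj]; omega
      have hj3 : j ≤ 2 * l := by
        rw [hj]
        apply Nat.find_min' hex
        refine e3.trans ?_
        exact hcom
      refine ⟨j - 1, Finset.mem_range.2 (by omega), ?_⟩
      rw [hE, Finset.mem_filter]
      refine ⟨hd, not_le.1 hj2, ?_⟩
      rw [Nat.sub_add_cancel (by omega)]; exact hj1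
  · have hn4 : (n : ℝ) ≤ 4 * (X * X) := by exact_mod_cast h3
    have hlayer : ∀ i ∈ Finset.range (2 * l), (((E i).card * N i * N i + n : ℕ) : ℝ) * Real.log X
        ≤ 1280 * (X : ℝ) ^ 3 / w * (1 / 2) ^ i + n * Real.log X := by
      intro i _
      have h4 := layer_card hK hKw hX0 hlog.2.2.2 hP i (E i) (by
        intro d hd
        rw [hE, Finset.mem_filter] at hd
        obtain ⟨e1, e2, e3, e4⟩ := hSE d hd.1
        refine ⟨e1, ?_, e4⟩
        refine hd.2.2.trans (le_of_eq ?_)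
        rw [pow_succ]; ring)
      have hY0 : (0 : ℝ) < (w : ℝ) ^ 2 * 4 ^ i * X := by positivity
      have h5 : (N i : ℝ) * ((w : ℝ) ^ 2 * 4 ^ i * X) ≤ n := by
        rw [hN]
        exact_mod_cast Nat.div_mul_le_self n (w ^ 2 * 4 ^ i * X)
      obtain ⟨Y, hY⟩ : ∃ Y, Y = (w : ℝ) ^ 2 * 4 ^ i * X := ⟨_, rfl⟩
      rw [← hY] at h4 h5 hY0
      have hN0 : (0 : ℝ) ≤ N i := by positivity
      have hcard0 : (0 : ℝ) ≤ (E i).card := by positivity
      push_cast
      rw [add_mul]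
      apply add_le_add _ le_rfl
      -- `|E| N^2 log X ≤ 80 w 2^i Y N^2 ≤ 80 w 2^i n^2 / Y`
      have h6 : (E i).card * (N i : ℝ) * N i * Real.log X ≤ 80 * (w * 2 ^ i) * Y * N i * N i := by
        calc (E i).card * (N i : ℝ) * N i * Real.log X = ((E i).card * Real.log X) * (N i * N i) := by ring
          _ ≤ (80 * (w * 2 ^ i) * Y) * (N i * N i) := by gcongr
          _ = _ := by ring
      refine h6.trans ?_
      have h7 : 80 * ((w : ℝ) * 2 ^ i) * Y * N i * N i * Y ≤ 80 * (w * 2 ^ i) * (n * n) := by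
        calc 80 * ((w : ℝ) * 2 ^ i) * Y * N i * N i * Y = 80 * (w * 2 ^ i) * ((N i * Y) * (N i * Y)) := by
              ring
          _ ≤ 80 * (w * 2 ^ i) * (n * n) := by gcongr
      have h8 : 80 * ((w : ℝ) * 2 ^ i) * (n * n) ≤ (1280 * (X : ℝ) ^ 3 / w * (1 / 2) ^ i) * Y := by
        have e1 : (1280 * (X : ℝ) ^ 3 / w * (1 / 2) ^ i) * Y = 80 * (w * 2 ^ i) * ((4 * (X * X)) * (4 * (X * X))) := by
          rw [hY]
          have : (4 : ℝ) ^ i = 2 ^ i * 2 ^ i := by rw [← mul_pow]; norm_num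
          rw [this, one_div, inv_pow]
          field_simp
          ring
        rw [e1]
        gcongr
      exact le_of_mul_le_mul_right (h7.trans h8) hY0
    have hgeom : ∑ i ∈ Finset.range (2 * l), ((1 : ℝ) / 2) ^ i ≤ 2 := by
      have h9 : Summable (fun i : ℕ => ((1 : ℝ) / 2) ^ i) := summable_geometric_two
      have h10 := h9.sum_le_tsum (Finset.range (2 * l)) (fun i _ => by positivity)
      rw [tsum_geometric_two] at h10
      exact h10
    have hlin : (2 * l : ℝ) * (n * Real.log X) ≤ (X : ℝ) ^ 3 / w := by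
      rw [le_div_iff₀ hw0]
      have e1 : 8 * (w : ℝ) * l ^ 2 ≤ X := by exact_mod_cast hp
      have hlpos : (0 : ℝ) ≤ l := by positivity
      calc (2 * l : ℝ) * (n * Real.log X) * w ≤ (2 * l) * ((4 * (X * X)) * l) * w := by
            gcongr; exact hlog.1
        _ = (8 * w * l ^ 2) * (X * X) := by ring
        _ ≤ X * (X * X) := by gcongr
        _ = (X : ℝ) ^ 3 := by ring
    rw [Nat.cast_sum, Finset.sum_mul]
    refine (Finset.sum_le_sum hlayer).trans ?_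
    rw [Finset.sum_add_distrib, ← Finset.mul_sum, Finset.sum_const, Finset.card_range, nsmul_eq_mul]
    push_cast
    have h11 : 1280 * (X : ℝ) ^ 3 / w * ∑ i ∈ Finset.range (2 * l), ((1 : ℝ) / 2) ^ i
        ≤ 1280 * (X : ℝ) ^ 3 / w * 2 := by gcongr
    have h12 : (2561 : ℝ) / w * (X : ℝ) ^ 3 = 1280 * (X : ℝ) ^ 3 / w * 2 + (X : ℝ) ^ 3 / w := by
      field_simp; ring
    rw [h12]
    linarith

end Pool.Agent.Q10.PK
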