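import Pool.Agent.Q10.PK.Row2

/-!
# Progressions with prime differences up to `√ n`
-/

set_option autoImplicit false

open Filter Topology Finset

namespace Pool.Agent.Q10.PK

/-- The least `m` such that `A_p = {p, 2p, …, ⌊n / p⌋ p}`, `p ≤ √ n` prime, pack into `[m]`. -/
noncomputable def mP (n : ℕ) : ℕ :=
  sInf {m | PackInto ((Finset.Icc 1 n).filter (fun p => p.Prime ∧ p ^ 2 ≤ n))
    (fun d => prog (n / d) d) m}

lemma filter_eq' (n : ℕ) : (Finset.Icc 1 n).filter (fun p => p.Prime ∧ p ^ 2 ≤ n)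
    = Pnt.P (Nat.sqrt n) := by
  ext p
  rw [Finset.mem_filter, Finset.mem_Icc, Pnt.mem_P, Nat.le_sqrt, ← sq]
  constructor
  · rintro ⟨h1, h2, h3⟩; exact ⟨h3, h2⟩
  · rintro ⟨h1, h2⟩
    have := h2.pos
    exact ⟨⟨this, by nlinarith⟩, h2, h1⟩

lemma mP_ne (n : ℕ) : PackInto (Pnt.P (Nat.sqrt n)) (fun d => prog (n / d) d)
    ((Pnt.P (Nat.sqrt n)).card * n) := by
  apply pack_separate
  intro p hp x hx
  obtain ⟨i, hi, rfl⟩ := Finset.mem_image.1 hx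
  rw [Finset.mem_Icc] at hi
  have h := Pnt.mem_P.1 hp
  exact ⟨Nat.mul_pos (by omega) h.2.pos, (Nat.mul_le_mul_right _ hi.2).trans (Nat.div_mul_le_self _ _)⟩

lemma pack_mP (n : ℕ) : PackInto (Pnt.P (Nat.sqrt n)) (fun d => prog (n / d) d) (mP n) := by
  have := Nat.sInf_mem (s := {m | PackInto ((Finset.Icc 1 n).filter (fun p => p.Prime ∧ p ^ 2 ≤ n))
    (fun d => prog (n / d) d) m})
    ⟨_, by rw [Set.mem_setOf_eq, filter_eq']; exact mP_ne n⟩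
  rw [Set.mem_setOf_eq, filter_eq'] at this
  rw [mP, filter_eq']; exact this

lemma mP_le {n m : ℕ} (h : PackInto (Pnt.P (Nat.sqrt n)) (fun d => prog (n / d) d) m) :
    mP n ≤ m := by
  apply Nat.sInf_le
  rw [Set.mem_setOf_eq, filter_eq']; exact h

/-- `(∑_{p ≤ X} (1 - (p / X) ^ 2)) log X / X → 2 / 3`. -/
lemma main_sum3 : Tendsto (fun n : ℕ => (∑ p ∈ Pnt.P n, (1 - ((p : ℝ) / n) ^ 2)) *
    Real.log n / n) atTop (𝓝 (2 / 3)) := by
  have h := Pnt.equi (fun x => 1 - x ^ 2) 2 (by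
    intro x hx y hy
    have h1 : |x ^ 2 - y ^ 2| ≤ 2 * |x - y| := by
      have : x ^ 2 - y ^ 2 = (x + y) * (x - y) := by ring
      rw [this, abs_mul]
      apply mul_le_mul_of_nonneg_right _ (abs_nonneg _)
      rw [abs_of_nonneg (by linarith [hx.1, hy.1])]
      linarith [hx.2, hy.2]
    have h2 : 1 - x ^ 2 - (1 - y ^ 2) = -(x ^ 2 - y ^ 2) := by ring
    rw [h2, abs_neg]
    exact h1) (Continuous.continuousOn (by fun_prop))
  have h2 : ∫ x in (0 : ℝ)..1, (1 - x ^ 2 : ℝ) = 2 / 3 := by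
    rw [intervalIntegral.integral_sub (Continuous.intervalIntegrable (by fun_prop) _ _)
      (Continuous.intervalIntegrable (by fun_prop) _ _)]
    rw [intervalIntegral.integral_const, integral_pow]; norm_num
  rw [h2] at h
  exact h

lemma row3_lower (n : ℕ) (hn : 0 < n) :
    ((Nat.sqrt n : ℕ) : ℝ) ^ 2 * ∑ p ∈ Pnt.P (Nat.sqrt n), (1 - ((p : ℝ) / (Nat.sqrt n : ℕ)) ^ 2)
      ≤ mP n + (Nat.sqrt n : ℕ) + (Pnt.P (Nat.sqrt n)).card * (Nat.sqrt n : ℕ) := by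
  obtain ⟨X, hX⟩ : ∃ X, X = Nat.sqrt n := ⟨_, rfl⟩
  have hX0 : 0 < X := by rw [hX]; exact Nat.sqrt_pos.2 hn
  have hXn : X * X ≤ n := by rw [hX]; exact Nat.sqrt_le n
  have hpk := pack_mP n
  rw [← hX] at hpk ⊢
  have h := lower_gen (N := fun d => n / d) (X := X) (Pnt.P X) (fun p hp => (Pnt.mem_P.1 hp).2)
    (fun p hp => (Pnt.mem_P.1 hp).1) (fun p hp q hq => by
      rw [Nat.le_div_iff_mul_le (Pnt.mem_P.1 hq).2.pos]
      exact (Nat.mul_le_mul (Pnt.mem_P.1 hp).1 (Pnt.mem_P.1 hq).1).trans hXn) hpk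
  have h' : ((∑ x ∈ Pnt.P X, (((n / x : ℕ) : ℤ) * x - x ^ 2) : ℤ) : ℝ) ≤ (((mP n : ℤ) + X : ℤ) : ℝ) := by
    exact_mod_cast h
  push_cast at h'
  have hX' : (0 : ℝ) < X := by exact_mod_cast hX0
  have h2 : (X : ℝ) ^ 2 * ∑ p ∈ Pnt.P X, (1 - ((p : ℝ) / X) ^ 2)
      ≤ ∑ p ∈ Pnt.P X, ((((n / p : ℕ) : ℝ) * p - (p : ℝ) ^ 2) + X) := by
    rw [Finset.mul_sum]
    apply Finset.sum_le_sum
    intro p hp
    have hp' := Pnt.mem_P.1 hp
    have e1 : (X : ℝ) ^ 2 * (1 - ((p : ℝ) / X) ^ 2) = (X : ℝ) ^ 2 - (p : ℝ) ^ 2 := by field_simp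
    have e2 : n < n / p * p + p := Nat.lt_div_mul_add hp'.2.pos
    have e3 : X * X ≤ n / p * p + X := by omega
    have e4 : (X : ℝ) * X ≤ ((n / p : ℕ) : ℝ) * p + X := by exact_mod_cast e3
    rw [e1]; linarith
  rw [Finset.sum_add_distrib, Finset.sum_const, nsmul_eq_mul] at h2
  have h3 : ∑ p ∈ Pnt.P X, (((n / p : ℕ) : ℝ) * p - (p : ℝ) ^ 2) ≤ (mP n : ℝ) + X := h'
  linarith

lemma row3_upper {K : ℕ} (hK : 2 ≤ K) {ε : ℝ} (he0 : 0 < ε) (he1 : ε < 1) :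
    ∃ C : ℕ, ∀ᶠ n : ℕ in atTop, (mP n : ℝ) ≤
      ((Nat.sqrt n : ℕ) : ℝ) ^ 2 * ∑ p ∈ Pnt.P (Nat.sqrt n), (1 - ((p : ℝ) / (Nat.sqrt n : ℕ)) ^ 2)
        + (Pnt.P (Nat.sqrt n)).card * ((3 / K + ε) * ((Nat.sqrt n : ℕ) : ℝ) ^ 2
          + 3 * (Nat.sqrt n : ℕ) + 2)
        + K * (((Nat.sqrt n : ℕ) : ℝ) + (C + 1) * (((Nat.sqrt n : ℕ) : ℝ) + 1) ^ 2) := by
  obtain ⟨C, hC⟩ := upper hK he0 he1
  refine ⟨C, ?_⟩
  have hK0 : 0 < K := by omega
  have hK' : (0 : ℝ) < K := by exact_mod_cast hK0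
  have hsq : Tendsto (fun n : ℕ => Nat.sqrt n) atTop atTop := by
    rw [tendsto_atTop_atTop]
    intro b
    refine ⟨b * b, fun a ha => ?_⟩
    rw [Nat.le_sqrt]; exact ha
  filter_upwards [hsq.eventually hC, eventually_gt_atTop 0] with n hn hn0
  obtain ⟨X, hX⟩ : ∃ X, X = Nat.sqrt n := ⟨_, rfl⟩
  rw [← hX] at hn ⊢
  have hX0 : 0 < X := by rw [hX]; exact Nat.sqrt_pos.2 hn0
  have hXn : X * X ≤ n := by rw [hX]; exact Nat.sqrt_le n
  have hnX : n ≤ (X + 1) ^ 2 := by rw [hX, sq]; exact (Nat.lt_succ_sqrt n).le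
  have hX' : (0 : ℝ) < X := by exact_mod_cast hX0
  have hXn' : (X : ℝ) * X ≤ n := by exact_mod_cast hXn
  have hnX' : (n : ℝ) ≤ ((X : ℝ) + 1) ^ 2 := by exact_mod_cast hnX
  have hcond : ∀ k < K, 1 ≤ k → ((k : ℝ) * X / K) ^ 2 * K ≤ (K - 1) * ((n : ℝ) + X) := by
    intro k hk hk1
    have hk' : (k : ℝ) + 1 ≤ K := by exact_mod_cast hk
    have hk1' : (1 : ℝ) ≤ k := by exact_mod_cast hk1
    have h3 : ((k : ℝ) * X / K) ^ 2 * K = (k : ℝ) ^ 2 / K * ((X : ℝ) * X) := by field_simp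
    have h4 : (k : ℝ) ^ 2 / K ≤ K - 1 := by
      rw [div_le_iff₀ hK']; nlinarith
    have h5 : (0 : ℝ) ≤ (K : ℝ) - 1 := by linarith
    rw [h3]
    calc (k : ℝ) ^ 2 / K * ((X : ℝ) * X) ≤ (K - 1) * ((X : ℝ) * X) := by gcongr
      _ ≤ (K - 1) * ((n : ℝ) + X) := by
        apply mul_le_mul_of_nonneg_left _ h5
        linarith
  have h1 := hn (fun d => n / d) (fun _ => n) (by
    intro k hk p hp
    exact Nat.div_mul_le_self _ _) hcond
  have h2 := mP_le (by rw [← hX]; exact h1)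
  have h2' : (mP n : ℝ) ≤ ((∑ k ∈ Finset.range K, lenK K X ε C n k : ℕ) : ℝ) := by
    exact_mod_cast h2
  refine h2'.trans ?_
  push_cast
  have h3 : ∀ k ∈ Finset.range K, (lenK K X ε C n k : ℝ)
      ≤ ∑ p ∈ Qk K X k, (((X : ℝ) ^ 2 - (p : ℝ) ^ 2) + ((3 / K + ε) * (X : ℝ) ^ 2 + 3 * X + 2))
        + ((X : ℝ) + (C + 1) * ((X : ℝ) + 1) ^ 2) := by
    intro k hk
    rw [Finset.mem_range] at hk
    refine (lenK_le hK0 hX0 he0 he1 hk le_rfl (hcond k hk)).trans ?_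
    apply add_le_add
    · apply Finset.sum_le_sum
      intro p hp
      obtain ⟨hp1, hp2, hp3, hp4⟩ := (mem_Qk hK0 hX0).1 hp
      have h7 : (3 / K + ε) * (X : ℝ) ^ 2 = (X : ℝ) ^ 2 / K + (2 / K + ε) * (X : ℝ) ^ 2 := by ring
      have h8 : (0 : ℝ) ≤ (X : ℝ) ^ 2 / K := by positivity
      rw [h7]
      split_ifs with hk0
      · subst hk0
        have h9 : (p : ℝ) * K ≤ X := by
          have : p * K ≤ X := by simpa using hp4
          exact_mod_cast this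
        have h10 : (p : ℝ) ^ 2 ≤ (X : ℝ) ^ 2 / K := by
          rw [le_div_iff₀ hK']
          have hp0 : (0 : ℝ) ≤ p := by positivity
          have h11 : (p : ℝ) ≤ X := by exact_mod_cast hp1
          calc (p : ℝ) ^ 2 * K = p * (p * K) := by ring
            _ ≤ X * X := by gcongr
            _ = (X : ℝ) ^ 2 := by ring
        nlinarith
      · nlinarith
    · have h9 : (0 : ℝ) ≤ (C : ℝ) + 1 := by positivity
      nlinarith
  refine (Finset.sum_le_sum h3).trans ?_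
  rw [Finset.sum_add_distrib, sum_Qk hK0 hX0, Finset.sum_add_distrib, Finset.sum_const,
    Finset.sum_const, Finset.card_range, nsmul_eq_mul, nsmul_eq_mul]
  have h4 : ∑ p ∈ Pnt.P X, ((X : ℝ) ^ 2 - (p : ℝ) ^ 2)
      = (X : ℝ) ^ 2 * ∑ p ∈ Pnt.P X, (1 - ((p : ℝ) / X) ^ 2) := by
    rw [Finset.mul_sum]
    apply Finset.sum_congr rfl
    intro p _
    field_simp
  rw [h4]

lemma sqrt_tendsto : Tendsto (fun n : ℕ => Nat.sqrt n) atTop atTop := by
  rw [tendsto_atTop_atTop]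
  intro b
  refine ⟨b * b, fun a ha => ?_⟩
  rw [Nat.le_sqrt]; exact ha

/-- In terms of `X = ⌊√ n⌋`. -/
theorem row3_X : Tendsto (fun n : ℕ => (mP n : ℝ) * Real.log (Nat.sqrt n : ℕ) /
    ((Nat.sqrt n : ℕ) : ℝ) ^ 3) atTop (𝓝 (2 / 3)) := by
  have l1 : Tendsto (fun n : ℕ => (1 : ℝ) / n) atTop (𝓝 0) := tendsto_one_div_atTop_nhds_zero_nat
  have l2 : Tendsto (fun n : ℕ => 1 / (n : ℝ) ^ 2) atTop (𝓝 0) := by
    have := l1.mul l1
    rw [zero_mul] at this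
    refine this.congr fun n => ?_
    rw [one_div_mul_one_div]; ring
  rw [tendsto_order]
  constructor
  · intro c hc
    have h3 := (main_sum3.sub log_div_sq).sub (Pnt.pi_nat.mul l1)
    rw [sub_zero, mul_zero, sub_zero] at h3
    filter_upwards [sqrt_tendsto.eventually (h3.eventually (eventually_gt_nhds hc)),
      sqrt_tendsto.eventually (eventually_ge_atTop 2), eventually_gt_atTop 0] with n hn hn2 hn0
    have h4 := row3_lower n hn0
    obtain ⟨X, hX⟩ : ∃ X, X = Nat.sqrt n := ⟨_, rfl⟩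
    rw [← hX] at hn hn2 h4 ⊢
    have hX0 : (0 : ℝ) < X := by exact_mod_cast (by omega : 0 < X)
    have hlog : 0 < Real.log X := Real.log_pos (by exact_mod_cast (by omega : 1 < X))
    rw [lt_div_iff₀ (by positivity)]
    have h5 : c * (X : ℝ) ^ 3 < ((∑ p ∈ Pnt.P X, (1 - ((p : ℝ) / X) ^ 2)) * Real.log X / X
        - (Real.log X / (X : ℝ) ^ 2) - ((Pnt.P X).card : ℝ) * Real.log X / X * (1 / X))
        * (X : ℝ) ^ 3 := by gcongr
    refine h5.trans_le ?_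
    have h6 : ((∑ p ∈ Pnt.P X, (1 - ((p : ℝ) / X) ^ 2)) * Real.log X / X
        - (Real.log X / (X : ℝ) ^ 2) - ((Pnt.P X).card : ℝ) * Real.log X / X * (1 / X))
        * (X : ℝ) ^ 3
        = ((X : ℝ) ^ 2 * ∑ p ∈ Pnt.P X, (1 - ((p : ℝ) / X) ^ 2) - X - (Pnt.P X).card * X)
          * Real.log X := by
      field_simp
    rw [h6]
    gcongr
    linarith
  · intro c hc
    obtain ⟨η, hη⟩ : ∃ η, η = c - 2 / 3 := ⟨_, rfl⟩
    have hη0 : 0 < η := by linarith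
    obtain ⟨K, hK⟩ := exists_nat_gt (6 / η)
    obtain ⟨K, hK2, hK⟩ : ∃ K : ℕ, 2 ≤ K ∧ 6 / η < K := by
      refine ⟨K + 2, by omega, ?_⟩
      push_cast; linarith
    have hK0 : (0 : ℝ) < K := by exact_mod_cast (by omega : 0 < K)
    rw [div_lt_iff₀ hη0] at hK
    have h3K : 3 / (K : ℝ) < η / 2 := by
      rw [div_lt_iff₀ hK0]; nlinarith
    obtain ⟨ε, he0, he1, he2⟩ : ∃ ε : ℝ, 0 < ε ∧ ε < 1 ∧ ε < η / 2 :=
      ⟨min (1 / 2) (η / 4), by positivity, (min_le_left _ _).trans_lt (by norm_num),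
        (min_le_right _ _).trans_lt (by linarith)⟩
    obtain ⟨C, hC⟩ := row3_upper hK2 he0 he1
    have hlim : Tendsto (fun n : ℕ =>
        (∑ p ∈ Pnt.P n, (1 - ((p : ℝ) / n) ^ 2)) * Real.log n / n
        + ((Pnt.P n).card : ℝ) * Real.log n / n * ((3 / K + ε) + 3 * ((1 : ℝ) / n)
          + 2 * (1 / (n : ℝ) ^ 2))
        + (K * (Real.log n / (n : ℝ) ^ 2) + K * (C + 1) * (Real.log n / (n : ℝ)
          * (1 + 1 / n) ^ 2))) atTop
        (𝓝 (2 / 3 + 1 * ((3 / K + ε) + 3 * 0 + 2 * 0) + (K * 0 + K * (C + 1) * (0 * (1 + 0) ^ 2)))) := by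
      exact (main_sum3.add (Pnt.pi_nat.mul ((tendsto_const_nhds.add (l1.const_mul 3)).add
        (l2.const_mul 2)))).add
        ((log_div_sq.const_mul _).add ((log_div.mul ((l1.const_add 1).pow 2)).const_mul _))
    have hlt : (2 / 3 + 1 * ((3 / K + ε) + 3 * 0 + 2 * 0)
        + (K * 0 + K * (C + 1) * (0 * (1 + 0) ^ 2)) : ℝ) < c := by
      simp only [mul_zero, zero_mul, add_zero, one_mul]; linarith
    filter_upwards [sqrt_tendsto.eventually (hlim.eventually (eventually_lt_nhds hlt)), hC,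
      sqrt_tendsto.eventually (eventually_ge_atTop 2)] with n hn hCn hn2
    obtain ⟨X, hX⟩ : ∃ X, X = Nat.sqrt n := ⟨_, rfl⟩
    rw [← hX] at hn hn2 hCn ⊢
    have hX0 : (0 : ℝ) < X := by exact_mod_cast (by omega : 0 < X)
    have hlog : 0 < Real.log X := Real.log_pos (by exact_mod_cast (by omega : 1 < X))
    refine lt_of_le_of_lt ?_ hn
    rw [div_le_iff₀ (by positivity)]
    have h1 : (mP n : ℝ) * Real.log X ≤ ((X : ℝ) ^ 2 * ∑ p ∈ Pnt.P X, (1 - ((p : ℝ) / X) ^ 2)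
        + (Pnt.P X).card * ((3 / K + ε) * (X : ℝ) ^ 2 + 3 * X + 2)
        + K * ((X : ℝ) + (C + 1) * ((X : ℝ) + 1) ^ 2)) * Real.log X := by gcongr
    refine h1.trans (le_of_eq ?_)
    field_simp

/-- `n / ⌊√ n⌋ ^ 2 → 1`. -/
lemma ratio_tendsto : Tendsto (fun n : ℕ => (n : ℝ) / ((Nat.sqrt n : ℕ) : ℝ) ^ 2) atTop (𝓝 1) := by
  have l1 : Tendsto (fun n : ℕ => (1 + (1 : ℝ) / n) ^ 2) atTop (𝓝 ((1 + 0) ^ 2)) :=
    (tendsto_one_div_atTop_nhds_zero_nat.const_add 1).pow 2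
  have l2 := l1.comp sqrt_tendsto
  rw [add_zero, one_pow] at l2
  refine tendsto_of_tendsto_of_tendsto_of_le_of_le' tendsto_const_nhds l2 ?_ ?_
  · filter_upwards [eventually_gt_atTop 0] with n hn
    have hX0 : 0 < Nat.sqrt n := Nat.sqrt_pos.2 hn
    have hX0' : (0 : ℝ) < (Nat.sqrt n : ℕ) := by exact_mod_cast hX0
    rw [le_div_iff₀ (by positivity), one_mul, sq]
    exact_mod_cast Nat.sqrt_le n
  · filter_upwards [eventually_gt_atTop 0] with n hn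
    have hX0 : 0 < Nat.sqrt n := Nat.sqrt_pos.2 hn
    have hX0' : (0 : ℝ) < (Nat.sqrt n : ℕ) := by exact_mod_cast hX0
    simp only [Function.comp]
    rw [div_le_iff₀ (by positivity)]
    have h1 : (n : ℝ) ≤ (((Nat.sqrt n : ℕ) : ℝ) + 1) ^ 2 := by
      rw [sq]; exact_mod_cast (Nat.lt_succ_sqrt n).le
    refine h1.trans (le_of_eq ?_)
    field_simp

/-- **Row 3.** -/
theorem row3 : Tendsto (fun n : ℕ => (mP n : ℝ) * Real.log n / (n : ℝ) ^ (3 / 2 : ℝ)) atTop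
    (𝓝 (4 / 3)) := by
  have h1 := row3_X
  have h2 : Tendsto (fun n : ℕ => Real.log n / Real.log (Nat.sqrt n : ℕ)) atTop (𝓝 2) := by
    have l1 : Tendsto (fun n : ℕ => Real.log ((n : ℝ) / ((Nat.sqrt n : ℕ) : ℝ) ^ 2)) atTop
        (𝓝 (Real.log 1)) := (Real.continuousAt_log one_ne_zero).tendsto.comp ratio_tendsto
    rw [Real.log_one] at l1
    have l2 : Tendsto (fun n : ℕ => Real.log (Nat.sqrt n : ℕ)) atTop atTop :=
      Real.tendsto_log_atTop.comp (tendsto_natCast_atTop_atTop.comp sqrt_tendsto)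
    have l3 := (l1.div_atTop l2).add_const 2
    rw [zero_add] at l3
    refine l3.congr' ?_
    filter_upwards [sqrt_tendsto.eventually (eventually_ge_atTop 2), eventually_gt_atTop 0]
      with n hn2 hn0
    have hX0 : (0 : ℝ) < (Nat.sqrt n : ℕ) := by exact_mod_cast (by omega : 0 < Nat.sqrt n)
    have hn0' : (0 : ℝ) < n := by exact_mod_cast hn0
    have hlog : 0 < Real.log (Nat.sqrt n : ℕ) :=
      Real.log_pos (by exact_mod_cast (by omega : 1 < Nat.sqrt n))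
    rw [Real.log_div hn0'.ne' (by positivity), Real.log_pow]
    field_simp
    push_cast
    ring
  have h3 : Tendsto (fun n : ℕ => ((n : ℝ) / ((Nat.sqrt n : ℕ) : ℝ) ^ 2) ^ (3 / 2 : ℝ)) atTop
      (𝓝 1) := by
    have := ratio_tendsto.rpow_const (p := (3 / 2 : ℝ)) (Or.inl one_ne_zero)
    rwa [Real.one_rpow] at this
  have h4 := (h1.mul h2).div h3 one_ne_zero
  have h5 : (2 / 3 * 2 / 1 : ℝ) = 4 / 3 := by norm_num
  rw [h5] at h4
  refine h4.congr' ?_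
  filter_upwards [sqrt_tendsto.eventually (eventually_ge_atTop 2), eventually_gt_atTop 0]
    with n hn2 hn0
  have hX0 : (0 : ℝ) < (Nat.sqrt n : ℕ) := by exact_mod_cast (by omega : 0 < Nat.sqrt n)
  have hn0' : (0 : ℝ) < n := by exact_mod_cast hn0
  have hlog : 0 < Real.log (Nat.sqrt n : ℕ) :=
    Real.log_pos (by exact_mod_cast (by omega : 1 < Nat.sqrt n))
  simp only [Pi.div_apply]
  have e1 : (((Nat.sqrt n : ℕ) : ℝ) ^ 2) ^ (3 / 2 : ℝ) = ((Nat.sqrt n : ℕ) : ℝ) ^ 3 := by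
    rw [← Real.rpow_natCast, ← Real.rpow_mul hX0.le, ← Real.rpow_natCast]
    norm_num
  rw [Real.div_rpow hn0'.le (by positivity), e1]
  have e2 : (0 : ℝ) < (n : ℝ) ^ (3 / 2 : ℝ) := Real.rpow_pos_of_pos hn0' _
  field_simp

end Pool.Agent.Q10.PK
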