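import Pool.Agent.Q10.PK.BlockJ
import Pool.Agent.Q10.PK.Row3

/-!
# Small groups, greedy packings and costs
-/

set_option autoImplicit false

open Filter Topology Finset

namespace Pool.Agent.Q10.PK

lemma pack_cover {A : ℕ → Finset ℕ} {κ : Type*} [DecidableEq κ] (G : Finset κ) (J : κ → Finset ℕ)
    (L : κ → ℕ) (h : ∀ g ∈ G, PackInto (J g) A (L g)) :
    ∀ I : Finset ℕ, (∀ d ∈ I, ∃ g ∈ G, d ∈ J g) → PackInto I A (∑ g ∈ G, L g) := by
  classical
  induction G using Finset.induction_on with
  | empty =>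
    intro I hI
    have : I = ∅ := by
      rw [Finset.eq_empty_iff_forall_notMem]
      intro d hd
      obtain ⟨g, hg, -⟩ := hI d hd
      simp at hg
    rw [this]; exact pack_empty A _
  | insert g G hg ih =>
    intro I hI
    rw [Finset.sum_insert hg]
    have h1 : PackInto (I ∩ J g) A (L g) :=
      pack_sub (h g (Finset.mem_insert_self _ _)) Finset.inter_subset_right
    have h2 := ih (fun g' hg' => h g' (Finset.mem_insert_of_mem hg')) (I \ J g) (by
      intro d hd
      rw [Finset.mem_sdiff] at hd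
      obtain ⟨g', hg', hd'⟩ := hI d hd.1
      rcases Finset.mem_insert.1 hg' with h3 | h3
      · subst h3; exact absurd hd' hd.2
      · exact ⟨g', h3, hd'⟩)
    have h3 := pack_union (by
      rw [Finset.disjoint_left]
      intro d hd hd'
      exact (Finset.mem_sdiff.1 hd').2 (Finset.mem_inter.1 hd).2) h1 h2
    refine pack_sub h3 ?_
    intro d hd
    rw [Finset.mem_union, Finset.mem_inter, Finset.mem_sdiff]
    by_cases h : d ∈ J g
    · exact Or.inl ⟨hd, h⟩
    · exact Or.inr ⟨hd, h⟩

/-- The elements of `A_d`. -/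
lemma mem_A {n d x : ℕ} (hx : x ∈ prog (n / d) d) : x ≤ n ∧ d ∣ x ∧ 0 < n / d ∧ (0 < d → 1 ≤ x) := by
  obtain ⟨i, hi, rfl⟩ := Finset.mem_image.1 hx
  rw [Finset.mem_Icc] at hi
  refine ⟨(Nat.mul_le_mul_right _ hi.2).trans (Nat.div_mul_le_self _ _), dvd_mul_left _ _,
    by omega, fun hd => Nat.mul_pos (by omega) hd⟩

/-- The multiples of `g`. -/
lemma group (n g M : ℕ) (hg : 0 < g) : PackInto ((Finset.Icc 1 M).image (fun m => m * g))
    (fun d => prog (n / d) d) ((M / g + 1) * (n + g)) := by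
  classical
  have hmod : ∀ m, (m - 1) % g < g := fun m => Nat.mod_lt _ hg
  refine ⟨fun d => (((d / g - 1) / g * (n + g) + (d / g - 1) % g : ℕ) : ℤ), ?_, ?_⟩
  · intro d hd x hx
    obtain ⟨m, hm, rfl⟩ := Finset.mem_image.1 hd
    rw [Finset.mem_Icc] at hm
    obtain ⟨h1, h2, h3, h4⟩ := mem_A hx
    have h5 := h4 (Nat.mul_pos (by omega) hg)
    have h6 : (m - 1) / g ≤ M / g := Nat.div_le_div_right (by omega)
    have h7 : (m - 1) / g * (n + g) ≤ M / g * (n + g) := Nat.mul_le_mul_right _ h6
    have h8 := hmod m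
    show 1 ≤ (((m * g / g - 1) / g * (n + g) + (m * g / g - 1) % g : ℕ) : ℤ) + (x : ℤ) ∧
      (((m * g / g - 1) / g * (n + g) + (m * g / g - 1) % g : ℕ) : ℤ) + (x : ℤ)
        ≤ (((M / g + 1) * (n + g) : ℕ) : ℤ)
    rw [Nat.mul_div_cancel _ hg]
    have h9 : (M / g + 1) * (n + g) = M / g * (n + g) + (n + g) := by ring
    rw [h9]
    constructor
    · exact_mod_cast (by omega : 1 ≤ (m - 1) / g * (n + g) + (m - 1) % g + x)
    · exact_mod_cast (by omega : (m - 1) / g * (n + g) + (m - 1) % g + x ≤ M / g * (n + g) + (n + g))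
  · intro d hd d' hd' hdd x hx x' hx'
    obtain ⟨m, hm, rfl⟩ := Finset.mem_image.1 hd
    obtain ⟨m', hm', rfl⟩ := Finset.mem_image.1 hd'
    rw [Finset.mem_Icc] at hm hm'
    obtain ⟨h1, h2, h3, h4⟩ := mem_A hx
    obtain ⟨h1', h2', h3', h4'⟩ := mem_A hx'
    have h5 := h4 (Nat.mul_pos (by omega) hg)
    have h5' := h4' (Nat.mul_pos (by omega) hg)
    have hmm : m ≠ m' := fun h => hdd (by rw [h])
    have key : ∀ a b x x' : ℕ, a / g < b / g → x ≤ n → 1 ≤ x' →
        a / g * (n + g) + a % g + x < b / g * (n + g) + b % g + x' := by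
      intro a b x x' hab hx hx'
      have e1 : (a / g + 1) * (n + g) ≤ b / g * (n + g) := Nat.mul_le_mul_right _ hab
      have e2 : (a / g + 1) * (n + g) = a / g * (n + g) + (n + g) := by ring
      have e3 := Nat.mod_lt a hg
      omega
    show (((m * g / g - 1) / g * (n + g) + (m * g / g - 1) % g : ℕ) : ℤ) + (x : ℤ) ≠
      (((m' * g / g - 1) / g * (n + g) + (m' * g / g - 1) % g : ℕ) : ℤ) + (x' : ℤ)
    rw [Nat.mul_div_cancel _ hg, Nat.mul_div_cancel _ hg]
    rcases lt_trichotomy ((m - 1) / g) ((m' - 1) / g) with h | h | h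
    · apply ne_of_lt
      exact_mod_cast key _ _ x x' h h1 h5'
    · intro hcon
      have hcon' : (m - 1) / g * (n + g) + (m - 1) % g + x
          = (m' - 1) / g * (n + g) + (m' - 1) % g + x' := by exact_mod_cast hcon
      rw [h] at hcon'
      have hcon2 : (m - 1) % g + x = (m' - 1) % g + x' := by omega
      have hx0 : g ∣ x := (dvd_mul_left g m).trans h2
      have hx0' : g ∣ x' := (dvd_mul_left g m').trans h2'
      have e1 : ((m - 1) % g + x) % g = (m - 1) % g := by
        rw [Nat.add_mod, Nat.mod_mod, Nat.mod_eq_zero_of_dvd hx0, Nat.add_zero, Nat.mod_mod]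
      have e2 : ((m' - 1) % g + x') % g = (m' - 1) % g := by
        rw [Nat.add_mod, Nat.mod_mod, Nat.mod_eq_zero_of_dvd hx0', Nat.add_zero, Nat.mod_mod]
      rw [hcon2, e2] at e1
      have e3 := Nat.div_add_mod (m - 1) g
      have e4 := Nat.div_add_mod (m' - 1) g
      rw [h] at e3
      omega
    · apply ne_of_gt
      exact_mod_cast key _ _ x' x h h1' h5

/-- The greedy packing. -/
lemma greedy2 {A : ℕ → Finset ℕ} {n N : ℕ} (E : Finset ℕ) (hA : ∀ d ∈ E, ∀ a ∈ A d, 1 ≤ a ∧ a ≤ n)
    (hN : ∀ d ∈ E, (A d).card ≤ N) : PackInto E A ((∑ d ∈ E, (A d).card) * N + n) := by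
  classical
  induction E using Finset.induction_on with
  | empty => exact pack_empty A _
  | insert e E he ih =>
    obtain ⟨s, h1, h2⟩ := ih (fun d hd => hA d (Finset.mem_insert_of_mem hd))
      (fun d hd => hN d (Finset.mem_insert_of_mem hd))
    obtain ⟨U, hU⟩ : ∃ U, U = ∑ d ∈ E, (A d).card := ⟨_, rfl⟩
    rw [← hU] at h1
    -- forbidden starts
    obtain ⟨F, hF⟩ : ∃ F : Finset ℤ, F = ((E.sigma A) ×ˢ A e).image
      (fun p => s p.1.1 + (p.1.2 : ℤ) - (p.2 : ℤ)) := ⟨_, rfl⟩
    have hFc : F.card ≤ U * N := by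
      rw [hF]
      refine Finset.card_image_le.trans ?_
      rw [Finset.card_product, Finset.card_sigma, ← hU]
      exact Nat.mul_le_mul_left _ (hN e (Finset.mem_insert_self _ _))
    obtain ⟨s0, hs0, hs0F⟩ : ∃ s0 ∈ (Finset.range (U * N + 1)).image (fun i : ℕ => (i : ℤ)), s0 ∉ F := by
      by_contra hcon
      push Not at hcon
      have h3 := Finset.card_le_card (fun x hx => hcon x hx : (Finset.range (U * N + 1)).image
        (fun i : ℕ => (i : ℤ)) ⊆ F)
      rw [Finset.card_image_of_injective _ Nat.cast_injective, Finset.card_range] at h3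
      omega
    obtain ⟨i0, hi0, rfl⟩ := Finset.mem_image.1 hs0
    rw [Finset.mem_range] at hi0
    have hnew : ∀ d ∈ E, ∀ a ∈ A d, ∀ b ∈ A e, s d + (a : ℤ) ≠ (i0 : ℤ) + b := by
      intro d hd a ha b hb hcon
      apply hs0F
      rw [hF, Finset.mem_image]
      exact ⟨⟨⟨d, a⟩, b⟩, Finset.mem_product.2 ⟨Finset.mem_sigma.2 ⟨hd, ha⟩, hb⟩, by
        simp only; linarith⟩
    have hne : ∀ d ∈ E, d ≠ e := fun d hd h => he (h ▸ hd)
    rw [Finset.sum_insert he, ← hU]
    have hle : U * N + n ≤ ((A e).card + U) * N + n := by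
      have : U * N ≤ ((A e).card + U) * N := Nat.mul_le_mul_right _ (by omega)
      omega
    refine pack_mono (m := U * N + n) ?_ hle
    refine ⟨fun d => if d = e then (i0 : ℤ) else s d, ?_, ?_⟩
    · intro d hd a ha
      by_cases hde : d = e
      · subst hde
        have h3 := hA d (Finset.mem_insert_self _ _) a ha
        simp only [if_true]
        push_cast
        have : (i0 : ℤ) ≤ U * N := by exact_mod_cast (by omega : i0 ≤ U * N)
        constructor
        · omega
        · have : (a : ℤ) ≤ n := by exact_mod_cast h3.2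
          linarith
      · simp only [hde, if_false]
        exact h1 d ((Finset.mem_insert.1 hd).resolve_left hde) a ha
    · intro d hd d' hd' hdd a ha b hb
      by_cases hde : d = e
      · have hde' : d' ≠ e := fun h => hdd (hde.trans h.symm)
        have hd'E := (Finset.mem_insert.1 hd').resolve_left hde'
        simp only [hde, hde', if_true, if_false]
        subst hde
        exact (hnew d' hd'E b hb a ha).symm
      · have hdE := (Finset.mem_insert.1 hd).resolve_left hde
        by_cases hde' : d' = e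
        · simp only [hde, hde', if_true, if_false]
          subst hde'
          exact hnew d hdE a ha b hb
        · simp only [hde, hde', if_false]
          exact h2 d hdE d' ((Finset.mem_insert.1 hd').resolve_left hde') hdd a ha b hb

/-- A small divisor. -/
lemma small_div {d y : ℕ} (hy : 0 < y) (hd : y < d) (h : ∀ p : ℕ, p.Prime → p ∣ d → p ≤ y) :
    ∃ g, g ∣ d ∧ y < g ∧ g ≤ y * y := by
  classical
  have hex : ∃ g, g ∣ d ∧ y < g := ⟨d, dvd_rfl, hd⟩
  refine ⟨Nat.find hex, (Nat.find_spec hex).1, (Nat.find_spec hex).2, ?_⟩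
  obtain ⟨g, hg⟩ : ∃ g, g = Nat.find hex := ⟨_, rfl⟩
  rw [← hg]
  have h1 : g ∣ d ∧ y < g := by rw [hg]; exact Nat.find_spec hex
  obtain ⟨p, hp, hpg⟩ := Nat.exists_prime_and_dvd (by omega : g ≠ 1)
  obtain ⟨m, hm⟩ := hpg
  have hpy := h p hp ((Dvd.intro m hm.symm).trans h1.1)
  have hmg : m < g := by
    rw [hm]
    have : 0 < m := by
      rcases Nat.eq_zero_or_pos m with h0 | h0
      · subst h0; omega
      · exact h0
    have := hp.two_le
    nlinarith
  have hmy : m ≤ y := by
    by_contra hcon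
    push Not at hcon
    have := Nat.find_min hex (by rw [← hg]; exact hmg)
    exact this ⟨(Dvd.intro_left p hm.symm).trans h1.1, hcon⟩
  calc g = p * m := hm
    _ ≤ y * y := Nat.mul_le_mul hpy hmy

end Pool.Agent.Q10.PK
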