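import Pool.Agent.Q10.PK.Classes

/-!
# Costs
-/

set_option autoImplicit false

open Filter Topology Finset

namespace Pool.Agent.Q10.PK

/-- `S n` packs into an interval of length at most `c X ^ 3 / log X`, where `X = ⌊√ n⌋`. -/
def Cost (S : ℕ → Finset ℕ) (c : ℝ) : Prop :=
  ∀ᶠ n : ℕ in atTop, ∃ L : ℕ, PackInto (S n) (fun d => prog (n / d) d) L ∧
    (L : ℝ) * Real.log (Nat.sqrt n : ℕ) ≤ c * ((Nat.sqrt n : ℕ) : ℝ) ^ 3

lemma Cost.union {S T : ℕ → Finset ℕ} {c c' : ℝ} (h1 : Cost S c) (h2 : Cost T c') :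
    Cost (fun n => S n ∪ T n) (c + c') := by
  classical
  filter_upwards [h1, h2] with n hn1 hn2
  obtain ⟨L, hL, hL'⟩ := hn1
  obtain ⟨L2, hL2, hL2'⟩ := hn2
  refine ⟨L + L2, ?_, ?_⟩
  · have h3 := pack_union (by
      rw [Finset.disjoint_left]
      intro d hd hd'
      exact (Finset.mem_sdiff.1 hd').2 hd) hL (pack_sub hL2 (Finset.sdiff_subset (s := T n) (t := S n)))
    rw [Finset.union_sdiff_self_eq_union] at h3
    exact h3
  · push_cast; linarith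

lemma Cost.sub {S T : ℕ → Finset ℕ} {c : ℝ} (h : Cost T c) (hs : ∀ᶠ n : ℕ in atTop, S n ⊆ T n) :
    Cost S c := by
  filter_upwards [h, hs] with n hn hsn
  obtain ⟨L, hL, hL'⟩ := hn
  exact ⟨L, pack_sub hL hsn, hL'⟩

lemma Cost.of_tendsto {S : ℕ → Finset ℕ} {F : ℕ → ℝ} {c0 c : ℝ}
    (h : ∀ᶠ n : ℕ in atTop, ∃ L : ℕ, PackInto (S n) (fun d => prog (n / d) d) L ∧ (L : ℝ) ≤ F n)
    (hF : Tendsto (fun n : ℕ => F n * Real.log (Nat.sqrt n : ℕ) / ((Nat.sqrt n : ℕ) : ℝ) ^ 3) atTop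
      (𝓝 c0)) (hc : c0 < c) : Cost S c := by
  filter_upwards [h, hF.eventually (eventually_lt_nhds hc),
    sqrt_tendsto.eventually (eventually_ge_atTop 2)] with n hn hFn hn2
  obtain ⟨L, hL, hL'⟩ := hn
  refine ⟨L, hL, ?_⟩
  have hX0 : (0 : ℝ) < (Nat.sqrt n : ℕ) := by exact_mod_cast (by omega : 0 < Nat.sqrt n)
  have hlog : 0 < Real.log (Nat.sqrt n : ℕ) :=
    Real.log_pos (by exact_mod_cast (by omega : 1 < Nat.sqrt n))
  rw [div_lt_iff₀ (by positivity)] at hFn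
  have : (L : ℝ) * Real.log (Nat.sqrt n : ℕ) ≤ F n * Real.log (Nat.sqrt n : ℕ) := by gcongr
  linarith

/-- A finite union. -/
lemma Cost.biUnion (K : ℕ) (S : ℕ → ℕ → Finset ℕ) (c : ℕ → ℝ)
    (h : ∀ k < K, Cost (S k) (c k)) :
    Cost (fun n => (Finset.range K).biUnion (fun k => S k n)) (∑ k ∈ Finset.range K, c k) := by
  classical
  induction K with
  | zero =>
    unfold Cost
    refine Eventually.of_forall fun n => ⟨0, ?_, ?_⟩
    · exact pack_empty _ _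
    · simp
  | succ K ih =>
    have h1 := (ih (fun k hk => h k (by omega))).union (h K (by omega))
    rw [Finset.sum_range_succ]
    refine h1.sub (Eventually.of_forall fun n => ?_)
    rw [Finset.range_add_one, Finset.biUnion_insert, Finset.union_comm]

lemma sqrt_facts : ∀ᶠ n : ℕ in atTop, 2 ≤ Nat.sqrt n ∧ Nat.sqrt n * Nat.sqrt n ≤ n ∧
    n ≤ 4 * (Nat.sqrt n * Nat.sqrt n) ∧ n ≤ Nat.sqrt n * Nat.sqrt n + 2 * Nat.sqrt n := by
  filter_upwards [sqrt_tendsto.eventually (eventually_ge_atTop 2)] with n hn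
  obtain ⟨X, hX⟩ : ∃ X, X = Nat.sqrt n := ⟨_, rfl⟩
  have h1 : X * X ≤ n := by rw [hX]; exact Nat.sqrt_le n
  have h2 : n < (X + 1) * (X + 1) := by rw [hX]; exact Nat.lt_succ_sqrt n
  rw [← hX] at hn ⊢
  refine ⟨hn, h1, by nlinarith, by nlinarith⟩

lemma log_facts : ∀ᶠ n : ℕ in atTop, Real.log (Nat.sqrt n : ℕ) ≤ (Nat.log 2 n : ℕ) ∧
    ((Nat.log 2 n : ℕ) : ℝ) ≤ 8 * Real.log (Nat.sqrt n : ℕ) ∧ 
    Real.log n ≤ 2 * (Nat.log 2 n : ℕ) ∧ 0 < Real.log (Nat.sqrt n : ℕ) := by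
  filter_upwards [sqrt_facts, eventually_ge_atTop 4] with n hn hn4
  obtain ⟨X, hX⟩ : ∃ X, X = Nat.sqrt n := ⟨_, rfl⟩
  rw [← hX] at hn ⊢
  obtain ⟨h1, h2, h3, -⟩ := hn
  obtain ⟨l, hl⟩ : ∃ l, l = Nat.log 2 n := ⟨_, rfl⟩
  rw [← hl]
  have hX0 : (0 : ℝ) < X := by exact_mod_cast (by omega : 0 < X)
  have hn0 : (0 : ℝ) < n := by exact_mod_cast (by omega : 0 < n)
  have hlogX : 0 < Real.log X := Real.log_pos (by exact_mod_cast (by omega : 1 < X))
  have hl2 : 2 ≤ l := by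
    rw [hl]
    exact Nat.le_log_of_pow_le (by norm_num) (by omega)
  have hlog2 : Real.log 2 ≤ 1 := by
    have := Real.log_two_lt_d9; linarith
  have hlog2' : 1 / 2 ≤ Real.log 2 := by
    have := Real.log_two_gt_d9; linarith
  have h4 : n < 2 ^ (l + 1) := by rw [hl]; exact Nat.lt_pow_succ_log_self (by norm_num) n
  have h5 : 2 ^ l ≤ n := by rw [hl]; exact Nat.pow_log_le_self 2 (by omega)
  have h6 : Real.log n ≤ ((l : ℝ) + 1) * Real.log 2 := by
    have : Real.log n ≤ Real.log ((2 : ℝ) ^ (l + 1)) := by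
      apply Real.log_le_log hn0
      exact_mod_cast h4.le
    rw [Real.log_pow] at this
    push_cast at this; exact this
  have h7 : (l : ℝ) * Real.log 2 ≤ Real.log n := by
    have : Real.log ((2 : ℝ) ^ l) ≤ Real.log n := by
      apply Real.log_le_log (by positivity)
      exact_mod_cast h5
    rw [Real.log_pow] at this
    exact this
  have hl2' : (2 : ℝ) ≤ l := by exact_mod_cast hl2
  have h8 : 2 * Real.log X ≤ Real.log n := by
    have : Real.log ((X : ℝ) ^ 2) ≤ Real.log n := by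
      apply Real.log_le_log (by positivity)
      have : X ^ 2 ≤ n := by rw [sq]; exact h2
      exact_mod_cast this
    rw [Real.log_pow] at this
    push_cast at this; exact this
  have h9 : Real.log n ≤ 4 * Real.log X := by
    have : Real.log n ≤ Real.log ((X : ℝ) ^ 4) := by
      apply Real.log_le_log hn0
      have : n ≤ X ^ 4 := by
        calc n ≤ 4 * (X * X) := h3
          _ ≤ (X * X) * (X * X) := Nat.mul_le_mul_right _ (by nlinarith)
          _ = X ^ 4 := by ring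
      exact_mod_cast this
    rw [Real.log_pow] at this
    push_cast at this; exact this
  refine ⟨by nlinarith, by nlinarith, by nlinarith, hlogX⟩

lemma poly_log (C k : ℕ) : ∀ᶠ n : ℕ in atTop, C * Nat.log 2 n ^ k ≤ Nat.sqrt n := by
  have h1 : Tendsto (fun x : ℝ => Real.log x ^ k / x) atTop (𝓝 0) :=
    (Real.isLittleO_pow_log_id_atTop (n := k)).tendsto_div_nhds_zero
  have h2 := h1.comp (tendsto_natCast_atTop_atTop.comp sqrt_tendsto)
  have h3 := (h2.const_mul ((C : ℝ) * 8 ^ k)).eventually (eventually_lt_nhds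
    (show (C : ℝ) * 8 ^ k * 0 < 1 by norm_num))
  filter_upwards [h3, log_facts, sqrt_facts] with n hn hl hs
  obtain ⟨X, hX⟩ : ∃ X, X = Nat.sqrt n := ⟨_, rfl⟩
  simp only [Function.comp] at hn
  rw [← hX] at hn hl hs ⊢
  have hX0 : (0 : ℝ) < X := by exact_mod_cast (by omega : 0 < X)
  rw [← mul_div_assoc, div_lt_iff₀ hX0, one_mul] at hn
  have h4 : ((Nat.log 2 n : ℕ) : ℝ) ^ k ≤ (8 * Real.log X) ^ k := by
    gcongr; exact hl.2.1
  have h5 : (C : ℝ) * ((Nat.log 2 n : ℕ) : ℝ) ^ k ≤ X := by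
    calc (C : ℝ) * ((Nat.log 2 n : ℕ) : ℝ) ^ k ≤ C * (8 * Real.log X) ^ k := by gcongr
      _ = C * 8 ^ k * Real.log X ^ k := by rw [mul_pow]; ring
      _ ≤ X := hn.le
  exact_mod_cast h5

lemma log_large (C : ℕ) : ∀ᶠ n : ℕ in atTop, C ≤ Nat.log 2 n := by
  filter_upwards [eventually_ge_atTop (2 ^ C)] with n hn
  exact Nat.le_log_of_pow_le (by norm_num) hn

/-- From a bound `X ^ 3 / ℓ ^ 2` to a cost. -/
lemma Cost.of_small {S : ℕ → Finset ℕ} (C : ℕ)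
    (h : ∀ᶠ n : ℕ in atTop, ∃ L : ℕ, PackInto (S n) (fun d => prog (n / d) d) L ∧
      (L : ℝ) * (Nat.log 2 n : ℕ) ^ 2 ≤ C * ((Nat.sqrt n : ℕ) : ℝ) ^ 3) {c : ℝ} (hc : 0 < c) :
    Cost S c := by
  obtain ⟨D, hD⟩ := exists_nat_gt ((C : ℝ) / c)
  filter_upwards [h, log_facts, log_large (D + 1)] with n hn hl hD'
  obtain ⟨L, hL, hL'⟩ := hn
  refine ⟨L, hL, ?_⟩
  obtain ⟨l, hl0⟩ : ∃ l : ℕ, l = Nat.log 2 n := ⟨_, rfl⟩
  rw [← hl0] at hL' hl hD'
  have hl1 : (D : ℝ) + 1 ≤ l := by exact_mod_cast hD'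
  have hD0 : (0 : ℝ) ≤ D := by positivity
  have hlpos : (0 : ℝ) < l := by linarith
  rw [div_lt_iff₀ hc] at hD
  have h1 : (L : ℝ) * Real.log (Nat.sqrt n : ℕ) ≤ L * l := by gcongr; exact hl.1
  have h2 : (L : ℝ) * l * l ≤ c * ((Nat.sqrt n : ℕ) : ℝ) ^ 3 * l := by
    have h3 : (C : ℝ) ≤ c * l := by nlinarith
    have h4 : (0 : ℝ) ≤ ((Nat.sqrt n : ℕ) : ℝ) ^ 3 := by positivity
    calc (L : ℝ) * l * l = L * l ^ 2 := by ring
      _ ≤ C * ((Nat.sqrt n : ℕ) : ℝ) ^ 3 := hL'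
      _ ≤ (c * l) * ((Nat.sqrt n : ℕ) : ℝ) ^ 3 := by gcongr
      _ = _ := by ring
  exact h1.trans (le_of_mul_le_mul_right h2 hlpos)

end Pool.Agent.Q10.PK
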