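import Pool.Agent.Q10.PK.Pnt

/-!
# Packing progressions: definitions and the chain lemma
-/

set_option autoImplicit false

open Filter Topology Finset

namespace Pool.Agent.Q10.PK

/-- The sets `A i`, `i ∈ I`, pack into `[m] = {1, …, m}`: there are integers `s i` such that the
shifted copies `s i + A i` lie in `[m]` and are pairwise disjoint. -/
def PackInto (I : Finset ℕ) (A : ℕ → Finset ℕ) (m : ℕ) : Prop :=
  ∃ s : ℕ → ℤ, (∀ i ∈ I, ∀ a ∈ A i, 1 ≤ s i + (a : ℤ) ∧ s i + (a : ℤ) ≤ m) ∧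
    ∀ i ∈ I, ∀ j ∈ I, i ≠ j → ∀ a ∈ A i, ∀ b ∈ A j, s i + (a : ℤ) ≠ s j + (b : ℤ)

/-- `{d, 2 d, …, N d}`: the first `N` positive multiples of `d`. -/
def prog (N d : ℕ) : Finset ℕ := (Finset.Icc 1 N).image (fun i => i * d)

lemma mem_prog {N d i : ℕ} (h1 : 1 ≤ i) (h2 : i ≤ N) : i * d ∈ prog N d :=
  Finset.mem_image.2 ⟨i, Finset.mem_Icc.2 ⟨h1, h2⟩, rfl⟩

/-- Two progressions which start at distance `c` divisible by the greatest common divisor of the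
differences meet unless the second one starts late. -/
lemma meet {n d e : ℕ} {c : ℤ} (hd : 0 < d) (he : 0 < e) (hdn : d ≤ n) (hg : (Nat.gcd d e : ℤ) ∣ c)
    (hc0 : 0 ≤ c) (hc : c < d * ((n : ℤ) - e)) :
    ∃ i ∈ Finset.Icc 1 n, ∃ j ∈ Finset.Icc 1 n, (i : ℤ) * d = c + j * e := by
  -- find `j0` with `d ∣ c + j0 * e`
  obtain ⟨j0, hj0⟩ : ∃ j0 : ℤ, (d : ℤ) ∣ c + j0 * e := by
    obtain ⟨t, ht⟩ := hg
    have hb := Int.gcd_eq_gcd_ab (d : ℤ) (e : ℤ)
    rw [Int.gcd_natCast_natCast] at hb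
    refine ⟨-t * Int.gcdB d e, ⟨t * Int.gcdA d e, ?_⟩⟩
    rw [ht, hb]; ring
  -- reduce modulo `d`, in `[1, d]`
  have hd' : (0 : ℤ) < d := by exact_mod_cast hd
  have he' : (0 : ℤ) < e := by exact_mod_cast he
  obtain ⟨j, hj1, hj2, hj3⟩ : ∃ j : ℤ, 1 ≤ j ∧ j ≤ d ∧ (d : ℤ) ∣ c + j * e := by
    refine ⟨(j0 - 1) % d + 1, ?_, ?_, ?_⟩
    · have := Int.emod_nonneg (j0 - 1) hd'.ne'; omega
    · have := Int.emod_lt_of_pos (j0 - 1) hd'; omega
    · have h1 : c + ((j0 - 1) % d + 1) * e = (c + j0 * e) - d * ((j0 - 1) / d * e) := by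
        have := Int.emod_add_mul_ediv (j0 - 1) d
        have h2 : (j0 - 1) % d = (j0 - 1) - d * ((j0 - 1) / d) := by linarith
        rw [h2]; ring
      rw [h1]
      exact dvd_sub hj0 (dvd_mul_right _ _)
  obtain ⟨i, hi⟩ := hj3
  have hi1 : 1 ≤ i := by
    by_contra hcon
    have : i ≤ 0 := by omega
    nlinarith
  have hi2 : i ≤ n := by
    by_contra hcon
    have h1 : (n : ℤ) + 1 ≤ i := by omega
    have h2 : (d : ℤ) * ((n : ℤ) + 1) ≤ c + j * e := by rw [hi]; gcongr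
    have h3 : j * e ≤ (d : ℤ) * e := by gcongr
    nlinarith
  have hdn' : (d : ℤ) ≤ n := by exact_mod_cast hdn
  refine ⟨i.toNat, ?_, j.toNat, ?_, ?_⟩
  · rw [Finset.mem_Icc]; omega
  · rw [Finset.mem_Icc]; omega
  · rw [Int.toNat_of_nonneg (by omega), Int.toNat_of_nonneg (by omega), hi]; ring

/-- The chain lemma. -/
lemma chain {n : ℕ} {s : ℕ → ℤ} {S0 : ℤ} (C : Finset ℕ) :
    ∀ f : ℕ, f ∉ C → (∀ x ∈ insert f C, S0 ≤ s x) → (∀ x ∈ C, s x ≤ s f) →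
      (∀ x ∈ insert f C, ∀ y ∈ insert f C, x ≠ y → s x ≤ s y →
        (x : ℤ) * ((n : ℤ) - y) ≤ s y - s x) →
      2 * ∑ x ∈ C, ((n : ℤ) * x - x ^ 2) - (f : ℤ) ^ 2 ≤ 2 * (s f - S0) := by
  induction C using Finset.induction_on_max_value (f := s) with
  | empty =>
    intro f _ h2 _ _
    have := h2 f (by simp)
    simp only [Finset.sum_empty]
    nlinarith [sq_nonneg (f : ℤ)]
  | insert a C ha hmax ih =>
    intro f hf h2 h3 h4
    have h5 := ih a ha (fun x hx => h2 x (Finset.mem_insert_of_mem hx)) hmax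
      (fun x hx y hy => h4 x (Finset.mem_insert_of_mem hx) y (Finset.mem_insert_of_mem hy))
    have h6 := h4 a (by simp) f (by simp) (fun h => hf (by rw [← h]; simp)) (h3 a (by simp))
    rw [Finset.sum_insert ha]
    nlinarith [sq_nonneg ((a : ℤ) - f)]

/-- The total length bound. -/
lemma total {n m : ℕ} {s : ℕ → ℤ} (C : Finset ℕ) (hC : ∀ x ∈ C, 1 ≤ x ∧ x ≤ n)
    (h1 : ∀ x ∈ C, 1 ≤ s x + x) (h2 : ∀ x ∈ C, s x + n * x ≤ m)
    (h3 : ∀ x ∈ C, ∀ y ∈ C, x ≠ y → s x ≤ s y → (x : ℤ) * ((n : ℤ) - y) ≤ s y - s x) :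
    ∑ x ∈ C, ((n : ℤ) * x - x ^ 2) ≤ m + n := by
  rcases C.eq_empty_or_nonempty with h0 | h0
  · subst h0; simp; positivity
  obtain ⟨f, hf, hmax⟩ := Finset.exists_max_image C s h0
  have hch := chain (n := n) (s := s) (S0 := 1 - n) (C.erase f) f (by simp)
    (by
      rw [Finset.insert_erase hf]
      intro x hx
      have := h1 x hx
      have := hC x hx
      omega)
    (fun x hx => hmax x (Finset.mem_of_mem_erase hx))
    (by rw [Finset.insert_erase hf]; exact h3)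
  rw [← Finset.add_sum_erase C _ hf]
  have h5 := h2 f hf
  have h6 : (0 : ℤ) ≤ (f : ℤ) ^ 2 := by positivity
  linarith

end Pool.Agent.Q10.PK
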