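import Pool.Agent.Q10.PK.Kron
import Pool.Agent.Q10.PK.Bad
import Pool.Agent.Q10.PK.Lower

/-!
# Greedy placement of the progressions of a block of primes
-/

set_option autoImplicit false

open Finset

namespace Pool.Agent.Q10.PK

/-- The number of primes which may be left over. -/
def leftC (R H : ℕ) : ℕ := R * (2 * H + 1) ^ R

/-- The data of a block: primes in `[a, X]`, numbers of terms `N`, spans at most `S`, step `σ`. -/
structure Blk (Q : Finset ℕ) (N : ℕ → ℕ) (a ε : ℝ) (X S σ R H : ℕ) : Prop where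
  prime : ∀ q ∈ Q, q.Prime
  low : ∀ q ∈ Q, a ≤ q
  up : ∀ q ∈ Q, q ≤ X
  span : ∀ q ∈ Q, N q * q ≤ S
  a0 : 0 ≤ a
  e0 : 0 < ε
  e1 : ε < 1
  rs : S + X ≤ R * σ
  hs : (S : ℝ) + X ≤ σ + (1 - ε) * a ^ 2
  hH : (R : ℝ) < H * (2 * ε ^ 2)
  Hlt : ∀ q ∈ Q, H < q
  big : ((R * H * X ^ R : ℕ) : ℝ) < a ^ (R + 1)

variable {Q : Finset ℕ} {N : ℕ → ℕ} {a ε : ℝ} {X S σ R H : ℕ}

/-- A recent progression and the new one are disjoint. -/
lemma Blk.recent (B : Blk Q N a ε X S σ R H) {p q : ℕ} (hp : p ∈ Q) (hq : q ∈ Q) (hpq : p ≠ q)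
    {sp s t' b m : ℤ} (hb : (q : ℤ) ∣ b * p - 1) (ht' : t' = (s - sp) * b - m * q)
    (h1 : (N p : ℤ) < t') (h2 : (t' : ℝ) < N p + ε * q) (hs : sp < s + X - σ)
    {t u : ℤ} (ht : t ≤ N p) (hu : 1 ≤ u) : sp + t * p ≠ s + u * q := by
  intro hcol
  have hqpos : (0 : ℤ) < q := by exact_mod_cast (B.prime q hq).pos
  have hppos : (0 : ℤ) < p := by exact_mod_cast (B.prime p hp).pos
  -- `q ∣ t' - t`
  have hd : (q : ℤ) ∣ (t' - t) * p := by
    have : (t' - t) * p = (s - sp) * (b * p - 1) + q * (-u - m * p) + (s + u * q - (sp + t * p)) := by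
      rw [ht']; ring
    rw [this, hcol, sub_self, add_zero]
    exact dvd_add (dvd_mul_of_dvd_right hb _) (dvd_mul_right _ _)
  have hcop : IsCoprime (q : ℤ) (p : ℤ) := by
    rw [Nat.isCoprime_iff_coprime]
    exact (Nat.coprime_primes (B.prime q hq) (B.prime p hp)).2 hpq.symm
  have hd2 : (q : ℤ) ∣ t' - t := hcop.dvd_of_dvd_mul_right hd
  have h3 : (q : ℤ) ≤ t' - t := Int.le_of_dvd (by omega) hd2
  have h3' : (q : ℝ) ≤ t' - t := by exact_mod_cast h3
  -- real inequalities
  have hq' : (0 : ℝ) < q := by exact_mod_cast hqpos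
  have hp' : (0 : ℝ) < p := by exact_mod_cast hppos
  have h4 : (1 - ε) * q < N p - t := by linarith
  have h5 : (1 - ε) * q * p < (N p - t) * p := mul_lt_mul_of_pos_right h4 hp'
  have h6 : (1 - ε) * a ^ 2 ≤ (1 - ε) * q * p := by
    have e1 := B.low q hq
    have e2 := B.low p hp
    have e3 : a ^ 2 ≤ (q : ℝ) * p := by
      rw [sq]; exact mul_le_mul e1 e2 B.a0 hq'.le
    have e4 : 0 < 1 - ε := by linarith [B.e1]
    calc (1 - ε) * a ^ 2 ≤ (1 - ε) * ((q : ℝ) * p) := by gcongr
      _ = _ := by ring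
  have h7 : ((N p * p : ℕ) : ℝ) ≤ S := by exact_mod_cast B.span p hp
  have h8 : (sp : ℝ) + t * p = s + u * q := by exact_mod_cast hcol
  have h9 : (sp : ℝ) < s + X - σ := by exact_mod_cast hs
  have h10 : (0 : ℝ) ≤ u * q := by
    have : (0 : ℤ) ≤ u * q := mul_nonneg (by omega) hqpos.le
    exact_mod_cast this
  have h11 := B.hs
  push_cast at h7
  nlinarith

/-- The state of the placement after `j` steps. -/
def State (Q : Finset ℕ) (N : ℕ → ℕ) (X σ j : ℕ) (f : ℕ → ℕ) (s : ℕ → ℤ) : Prop :=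
  (∀ i < j, f i ∈ Q) ∧ (∀ i < j, ∀ i' < j, f i = f i' → i = i') ∧
  (∀ i < j, ((i * σ : ℕ) : ℤ) ≤ s i ∧ s i < ((i * σ : ℕ) : ℤ) + X) ∧
  (∀ i' < j, ∀ i < i', ∀ t u : ℤ, 1 ≤ t → t ≤ N (f i) → 1 ≤ u → u ≤ N (f i') →
    s i + t * f i ≠ s i' + u * f i')

lemma Blk.step (B : Blk Q N a ε X S σ R H) {j : ℕ} {f : ℕ → ℕ} {s : ℕ → ℤ}
    (h : State Q N X σ j f s) (hj : j + leftC R H < Q.card) :
    ∃ (f' : ℕ → ℕ) (s' : ℕ → ℤ), State Q N X σ (j + 1) f' s' := by
  classical
  obtain ⟨hf, hinj, hs, hdis⟩ := h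
  -- the recent indices
  let ι := {i : ℕ // i ∈ (Finset.range j).filter (fun i => j < i + R)}
  have hιlt : ∀ i : ι, (i : ℕ) < j := fun i =>
    Finset.mem_range.1 (Finset.mem_filter.1 i.2).1
  have hcard : Fintype.card ι ≤ R := by
    have h1 : Fintype.card ι = ((Finset.range j).filter (fun i => j < i + R)).card :=
      Fintype.card_coe _
    rw [h1]
    have h2 : (Finset.range j).filter (fun i => j < i + R) ⊆ Finset.Ico (j - R) j := by
      intro i hi
      rw [Finset.mem_filter, Finset.mem_range] at hi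
      rw [Finset.mem_Ico]; omega
    refine (Finset.card_le_card h2).trans ?_
    rw [Nat.card_Ico]; omega
  -- the remaining primes
  obtain ⟨Q', hQ'⟩ : ∃ Q', Q' = Q \ (Finset.range j).image f := ⟨_, rfl⟩
  have hQ'c : leftC R H < Q'.card := by
    have h1 : Q.card - ((Finset.range j).image f).card ≤ Q'.card := by
      rw [hQ']; exact Finset.le_card_sdiff _ _
    have h2 : ((Finset.range j).image f).card ≤ j := by
      simpa using Finset.card_image_le (s := Finset.range j) (f := f)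
    omega
  have hQ'sub : ∀ q ∈ Q', q ∈ Q := fun q hq => by
    rw [hQ'] at hq; exact (Finset.mem_sdiff.1 hq).1
  have hQ'new : ∀ q ∈ Q', ∀ i < j, f i ≠ q := by
    intro q hq i hi hcon
    rw [hQ', Finset.mem_sdiff] at hq
    exact hq.2 (Finset.mem_image.2 ⟨i, Finset.mem_range.2 hi, hcon⟩)
  have hX : 0 < X := by
    obtain ⟨q, hq⟩ : Q.Nonempty := Finset.card_pos.1 (by omega)
    exact (B.prime q hq).pos.trans_le (B.up q hq)
  obtain ⟨q, hqQ', hgood⟩ := Bad.good_exists (p := fun i : ι => f i) (H := H) (X := X) (R := R)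
    (a := a) (Q := Q') (fun i => B.prime _ (hf _ (hιlt i)))
    (fun i i' hii => Subtype.ext (hinj _ (hιlt i) _ (hιlt i') hii))
    (fun i => B.Hlt _ (hf _ (hιlt i))) (fun i => B.up _ (hf _ (hιlt i))) hX hcard B.a0 B.big
    (fun q hq => B.prime q (hQ'sub q hq)) (fun q hq => B.low q (hQ'sub q hq)) hQ'c
  have hqQ := hQ'sub q hqQ'
  have hqp := B.prime q hqQ
  -- inverses
  have hinv : ∀ i : ι, ∃ b : ℤ, (q : ℤ) ∣ b * (f i : ℕ) - 1 := by
    intro i
    have hne := hQ'new q hqQ' i (hιlt i)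
    have hcop : IsCoprime ((f i : ℕ) : ℤ) (q : ℤ) := by
      rw [Nat.isCoprime_iff_coprime]
      exact (Nat.coprime_primes (B.prime _ (hf _ (hιlt i))) hqp).2 hne
    obtain ⟨u, v, huv⟩ := hcop
    exact ⟨u, ⟨-v, by linarith⟩⟩
  choose b hb using hinv
  have hδ : (0 : ℝ) < 2 * ε ^ 2 := by have := B.e0; positivity
  obtain ⟨y, hyq, hy⟩ := Kron.kron hqp.pos b
    (fun i : ι => -(((((j * σ : ℕ) : ℤ) - s i) * b i - N (f i) : ℤ) : ℝ) / q + ε / 2) H
    (fun h hh hd => hgood h hh (Bad.dvd_Z hb hd)) hδ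
    (lt_of_le_of_lt (by exact_mod_cast hcard) B.hH)
  have hq' : (0 : ℝ) < q := by exact_mod_cast hqp.pos
  -- the new start
  obtain ⟨s0, hs0⟩ : ∃ s0 : ℤ, s0 = ((j * σ : ℕ) : ℤ) + y := ⟨_, rfl⟩
  have hm : ∀ i : ι, ∃ m : ℤ, (N (f i) : ℤ) < (s0 - s i) * b i - m * q ∧
      (((s0 - s i) * b i - m * q : ℤ) : ℝ) < N (f i) + ε * q := by
    intro i
    obtain ⟨m, hm⟩ := Kron.near_int B.e0 (hy i)
    refine ⟨m, ?_⟩
    rw [abs_lt] at hm
    have h1 : (y * (b i / q : ℝ) - (-(((((j * σ : ℕ) : ℤ) - s i) * b i - N (f i) : ℤ) : ℝ) / q + ε / 2))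
        - m = ((((s0 - s i) * b i - m * q : ℤ) : ℝ) - N (f i)) / q - ε / 2 := by
      rw [hs0]; push_cast; field_simp; ring
    rw [h1] at hm
    have h2 : 0 < ((((s0 - s i) * b i - m * q : ℤ) : ℝ) - N (f i)) / q := by linarith [hm.1]
    have h3 : ((((s0 - s i) * b i - m * q : ℤ) : ℝ) - N (f i)) / q < ε := by linarith [hm.2]
    rw [lt_div_iff₀ hq', zero_mul] at h2
    rw [div_lt_iff₀ hq'] at h3
    constructor
    · have : ((N (f i) : ℤ) : ℝ) < (((s0 - s i) * b i - m * q : ℤ) : ℝ) := by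
        push_cast at h2 ⊢; linarith
      exact_mod_cast this
    · linarith
  have hyX : (y : ℤ) < X := by
    have := B.up q hqQ
    exact_mod_cast lt_of_lt_of_le hyq this
  refine ⟨fun i => if i = j then q else f i, fun i => if i = j then s0 else s i, ?_, ?_, ?_, ?_⟩
  · intro i hi
    by_cases hij : i = j
    · simp only [hij, if_true]; exact hqQ
    · simp only [hij, if_false]; exact hf i (by omega)
  · intro i hi i' hi' hii
    by_cases hij : i = j
    · by_cases hij' : i' = j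
      · rw [hij, hij']
      · simp only [hij, hij', if_true, if_false] at hii
        exact absurd hii.symm (hQ'new q hqQ' i' (by omega))
    · by_cases hij' : i' = j
      · simp only [hij, hij', if_true, if_false] at hii
        exact absurd hii (hQ'new q hqQ' i (by omega))
      · simp only [hij, hij', if_false] at hii
        exact hinj i (by omega) i' (by omega) hii
  · intro i hi
    by_cases hij : i = j
    · simp only [hij, if_true]
      rw [hs0]
      constructor <;> omega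
    · simp only [hij, if_false]; exact hs i (by omega)
  · intro i' hi' i hi t u ht1 ht2 hu1 hu2
    have hij : i ≠ j := by omega
    simp only [hij, if_false] at ht2 ⊢
    by_cases hij' : i' = j
    · simp only [hij', if_true] at hu2 ⊢
      have hilt : i < j := by omega
      by_cases hrec : j < i + R
      · obtain ⟨m, hm1, hm2⟩ := hm ⟨i, Finset.mem_filter.2 ⟨Finset.mem_range.2 hilt, hrec⟩⟩
        have hb' := hb ⟨i, Finset.mem_filter.2 ⟨Finset.mem_range.2 hilt, hrec⟩⟩
        simp only at hm1 hm2 hb'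
        refine B.recent (hf i hilt) hqQ (hQ'new q hqQ' i hilt) hb' rfl hm1 ?_ ?_ ht2 hu1
        · exact hm2
        · have h1 := (hs i hilt).2
          have h2 : ((i * σ : ℕ) : ℤ) + σ ≤ ((j * σ : ℕ) : ℤ) := by
            have : i * σ + σ ≤ j * σ := by
              calc i * σ + σ = (i + 1) * σ := by ring
                _ ≤ j * σ := Nat.mul_le_mul_right _ (by omega)
            exact_mod_cast this
          rw [hs0]; omega
      · push Not at hrec
        have h1 := (hs i hilt).2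
        have h2 : ((i * σ : ℕ) : ℤ) + (S + X) ≤ ((j * σ : ℕ) : ℤ) := by
          have : i * σ + (S + X) ≤ j * σ := by
            calc i * σ + (S + X) ≤ i * σ + R * σ := Nat.add_le_add_left B.rs _
              _ = (i + R) * σ := by ring
              _ ≤ j * σ := Nat.mul_le_mul_right _ hrec
          exact_mod_cast this
        have h3 : t * f i ≤ S := by
          have e1 : t * (f i : ℤ) ≤ (N (f i) : ℤ) * f i := by
            apply mul_le_mul_of_nonneg_right ht2 (by positivity)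
          have e2 : ((N (f i) * f i : ℕ) : ℤ) ≤ S := by exact_mod_cast B.span _ (hf i hilt)
          push_cast at e2
          linarith
        have h4 : (0 : ℤ) < u * q := by
          have : (0 : ℤ) < q := by exact_mod_cast hqp.pos
          apply mul_pos (by omega) this
        apply ne_of_lt
        rw [hs0]
        omega
    · simp only [hij', if_false] at hu2 ⊢
      exact hdis i' (by omega) i hi t u ht1 ht2 hu1 hu2

/-- The placement. -/
lemma Blk.place (B : Blk Q N a ε X S σ R H) : ∀ j, j + leftC R H ≤ Q.card →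
    ∃ (f : ℕ → ℕ) (s : ℕ → ℤ), State Q N X σ j f s := by
  intro j
  induction j with
  | zero =>
    intro _
    refine ⟨fun _ => 0, fun _ => 0, ?_, ?_, ?_, ?_⟩ <;> intros <;> omega
  | succ j ih =>
    intro hj
    obtain ⟨f, s, h⟩ := ih (by omega)
    exact B.step h (by omega)

end Pool.Agent.Q10.PK
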