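import Mathlib

/-!
# A finite Kronecker lemma

Let `q` be a positive integer and `b i` integers without nontrivial relations
`q ∣ ∑ h i * b i`, `|h i| ≤ H`. Then the points `(y * b i / q)_i` come close to every point of the
torus.
-/

set_option autoImplicit false

open Finset

namespace Pool.Agent.Q10.PK.Kron

/-- `e(x) = exp(2 π i x)`. -/
noncomputable def ee (x : ℝ) : ℂ := Complex.exp (2 * Real.pi * x * Complex.I)

lemma ee_add (x y : ℝ) : ee (x + y) = ee x * ee y := by
  unfold ee; rw [← Complex.exp_add]; congr 1; push_cast; ring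

lemma ee_zero : ee 0 = 1 := by unfold ee; simp

lemma ee_int (m : ℤ) : ee m = 1 := by
  unfold ee
  rw [Complex.exp_eq_one_iff]
  exact ⟨m, by push_cast; ring⟩

lemma ee_nat_mul (k : ℕ) (x : ℝ) : ee (k * x) = ee x ^ k := by
  unfold ee; rw [← Complex.exp_nat_mul]; congr 1; push_cast; ring

lemma ee_neg (x : ℝ) : ee (-x) = (starRingEnd ℂ) (ee x) := by
  unfold ee
  rw [← Complex.exp_conj]
  congr 1
  have h2 : (starRingEnd ℂ) (2 : ℂ) = 2 := Complex.conj_eq_iff_real.2 ⟨2, by simp⟩
  simp only [map_mul, Complex.conj_ofReal, Complex.conj_I, Complex.ofReal_neg, h2]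
  ring

lemma normSq_ee (x : ℝ) : Complex.normSq (ee x) = 1 := by
  have h : Complex.normSq (ee x) = ‖ee x‖ ^ 2 := Complex.normSq_eq_norm_sq _
  rw [h]
  have : ‖ee x‖ = 1 := by
    unfold ee
    have : (2 * Real.pi * x * Complex.I : ℂ) = ((2 * Real.pi * x : ℝ) : ℂ) * Complex.I := by
      push_cast; ring
    rw [this, Complex.norm_exp_ofReal_mul_I]
  rw [this]; norm_num

lemma ee_re (x : ℝ) : (ee x).re = Real.cos (2 * Real.pi * x) := by
  unfold ee
  have : (2 * Real.pi * x * Complex.I : ℂ) = ((2 * Real.pi * x : ℝ) : ℂ) * Complex.I := by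
    push_cast; ring
  rw [this, Complex.exp_ofReal_mul_I_re]

lemma ee_eq_one {x : ℝ} (h : ee x = 1) : ∃ m : ℤ, x = m := by
  unfold ee at h
  rw [Complex.exp_eq_one_iff] at h
  obtain ⟨m, hm⟩ := h
  refine ⟨m, ?_⟩
  have hne : (2 * Real.pi * Complex.I : ℂ) ≠ 0 := by
    simp [Real.pi_ne_zero]
  have h2 : (x : ℂ) * (2 * Real.pi * Complex.I) = m * (2 * Real.pi * Complex.I) := by
    rw [← hm]; ring
  have h3 := mul_right_cancel₀ hne h2
  exact_mod_cast h3

/-- Orthogonality. -/
lemma orth {q : ℕ} (hq : 0 < q) (m : ℤ) :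
    ∑ y ∈ Finset.range q, ee (y * (m / q : ℝ)) = if (q : ℤ) ∣ m then (q : ℂ) else 0 := by
  have hq' : (q : ℝ) ≠ 0 := by positivity
  split_ifs with h
  · obtain ⟨k, rfl⟩ := h
    have : ∀ y ∈ Finset.range q, ee (y * (((q : ℤ) * k : ℤ) / q : ℝ)) = 1 := by
      intro y _
      have h1 : (y : ℝ) * (((q : ℤ) * k : ℤ) / q : ℝ) = ((y * k : ℤ) : ℝ) := by
        push_cast; field_simp
      rw [h1, ee_int]
    rw [Finset.sum_congr rfl this]; simp
  · have h1 : ∀ y ∈ Finset.range q, ee (y * (m / q : ℝ)) = ee (m / q : ℝ) ^ y := fun y _ =>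
      ee_nat_mul y _
    rw [Finset.sum_congr rfl h1]
    have hne : ee (m / q : ℝ) ≠ 1 := by
      intro hcon
      obtain ⟨k, hk⟩ := ee_eq_one hcon
      apply h
      refine ⟨k, ?_⟩
      have : (m : ℝ) = q * k := by field_simp at hk; linarith
      exact_mod_cast this
    rw [geom_sum_eq hne, ← ee_nat_mul]
    have : (q : ℝ) * (m / q : ℝ) = (m : ℝ) := by field_simp
    rw [this, ee_int]; simp

/-- Parseval. -/
lemma parseval {q : ℕ} (hq : 0 < q) {T : Type*} [DecidableEq T] (s : Finset T) (n : T → ℤ)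
    (C : T → ℂ) (hn : ∀ x ∈ s, ∀ y ∈ s, (q : ℤ) ∣ n x - n y → x = y) :
    ∑ y ∈ Finset.range q, Complex.normSq (∑ x ∈ s, C x * ee (y * (n x / q : ℝ)))
      = q * ∑ x ∈ s, Complex.normSq (C x) := by
  have h : ((∑ y ∈ Finset.range q, Complex.normSq (∑ x ∈ s, C x * ee (y * (n x / q : ℝ))) : ℝ) : ℂ)
      = ((q * ∑ x ∈ s, Complex.normSq (C x) : ℝ) : ℂ) := by
    push_cast
    have h1 : ∀ y ∈ Finset.range q, (Complex.normSq (∑ x ∈ s, C x * ee (y * (n x / q : ℝ))) : ℂ)
        = ∑ x ∈ s, ∑ x' ∈ s, C x * (starRingEnd ℂ) (C x') *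
          ee (y * (((n x - n x' : ℤ) : ℝ) / q : ℝ)) := by
      intro y _
      rw [← Complex.mul_conj, map_sum, Finset.sum_mul_sum]
      apply Finset.sum_congr rfl; intro x _
      apply Finset.sum_congr rfl; intro x' _
      have : (y : ℝ) * (((n x - n x' : ℤ) : ℝ) / q : ℝ)
          = (y : ℝ) * (n x / q : ℝ) + -((y : ℝ) * (n x' / q : ℝ)) := by push_cast; ring
      rw [this, ee_add, ee_neg, map_mul]; ring
    rw [Finset.sum_congr rfl h1, Finset.sum_comm, Finset.mul_sum]
    apply Finset.sum_congr rfl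
    intro x hx
    rw [Finset.sum_comm]
    have h2 : ∀ x' ∈ s, ∑ y ∈ Finset.range q, C x * (starRingEnd ℂ) (C x') *
          ee (y * (((n x - n x' : ℤ) : ℝ) / q : ℝ))
        = if x' = x then (q : ℂ) * (Complex.normSq (C x) : ℂ) else 0 := by
      intro x' hx'
      rw [← Finset.mul_sum, orth hq]
      by_cases hxx : x' = x
      · subst hxx
        rw [if_pos (by simp), if_pos rfl, Complex.mul_conj]; ring
      · rw [if_neg hxx, if_neg (fun hd => hxx (hn x hx x' hx' hd).symm), mul_zero]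
    rw [Finset.sum_congr rfl h2, Finset.sum_ite_eq' s x, if_pos hx]
  exact_mod_cast h

/-- The generic moment. -/
lemma moment {q : ℕ} (hq : 0 < q) {ι : Type*} [Fintype ι] [DecidableEq ι] (b : ι → ℤ) (α : ι → ℝ)
    (H : ℕ) (hno : ∀ h : ι → ℤ, (∀ i, |h i| ≤ H) → (q : ℤ) ∣ ∑ i, h i * b i → h = 0)
    (t : ι → Finset ℕ) (ht : ∀ i, ∀ k ∈ t i, k ≤ H) (c : ι → ℕ → ℂ) :
    ∑ y ∈ Finset.range q, ∏ i, Complex.normSq (∑ k ∈ t i, c i k * ee (y * (b i / q : ℝ) - α i) ^ k)
      = q * ∏ i, ∑ k ∈ t i, Complex.normSq (c i k) := by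
  classical
  rw [Finset.prod_univ_sum]
  have h1 : ∀ x : ι → ℕ, ∏ i, Complex.normSq (c i (x i))
      = Complex.normSq (∏ i, c i (x i) * ee (-(x i * α i))) := by
    intro x
    rw [map_prod]
    apply Finset.prod_congr rfl
    intro i _
    rw [map_mul, normSq_ee, mul_one]
  rw [Finset.sum_congr rfl (fun x _ => h1 x)]
  rw [← parseval hq (Fintype.piFinset t) (fun x => ∑ i, (x i : ℤ) * b i)
    (fun x => ∏ i, c i (x i) * ee (-(x i * α i)))]
  · apply Finset.sum_congr rfl
    intro y _
    rw [← map_prod, Finset.prod_univ_sum]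
    congr 1
    apply Finset.sum_congr rfl
    intro x _
    have h2 : ee (y * (((∑ i, (x i : ℤ) * b i : ℤ) : ℝ) / q : ℝ))
        = ∏ i, ee (x i * (y * (b i / q : ℝ))) := by
      have : (y : ℝ) * (((∑ i, (x i : ℤ) * b i : ℤ) : ℝ) / q : ℝ)
          = ∑ i, (x i : ℝ) * (y * (b i / q : ℝ)) := by
        push_cast
        rw [Finset.sum_div, Finset.mul_sum]
        apply Finset.sum_congr rfl; intro i _; ring
      rw [this]
      have key : ∀ s : Finset ι, ee (∑ i ∈ s, (x i : ℝ) * (y * (b i / q : ℝ)))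
          = ∏ i ∈ s, ee (x i * (y * (b i / q : ℝ))) := by
        intro s
        induction s using Finset.induction_on with
        | empty => simp [ee_zero]
        | insert a s ha ih => rw [Finset.sum_insert ha, Finset.prod_insert ha, ee_add, ih]
      exact key _
    rw [h2, ← Finset.prod_mul_distrib]
    apply Finset.prod_congr rfl
    intro i _
    rw [mul_assoc, ← ee_add, ← ee_nat_mul]
    congr 2
    ring
  · intro x hx x' hx' hd
    rw [Fintype.mem_piFinset] at hx hx'
    have h3 := hno (fun i => (x i : ℤ) - x' i) (by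
      intro i
      have h4 := ht i _ (hx i)
      have h5 := ht i _ (hx' i)
      rw [abs_le]; constructor <;> omega) (by
      have : ∑ i, ((x i : ℤ) - x' i) * b i = ∑ i, (x i : ℤ) * b i - ∑ i, (x' i : ℤ) * b i := by
        rw [← Finset.sum_sub_distrib]; apply Finset.sum_congr rfl; intro i _; ring
      rw [this]; exact hd)
    funext i
    have := congrFun h3 i
    simp only [Pi.zero_apply] at this
    omega

/-- **A finite Kronecker lemma.** -/
theorem kron {q : ℕ} (hq : 0 < q) {ι : Type*} [Fintype ι] [DecidableEq ι] (b : ι → ℤ) (α : ι → ℝ)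
    (H : ℕ) (hno : ∀ h : ι → ℤ, (∀ i, |h i| ≤ H) → (q : ℤ) ∣ ∑ i, h i * b i → h = 0)
    {δ : ℝ} (hδ : 0 < δ) (hH : (Fintype.card ι : ℝ) < H * δ) :
    ∃ y < q, ∀ i, 1 - δ < Real.cos (2 * Real.pi * (y * (b i / q : ℝ) - α i)) := by
  classical
  have hH0 : 0 < H := by
    rcases Nat.eq_zero_or_pos H with h | h
    · subst h; simp at hH
      exact absurd hH (not_lt.2 (by positivity))
    · exact h
  have hH' : (0 : ℝ) < H := by exact_mod_cast hH0
  obtain ⟨z, hz⟩ : ∃ z : ι → ℕ → ℂ, ∀ i y, z i y = ee (y * (b i / q : ℝ) - α i) := ⟨_, fun _ _ => rfl⟩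
  obtain ⟨F, hF⟩ : ∃ F : ι → ℕ → ℝ, ∀ i y, F i y
      = Complex.normSq (∑ k ∈ Finset.range H, (1 : ℂ) * z i y ^ k) := ⟨_, fun _ _ => rfl⟩
  have hF0 : ∀ i y, 0 ≤ F i y := fun i y => by rw [hF]; exact Complex.normSq_nonneg _
  -- first moment
  have m1 : ∑ y ∈ Finset.range q, ∏ i, F i y = q * (H : ℝ) ^ Fintype.card ι := by
    have := moment hq b α H hno (fun _ => Finset.range H)
      (fun i k hk => (Finset.mem_range.1 hk).le) (fun _ _ => 1)
    simp only [hF, hz]
    rw [this]
    simp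
  -- second moment
  have m2 : ∀ l, ∑ y ∈ Finset.range q, (∏ i, F i y) * (1 - (z l y).re)
      = q * (H : ℝ) ^ (Fintype.card ι - 1) := by
    intro l
    have := moment hq b α H hno (fun i => if i = l then {0, H} else Finset.range H)
      (by
        intro i k hk
        by_cases hi : i = l
        · simp only [hi, if_true, Finset.mem_insert, Finset.mem_singleton] at hk
          rcases hk with hk | hk <;> omega
        · simp only [hi, if_false, Finset.mem_range] at hk
          exact hk.le)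
      (fun i k => if i = l ∧ k = H then -1 else 1)
    have e1 : ∀ y ∈ Finset.range q, (∏ i, F i y) * (1 - (z l y).re)
        = 1 / 2 * ∏ i, Complex.normSq (∑ k ∈ (if i = l then {0, H} else Finset.range H),
            (if i = l ∧ k = H then (-1 : ℂ) else 1) * ee (y * (b i / q : ℝ) - α i) ^ k) := by
      intro y _
      rw [← Finset.mul_prod_erase _ _ (Finset.mem_univ l),
        ← Finset.mul_prod_erase _ (fun i => Complex.normSq (∑ k ∈ (if i = l then {0, H} else
          Finset.range H), (if i = l ∧ k = H then (-1 : ℂ) else 1) *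
            ee (y * (b i / q : ℝ) - α i) ^ k)) (Finset.mem_univ l)]
      have e2 : ∏ x ∈ Finset.univ.erase l, F x y = ∏ x ∈ Finset.univ.erase l,
          Complex.normSq (∑ k ∈ (if x = l then {0, H} else
          Finset.range H), (if x = l ∧ k = H then (-1 : ℂ) else 1) *
            ee (y * (b x / q : ℝ) - α x) ^ k) := by
        apply Finset.prod_congr rfl
        intro i hi
        have hil : i ≠ l := (Finset.mem_erase.1 hi).1
        simp only [hF, hz, hil, if_false, false_and]
      rw [← e2]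
      have e3 : F l y * (1 - (z l y).re) = 1 / 2 * Complex.normSq (∑ k ∈ (if l = l then {0, H} else
          Finset.range H), (if l = l ∧ k = H then (-1 : ℂ) else 1) *
            ee (y * (b l / q : ℝ) - α l) ^ k) := by
        rw [if_pos rfl, Finset.sum_pair hH0.ne, ← hz]
        have hne : ¬ (0 = H) := hH0.ne
        simp only [true_and, hne, if_false, if_true, pow_zero, mul_one, one_mul]
        have hn1 : Complex.normSq (z l y) = 1 := by rw [hz, normSq_ee]
        have e4 : (1 - (z l y).re) = 1 / 2 * Complex.normSq (1 - z l y) := by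
          rw [Complex.normSq_apply] at hn1 ⊢
          simp only [Complex.sub_re, Complex.one_re, Complex.sub_im, Complex.one_im]
          nlinarith
        rw [hF, e4]
        have e5 : (1 + (-1 : ℂ) * z l y ^ H) = (1 - z l y) * ∑ k ∈ Finset.range H, (1 : ℂ) * z l y ^ k := by
          simp only [one_mul]
          rw [mul_neg_geom_sum]; ring
        rw [e5, map_mul]; ring
      calc F l y * (∏ x ∈ Finset.univ.erase l, F x y) * (1 - (z l y).re)
          = (F l y * (1 - (z l y).re)) * ∏ x ∈ Finset.univ.erase l, F x y := by ring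
        _ = _ := by rw [e3]; ring
    rw [Finset.sum_congr rfl e1, ← Finset.mul_sum, this]
    rw [← Finset.mul_prod_erase _ _ (Finset.mem_univ l)]
    have e6 : ∑ k ∈ (if l = l then {0, H} else Finset.range H),
        Complex.normSq (if l = l ∧ k = H then (-1 : ℂ) else 1) = 2 := by
      rw [if_pos rfl, Finset.sum_pair hH0.ne]
      have hne : ¬ (0 = H) := hH0.ne
      simp [hne]
      norm_num
    have e7 : ∏ x ∈ Finset.univ.erase l, ∑ k ∈ (if x = l then {0, H} else Finset.range H),
        Complex.normSq (if x = l ∧ k = H then (-1 : ℂ) else 1) = (H : ℝ) ^ (Fintype.card ι - 1) := by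
      have : ∀ x ∈ Finset.univ.erase l, ∑ k ∈ (if x = l then {0, H} else Finset.range H),
        Complex.normSq (if x = l ∧ k = H then (-1 : ℂ) else 1) = (H : ℝ) := by
        intro i hi
        have hil : i ≠ l := (Finset.mem_erase.1 hi).1
        simp [hil]
      rw [Finset.prod_congr rfl this, Finset.prod_const, Finset.card_erase_of_mem (Finset.mem_univ l),
        Finset.card_univ]
    rw [e6, e7]; ring
  -- combine
  by_contra hcon
  push Not at hcon
  have h1 : ∀ y ∈ Finset.range q, (∏ i, F i y) * δ ≤ (∏ i, F i y) * ∑ l, (1 - (z l y).re) := by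
    intro y hy
    obtain ⟨i, hi⟩ := hcon y (Finset.mem_range.1 hy)
    apply mul_le_mul_of_nonneg_left _ (Finset.prod_nonneg fun i _ => hF0 i y)
    have h2 : ∀ l, 0 ≤ 1 - (z l y).re := by
      intro l; rw [hz, ee_re]; linarith [Real.cos_le_one (2 * Real.pi * (y * (b l / q : ℝ) - α l))]
    calc δ ≤ 1 - (z i y).re := by rw [hz, ee_re]; linarith
      _ ≤ ∑ l, (1 - (z l y).re) := Finset.single_le_sum (fun l _ => h2 l) (Finset.mem_univ i)
  have h3 := Finset.sum_le_sum h1
  rw [← Finset.sum_mul, m1] at h3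
  have h4 : ∑ y ∈ Finset.range q, (∏ i, F i y) * ∑ l, (1 - (z l y).re)
      = Fintype.card ι * (q * (H : ℝ) ^ (Fintype.card ι - 1)) := by
    simp only [Finset.mul_sum]
    rw [Finset.sum_comm]
    rw [Finset.sum_congr rfl (fun l _ => m2 l)]
    simp
  rw [h4] at h3
  have hq' : (0 : ℝ) < q := by exact_mod_cast hq
  rcases Nat.eq_zero_or_pos (Fintype.card ι) with h0 | h0
  · rw [h0] at h3
    simp at h3
    nlinarith
  · obtain ⟨c, hc⟩ : ∃ c, Fintype.card ι = c + 1 := ⟨Fintype.card ι - 1, by omega⟩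
    rw [hc] at h3 hH
    simp only [Nat.add_sub_cancel] at h3
    have h5 : (0 : ℝ) < (H : ℝ) ^ c := by positivity
    rw [pow_succ] at h3
    have h6 : (0 : ℝ) < q * (H : ℝ) ^ c := by positivity
    have h7 : ((c + 1 : ℕ) : ℝ) * (q * (H : ℝ) ^ c) < (H * δ) * (q * (H : ℝ) ^ c) :=
      mul_lt_mul_of_pos_right hH h6
    nlinarith

/-- From the cosine to the distance to the nearest integer. -/
lemma near_int {x ε : ℝ} (hε : 0 < ε) (h : 1 - 2 * ε ^ 2 < Real.cos (2 * Real.pi * x)) :
    ∃ m : ℤ, |x - m| < ε / 2 := by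
  refine ⟨round x, ?_⟩
  obtain ⟨u, hu⟩ : ∃ u, u = x - round x := ⟨_, rfl⟩
  have hab : |u| ≤ 1 / 2 := by rw [hu]; exact abs_sub_round x
  rw [← hu]
  have h1 : Real.cos (2 * Real.pi * x) = 1 - 2 * Real.sin (Real.pi * |u|) ^ 2 := by
    have e1 : Real.cos (2 * Real.pi * x) = Real.cos (2 * (Real.pi * u)) := by
      have : 2 * Real.pi * x = 2 * (Real.pi * u) + (round x : ℤ) * (2 * Real.pi) := by rw [hu]; ring
      rw [this, Real.cos_add_int_mul_two_pi]
    rw [e1, Real.cos_two_mul, Real.cos_sq']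
    have e2 : Real.sin (Real.pi * |u|) ^ 2 = Real.sin (Real.pi * u) ^ 2 := by
      rcases abs_choice u with h | h
      · rw [h]
      · rw [h, mul_neg, Real.sin_neg]; ring
    rw [e2]; ring
  have h2 : 2 * |u| ≤ Real.sin (Real.pi * |u|) := by
    have := Real.mul_le_sin (x := Real.pi * |u|) (by positivity) (by nlinarith [Real.pi_pos])
    calc 2 * |u| = 2 / Real.pi * (Real.pi * |u|) := by field_simp
      _ ≤ _ := this
  rw [h1] at h
  have h3 : (2 * |u|) ^ 2 ≤ Real.sin (Real.pi * |u|) ^ 2 := by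
    gcongr
  have h4 : (2 * |u|) ^ 2 < ε ^ 2 := by linarith
  have h5 : 2 * |u| < ε := by
    apply lt_of_pow_lt_pow_left₀ 2 hε.le h4
  linarith

end Pool.Agent.Q10.PK.Kron
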