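import Pool.Agent.Q10.PK.Lower

/-!
# The lower bound `19 / 108` for the whole family
-/

set_option autoImplicit false

open Filter Topology Finset

namespace Pool.Agent.Q10.PK

/-- The least `m` such that `B_d = {d, 2d, …, nd}`, `1 ≤ d ≤ n`, pack into `[m]`. -/
noncomputable def M (n : ℕ) : ℕ := sInf {m | PackInto (Finset.Icc 1 n) (prog n) m}

/-- A crude packing. -/
lemma pack_exists (n : ℕ) : PackInto (Finset.Icc 1 n) (prog n) (n * n * n + n * n) := by
  refine ⟨fun d => ((d : ℤ) - 1) * (n * n), ?_, ?_⟩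
  · intro d hd a ha
    rw [Finset.mem_Icc] at hd
    obtain ⟨i, hi, rfl⟩ := Finset.mem_image.1 ha
    rw [Finset.mem_Icc] at hi
    have h1 : (1 : ℤ) ≤ d := by exact_mod_cast hd.1
    have h2 : (d : ℤ) ≤ n := by exact_mod_cast hd.2
    have h3 : (1 : ℤ) ≤ i := by exact_mod_cast hi.1
    have h4 : (i : ℤ) ≤ n := by exact_mod_cast hi.2
    push_cast
    constructor
    · have : (0 : ℤ) ≤ ((d : ℤ) - 1) * (n * n) := by
        apply mul_nonneg (by omega) (by positivity)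
      nlinarith
    · have h5 : ((d : ℤ) - 1) * (n * n) ≤ n * (n * n) := by
        apply mul_le_mul_of_nonneg_right (by omega) (by positivity)
      have h6 : (i : ℤ) * d ≤ n * n := by gcongr
      nlinarith
  · intro d hd e he hde a ha b hb
    rw [Finset.mem_Icc] at hd he
    obtain ⟨i, hi, rfl⟩ := Finset.mem_image.1 ha
    obtain ⟨j, hj, rfl⟩ := Finset.mem_image.1 hb
    rw [Finset.mem_Icc] at hi hj
    have key : ∀ d e i j : ℕ, 1 ≤ d → d < e → e ≤ n → 1 ≤ i → i ≤ n → 1 ≤ j → j ≤ n →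
        ((d : ℤ) - 1) * (n * n) + ((i * d : ℕ) : ℤ) < ((e : ℤ) - 1) * (n * n) + ((j * e : ℕ) : ℤ) := by
      intro d e i j hd hde he hi hi2 hj hj2
      have h1 : (d : ℤ) + 1 ≤ e := by exact_mod_cast hde
      have h2 : (e : ℤ) ≤ n := by exact_mod_cast he
      have h3 : (i : ℤ) ≤ n := by exact_mod_cast hi2
      have h4 : (1 : ℤ) ≤ j := by exact_mod_cast hj
      have h0 : (1 : ℤ) ≤ d := by exact_mod_cast hd
      have h5 : (0 : ℤ) ≤ ((e : ℤ) - 1 - d) * (n * n) := by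
        apply mul_nonneg (by omega) (by positivity)
      have h6 : (i : ℤ) * d ≤ n * n := by
        have : (d : ℤ) ≤ n := by omega
        gcongr
      have h7 : (1 : ℤ) ≤ (j : ℤ) * e := by nlinarith
      push_cast
      nlinarith
    rcases Nat.lt_or_gt_of_ne hde with h | h
    · exact (key d e i j hd.1 h he.2 hi.1 hi.2 hj.1 hj.2).ne
    · exact (key e d j i he.1 h hd.2 hj.1 hj.2 hi.1 hi.2).ne'

lemma pack_M (n : ℕ) : PackInto (Finset.Icc 1 n) (prog n) (M n) :=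
  Nat.sInf_mem (s := {m | PackInto (Finset.Icc 1 n) (prog n) m}) ⟨_, pack_exists n⟩

/-- Starts in a packing. -/
lemma pack_gap {n : ℕ} {s : ℕ → ℤ}
    (hs : ∀ i ∈ Finset.Icc 1 n, ∀ j ∈ Finset.Icc 1 n, i ≠ j → ∀ a ∈ prog n i, ∀ b ∈ prog n j,
      s i + (a : ℤ) ≠ s j + (b : ℤ))
    {d e : ℕ} (hd : d ∈ Finset.Icc 1 n) (he : e ∈ Finset.Icc 1 n) (hde : d ≠ e)
    (hg : (Nat.gcd d e : ℤ) ∣ s e - s d) (hle : s d ≤ s e) :
    (d : ℤ) * ((n : ℤ) - e) ≤ s e - s d := by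
  by_contra hcon
  push Not at hcon
  rw [Finset.mem_Icc] at hd he
  obtain ⟨i, hi, j, hj, hij⟩ := meet (n := n) (d := d) (e := e) (c := s e - s d) (by omega)
    (by omega) hd.2 hg (by omega) hcon
  rw [Finset.mem_Icc] at hi hj
  refine hs d (Finset.mem_Icc.2 hd) e (Finset.mem_Icc.2 he) hde (i * d) (mem_prog hi.1 hi.2)
    (j * e) (mem_prog hj.1 hj.2) ?_
  push_cast
  linarith

/-- The element of `{q, 2q}` chosen for the prime `q`. -/
noncomputable def sel (n : ℕ) (s : ℕ → ℤ) (ε : ℤ) (q : ℕ) : ℕ :=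
  if 3 * q ≤ n ∧ (2 : ℤ) ∣ s (2 * q) - ε then 2 * q else q

/-- Odd primes up to `n`. -/
def OP (n : ℕ) : Finset ℕ := (Pnt.P n).erase 2

lemma mem_OP {n q : ℕ} : q ∈ OP n ↔ q ≠ 2 ∧ q ≤ n ∧ q.Prime := by
  rw [OP, Finset.mem_erase, Pnt.mem_P]

lemma sel_inj {n : ℕ} {s : ℕ → ℤ} {ε : ℤ} {q r : ℕ} (hq : q ∈ OP n) (hr : r ∈ OP n)
    (h : sel n s ε q = sel n s ε r) : q = r := by
  rw [mem_OP] at hq hr
  have hq2 := hq.2.2.eq_two_or_odd'.resolve_left hq.1
  have hr2 := hr.2.2.eq_two_or_odd'.resolve_left hr.1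
  obtain ⟨a, ha⟩ := hq2
  obtain ⟨b, hb⟩ := hr2
  unfold sel at h
  split_ifs at h <;> omega

lemma sel_bd {n : ℕ} {s : ℕ → ℤ} {ε : ℤ} {q : ℕ} (hq : q ∈ OP n) :
    1 ≤ sel n s ε q ∧ sel n s ε q ≤ n := by
  rw [mem_OP] at hq
  have := hq.2.2.pos
  unfold sel
  split_ifs with h <;> omega

lemma sel_gcd {n : ℕ} {s : ℕ → ℤ} {ε : ℤ} {q r : ℕ} (hq : q ∈ OP n) (hr : r ∈ OP n)
    (h : q ≠ r) : (Nat.gcd (sel n s ε q) (sel n s ε r) : ℤ) ∣ s (sel n s ε r) - s (sel n s ε q) := by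
  rw [mem_OP] at hq hr
  have hq2 := hq.2.2.eq_two_or_odd'.resolve_left hq.1
  have hr2 := hr.2.2.eq_two_or_odd'.resolve_left hr.1
  have hqr : Nat.Coprime q r := (Nat.coprime_primes hq.2.2 hr.2.2).2 h
  have hq' : Nat.Coprime 2 q := Nat.coprime_two_left.2 hq2
  have hr' : Nat.Coprime 2 r := Nat.coprime_two_left.2 hr2
  unfold sel
  split_ifs with h1 h2 h2
  · have : Nat.gcd (2 * q) (2 * r) = 2 := by rw [Nat.gcd_mul_left, hqr.gcd_eq_one, mul_one]
    rw [this]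
    have := dvd_sub h2.2 h1.2
    simpa using this
  · have : Nat.gcd (2 * q) r = 1 := Nat.Coprime.mul_left hr' hqr
    rw [this]; simp
  · have : Nat.gcd q (2 * r) = 1 := Nat.Coprime.mul_right hq'.symm hqr
    rw [this]; simp
  · rw [hqr.gcd_eq_one]; simp

/-- The bound for one residue class. -/
lemma class_bound {n m : ℕ} {s : ℕ → ℤ}
    (h1 : ∀ i ∈ Finset.Icc 1 n, ∀ a ∈ prog n i, 1 ≤ s i + (a : ℤ) ∧ s i + (a : ℤ) ≤ m)
    (h2 : ∀ i ∈ Finset.Icc 1 n, ∀ j ∈ Finset.Icc 1 n, i ≠ j → ∀ a ∈ prog n i, ∀ b ∈ prog n j,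
      s i + (a : ℤ) ≠ s j + (b : ℤ)) (ε : ℤ) :
    ∑ q ∈ OP n, ((n : ℤ) * sel n s ε q - (sel n s ε q : ℤ) ^ 2) ≤ m + n := by
  classical
  rcases Nat.eq_zero_or_pos n with hn | hn
  · subst hn
    have : OP 0 = ∅ := by
      ext q; rw [mem_OP]; simp only [Finset.notMem_empty, iff_false]
      rintro ⟨-, h, h'⟩
      have := h'.pos
      omega
    rw [this]; simp
  rw [← Finset.sum_image (f := fun x : ℕ => (n : ℤ) * x - (x : ℤ) ^ 2) (g := sel n s ε)
    (fun q hq r hr h => sel_inj hq hr h)]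
  apply total (s := s)
  · intro x hx
    obtain ⟨q, hq, rfl⟩ := Finset.mem_image.1 hx
    exact sel_bd hq
  · intro x hx
    obtain ⟨q, hq, rfl⟩ := Finset.mem_image.1 hx
    have h3 := sel_bd (s := s) (ε := ε) hq
    have := (h1 _ (Finset.mem_Icc.2 h3) _ (mem_prog (d := sel n s ε q) le_rfl hn)).1
    simpa using this
  · intro x hx
    obtain ⟨q, hq, rfl⟩ := Finset.mem_image.1 hx
    have h3 := sel_bd (s := s) (ε := ε) hq
    have := (h1 _ (Finset.mem_Icc.2 h3) _ (mem_prog (d := sel n s ε q) hn le_rfl)).2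
    push_cast at this
    exact this
  · intro x hx y hy hxy hle
    obtain ⟨q, hq, rfl⟩ := Finset.mem_image.1 hx
    obtain ⟨r, hr, rfl⟩ := Finset.mem_image.1 hy
    exact pack_gap h2 (Finset.mem_Icc.2 (sel_bd hq)) (Finset.mem_Icc.2 (sel_bd hr)) hxy
      (sel_gcd hq hr (fun h => hxy (by rw [h]))) hle

/-- The two residue classes together. -/
lemma main_bound {n m : ℕ} (hp : PackInto (Finset.Icc 1 n) (prog n) m) :
    ∑ q ∈ OP n, (2 * ((n : ℤ) * q - (q : ℤ) ^ 2) + max ((n : ℤ) * q - 3 * (q : ℤ) ^ 2) 0)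
      ≤ 2 * ((m : ℤ) + n) := by
  obtain ⟨s, h1, h2⟩ := hp
  have e0 := class_bound h1 h2 0
  have e1 := class_bound h1 h2 1
  have e2 : ∑ q ∈ OP n, (2 * ((n : ℤ) * q - (q : ℤ) ^ 2) + max ((n : ℤ) * q - 3 * (q : ℤ) ^ 2) 0)
      ≤ ∑ q ∈ OP n, (((n : ℤ) * sel n s 0 q - (sel n s 0 q : ℤ) ^ 2)
        + ((n : ℤ) * sel n s 1 q - (sel n s 1 q : ℤ) ^ 2)) := by
    apply Finset.sum_le_sum
    intro q hq
    rw [mem_OP] at hq
    have hq0 : (0 : ℤ) < q := by exact_mod_cast hq.2.2.pos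
    rcases le_or_gt (3 * q) n with h3 | h3
    · have h3' : (3 : ℤ) * q ≤ n := by exact_mod_cast h3
      have hmax : max ((n : ℤ) * q - 3 * (q : ℤ) ^ 2) 0 = (n : ℤ) * q - 3 * (q : ℤ) ^ 2 := by
        apply max_eq_left
        nlinarith
      rw [hmax]
      rcases Int.even_or_odd (s (2 * q)) with hev | hod
      · have a0 : sel n s 0 q = 2 * q := by
          unfold sel; rw [if_pos]; exact ⟨h3, by simpa using hev.two_dvd⟩
        have a1 : sel n s 1 q = q := by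
          unfold sel; rw [if_neg]
          rintro ⟨-, h⟩
          obtain ⟨a, ha⟩ := hev
          omega
        rw [a0, a1]; push_cast
        nlinarith
      · have a0 : sel n s 1 q = 2 * q := by
          unfold sel; rw [if_pos]
          obtain ⟨a, ha⟩ := hod
          exact ⟨h3, by omega⟩
        have a1 : sel n s 0 q = q := by
          unfold sel; rw [if_neg]
          rintro ⟨-, h⟩
          obtain ⟨a, ha⟩ := hod
          omega
        rw [a0, a1]; push_cast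
        nlinarith
    · have h3' : (n : ℤ) < 3 * q := by exact_mod_cast h3
      have hmax : max ((n : ℤ) * q - 3 * (q : ℤ) ^ 2) 0 = 0 := by
        apply max_eq_right
        nlinarith
      rw [hmax]
      have a0 : sel n s 0 q = q := by
        unfold sel; rw [if_neg]; rintro ⟨h, -⟩; omega
      have a1 : sel n s 1 q = q := by
        unfold sel; rw [if_neg]; rintro ⟨h, -⟩; omega
      rw [a0, a1]; linarith
  refine e2.trans ?_
  rw [Finset.sum_add_distrib]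
  linarith

end Pool.Agent.Q10.PK
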