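import Pool.Agent.Q10.PK.LowerA

/-!
# The asymptotic lower bound
-/

set_option autoImplicit false

open Filter Topology Finset

namespace Pool.Agent.Q10.PK

/-- The profile of the lower bound. -/
noncomputable def hf (x : ℝ) : ℝ := x - x ^ 2 + 1 / 2 * max (x - 3 * x ^ 2) 0

lemma hf_lip : ∀ x ∈ Set.Icc (0 : ℝ) 1, ∀ y ∈ Set.Icc (0 : ℝ) 1,
    |hf x - hf y| ≤ 7 * |x - y| := by
  intro x hx y hy
  have h1 : |x ^ 2 - y ^ 2| ≤ 2 * |x - y| := by
    have : x ^ 2 - y ^ 2 = (x + y) * (x - y) := by ring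
    rw [this, abs_mul]
    apply mul_le_mul_of_nonneg_right _ (abs_nonneg _)
    rw [abs_of_nonneg (by linarith [hx.1, hy.1])]
    linarith [hx.2, hy.2]
  have h2 : |max (x - 3 * x ^ 2) 0 - max (y - 3 * y ^ 2) 0| ≤ |(x - 3 * x ^ 2) - (y - 3 * y ^ 2)| :=
    abs_max_sub_max_le_abs _ _ _
  have h3 : |(x - 3 * x ^ 2) - (y - 3 * y ^ 2)| ≤ 7 * |x - y| := by
    have : (x - 3 * x ^ 2) - (y - 3 * y ^ 2) = (x - y) - 3 * (x ^ 2 - y ^ 2) := by ring
    rw [this]
    refine (abs_sub _ _).trans ?_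
    rw [abs_mul, abs_of_pos (by norm_num : (0 : ℝ) < 3)]
    linarith
  have h4 : hf x - hf y = (x - y) - (x ^ 2 - y ^ 2)
      + 1 / 2 * (max (x - 3 * x ^ 2) 0 - max (y - 3 * y ^ 2) 0) := by
    unfold hf; ring
  rw [h4]
  refine (abs_add_le _ _).trans ?_
  have h5 := abs_sub (x - y) (x ^ 2 - y ^ 2)
  rw [abs_mul, abs_of_pos (by norm_num : (0 : ℝ) < 1 / 2)]
  linarith [abs_nonneg (x - y)]

lemma hf_cont : Continuous hf := by
  unfold hf
  fun_prop

lemma hf_int : ∫ x in (0 : ℝ)..1, hf x = 19 / 108 := by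
  have h1 : ∫ x in (0 : ℝ)..1, (x - x ^ 2 : ℝ) = 1 / 6 := by
    rw [intervalIntegral.integral_sub (Continuous.intervalIntegrable (by fun_prop) _ _)
      (Continuous.intervalIntegrable (by fun_prop) _ _)]
    rw [integral_id, integral_pow]; norm_num
  have h2 : ∫ x in (0 : ℝ)..1, max (x - 3 * x ^ 2) 0 = 1 / 54 := by
    have hc : Continuous fun x : ℝ => max (x - 3 * x ^ 2) 0 := by fun_prop
    rw [← intervalIntegral.integral_add_adjacent_intervals (b := 1 / 3)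
      (hc.intervalIntegrable _ _) (hc.intervalIntegrable _ _)]
    have e1 : ∫ x in (0 : ℝ)..(1 / 3), max (x - 3 * x ^ 2) 0
        = ∫ x in (0 : ℝ)..(1 / 3), (x - 3 * x ^ 2) := by
      apply intervalIntegral.integral_congr
      intro x hx
      rw [Set.uIcc_of_le (by norm_num)] at hx
      apply max_eq_left
      nlinarith [hx.1, hx.2]
    have e2 : ∫ x in (1 / 3 : ℝ)..1, max (x - 3 * x ^ 2) 0 = ∫ x in (1 / 3 : ℝ)..1, (0 : ℝ) := by
      apply intervalIntegral.integral_congr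
      intro x hx
      rw [Set.uIcc_of_le (by norm_num)] at hx
      apply max_eq_right
      nlinarith [hx.1, hx.2]
    rw [e1, e2, intervalIntegral.integral_sub (Continuous.intervalIntegrable (by fun_prop) _ _)
      (Continuous.intervalIntegrable (by fun_prop) _ _),
      intervalIntegral.integral_const_mul, integral_id, integral_pow]
    norm_num
  have h3 : ∫ x in (0 : ℝ)..1, hf x
      = (∫ x in (0 : ℝ)..1, (x - x ^ 2 : ℝ)) + ∫ x in (0 : ℝ)..1, 1 / 2 * max (x - 3 * x ^ 2) 0 := by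
    rw [← intervalIntegral.integral_add]
    · rfl
    · exact Continuous.intervalIntegrable (by fun_prop) _ _
    · exact Continuous.intervalIntegrable (by fun_prop) _ _
  rw [h3, h1, intervalIntegral.integral_const_mul, h2]
  norm_num

/-- The bound in real terms. -/
lemma real_bound {n m : ℕ} (hn : 2 ≤ n) (hp : PackInto (Finset.Icc 1 n) (prog n) m) :
    (n : ℝ) ^ 2 * ∑ q ∈ Pnt.P n, hf ((q : ℝ) / n) ≤ m + 4 * n := by
  have h := main_bound hp
  have hn0 : (0 : ℝ) < n := by exact_mod_cast (by omega : 0 < n)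
  have h' : ((∑ q ∈ OP n, (2 * ((n : ℤ) * q - (q : ℤ) ^ 2)
      + max ((n : ℤ) * q - 3 * (q : ℤ) ^ 2) 0) : ℤ) : ℝ) ≤ ((2 * ((m : ℤ) + n) : ℤ) : ℝ) := by
    exact_mod_cast h
  push_cast at h'
  have h2 : 2 ∈ Pnt.P n := Pnt.mem_P.2 ⟨hn, Nat.prime_two⟩
  rw [← Finset.add_sum_erase _ _ h2, mul_add]
  have h3 : (n : ℝ) ^ 2 * ∑ q ∈ (Pnt.P n).erase 2, hf ((q : ℝ) / n)
      = (∑ q ∈ OP n, (2 * ((n : ℝ) * q - (q : ℝ) ^ 2) + max ((n : ℝ) * q - 3 * (q : ℝ) ^ 2) 0)) / 2 := by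
    rw [OP, Finset.mul_sum, Finset.sum_div]
    apply Finset.sum_congr rfl
    intro q _
    have hm : (n : ℝ) ^ 2 * max ((q : ℝ) / n - 3 * ((q : ℝ) / n) ^ 2) 0
        = max ((n : ℝ) * q - 3 * (q : ℝ) ^ 2) 0 := by
      rw [mul_max_of_nonneg _ _ (by positivity)]
      congr 1
      · field_simp
      · ring
    have : (n : ℝ) ^ 2 * hf ((q : ℝ) / n) = ((n : ℝ) * q - (q : ℝ) ^ 2)
        + 1 / 2 * ((n : ℝ) ^ 2 * max ((q : ℝ) / n - 3 * ((q : ℝ) / n) ^ 2) 0) := by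
      unfold hf
      field_simp
    rw [this, hm]
    ring
  have h4 : (n : ℝ) ^ 2 * hf (((2 : ℕ) : ℝ) / n) ≤ 3 * n := by
    have hx : hf (((2 : ℕ) : ℝ) / n) ≤ 3 / n := by
      unfold hf
      have e1 : (0 : ℝ) ≤ (((2 : ℕ) : ℝ) / n) ^ 2 := by positivity
      have e0 : (0 : ℝ) ≤ (((2 : ℕ) : ℝ) / n) := by positivity
      have e2 : max ((((2 : ℕ) : ℝ) / n) - 3 * (((2 : ℕ) : ℝ) / n) ^ 2) 0 ≤ ((2 : ℕ) : ℝ) / n :=
        max_le (by linarith) e0
      have e3 : ((2 : ℕ) : ℝ) / n = 2 * (1 / n) := by push_cast; ring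
      have e4 : (3 : ℝ) / n = 3 * (1 / n) := by ring
      rw [e4]
      rw [e3] at e1 e2 ⊢
      linarith
    calc (n : ℝ) ^ 2 * hf (((2 : ℕ) : ℝ) / n) ≤ (n : ℝ) ^ 2 * (3 / (n : ℝ)) := by gcongr
      _ = 3 * (n : ℝ) := by field_simp
  rw [h3]
  linarith

/-- Every constant less than `19 / 108` is eventually a lower bound for `M n * log n / n ^ 3`. -/
theorem lower (c : ℝ) (hc : c < 19 / 108) :
    ∀ᶠ n : ℕ in atTop, c * (n : ℝ) ^ 3 / Real.log n ≤ M n := by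
  have h1 := Pnt.equi hf 7 hf_lip hf_cont.continuousOn
  rw [hf_int] at h1
  have h2 : Tendsto (fun n : ℕ => 4 * (Real.log n / (n : ℝ) ^ 2)) atTop (𝓝 0) := by
    have h3 : Tendsto (fun x : ℝ => Real.log x / x ^ 2) atTop (𝓝 0) := by
      have := (isLittleO_log_rpow_atTop (by norm_num : (0 : ℝ) < 2)).tendsto_div_nhds_zero
      refine this.congr fun x => ?_
      norm_num
    have := (h3.comp tendsto_natCast_atTop_atTop).const_mul 4
    simpa using this
  have h3 := h1.sub h2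
  rw [sub_zero] at h3
  filter_upwards [h3.eventually (eventually_gt_nhds hc), eventually_ge_atTop 2] with n hn hn2
  have hn0 : (0 : ℝ) < n := by exact_mod_cast (by omega : 0 < n)
  have hlog : 0 < Real.log n := Real.log_pos (by exact_mod_cast (by omega : 1 < n))
  have h4 := real_bound hn2 (pack_M n)
  rw [div_le_iff₀ hlog]
  have h5 : c * (n : ℝ) ^ 3 ≤ ((∑ p ∈ Pnt.P n, hf ((p : ℝ) / n)) * Real.log n / n
      - 4 * (Real.log n / (n : ℝ) ^ 2)) * (n : ℝ) ^ 3 := by gcongr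
  refine h5.trans ?_
  have h6 : ((∑ p ∈ Pnt.P n, hf ((p : ℝ) / n)) * Real.log n / n
      - 4 * (Real.log n / (n : ℝ) ^ 2)) * (n : ℝ) ^ 3
      = ((n : ℝ) ^ 2 * ∑ q ∈ Pnt.P n, hf ((q : ℝ) / n) - 4 * n) * Real.log n := by
    field_simp
  rw [h6]
  gcongr
  linarith

/-- The conjectured asymptotic formula fails. -/
theorem not_sixth : ¬ Tendsto (fun n : ℕ => (M n : ℝ) * Real.log n / (n : ℝ) ^ 3) atTop (𝓝 (1 / 6)) := by
  intro h
  have h1 := lower (37 / 216) (by norm_num)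
  have h2 : ∀ᶠ n : ℕ in atTop, (37 / 216 : ℝ) ≤ (M n : ℝ) * Real.log n / (n : ℝ) ^ 3 := by
    filter_upwards [h1, eventually_ge_atTop 2] with n hn hn2
    have hn0 : (0 : ℝ) < n := by exact_mod_cast (by omega : 0 < n)
    have hlog : 0 < Real.log n := Real.log_pos (by exact_mod_cast (by omega : 1 < n))
    rw [div_le_iff₀ hlog] at hn
    rw [le_div_iff₀ (by positivity)]
    exact hn
  have h3 := ge_of_tendsto h h2
  norm_num at h3

end Pool.Agent.Q10.PK
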