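import Pool.Agent.Q10.PK.Lower

/-!
# The lower bound for families of progressions with prime differences
-/

set_option autoImplicit false

open Filter Topology Finset

namespace Pool.Agent.Q10.PK

lemma meet' {d e Nd Ne : ℕ} {c : ℤ} (hd : 0 < d) (he : 0 < e) (hdn : d ≤ Ne)
    (hg : (Nat.gcd d e : ℤ) ∣ c) (hc0 : 0 ≤ c) (hc : c < d * ((Nd : ℤ) - e)) :
    ∃ i ∈ Finset.Icc 1 Nd, ∃ j ∈ Finset.Icc 1 Ne, (i : ℤ) * d = c + j * e := by
  obtain ⟨j0, hj0⟩ : ∃ j0 : ℤ, (d : ℤ) ∣ c + j0 * e := by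
    obtain ⟨t, ht⟩ := hg
    have hb := Int.gcd_eq_gcd_ab (d : ℤ) (e : ℤ)
    rw [Int.gcd_natCast_natCast] at hb
    refine ⟨-t * Int.gcdB d e, ⟨t * Int.gcdA d e, ?_⟩⟩
    rw [ht, hb]; ring
  have hd' : (0 : ℤ) < d := by exact_mod_cast hd
  have he' : (0 : ℤ) < e := by exact_mod_cast he
  obtain ⟨j, hj1, hj2, hj3⟩ : ∃ j : ℤ, 1 ≤ j ∧ j ≤ d ∧ (d : ℤ) ∣ c + j * e := by
    refine ⟨(j0 - 1) % d + 1, ?_, ?_, ?_⟩
    · have := Int.emod_nonneg (j0 - 1) hd'.ne'; omega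
    · have := Int.emod_lt_of_pos (j0 - 1) hd'; omega
    · have h1 : c + ((j0 - 1) % d + 1) * e = (c + j0 * e) - d * ((j0 - 1) / d * e) := by
        have := Int.emod_add_mul_ediv (j0 - 1) d
        have h2 : (j0 - 1) % d = (j0 - 1) - d * ((j0 - 1) / d) := by linarith
        rw [h2]; ring
      rw [h1]
      exact dvd_sub hj0 (dvd_mul_right _ _)
  obtain ⟨i, hi⟩ := hj3
  have hi1 : 1 ≤ i := by
    by_contra hcon
    have : i ≤ 0 := by omega
    nlinarith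
  have hi2 : i ≤ Nd := by
    by_contra hcon
    have h1 : (Nd : ℤ) + 1 ≤ i := by omega
    have h2 : (d : ℤ) * ((Nd : ℤ) + 1) ≤ c + j * e := by rw [hi]; gcongr
    have h3 : j * e ≤ (d : ℤ) * e := by gcongr
    nlinarith
  have hdn' : (d : ℤ) ≤ Ne := by exact_mod_cast hdn
  refine ⟨i.toNat, ?_, j.toNat, ?_, ?_⟩
  · rw [Finset.mem_Icc]; omega
  · rw [Finset.mem_Icc]; omega
  · rw [Int.toNat_of_nonneg (by omega), Int.toNat_of_nonneg (by omega), hi]; ring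

lemma chain' {N : ℕ → ℕ} {s : ℕ → ℤ} {S0 : ℤ} (C : Finset ℕ) :
    ∀ f : ℕ, f ∉ C → (∀ x ∈ insert f C, S0 ≤ s x) → (∀ x ∈ C, s x ≤ s f) →
      (∀ x ∈ insert f C, ∀ y ∈ insert f C, x ≠ y → s x ≤ s y →
        (x : ℤ) * ((N x : ℤ) - y) ≤ s y - s x) →
      2 * ∑ x ∈ C, ((N x : ℤ) * x - x ^ 2) - (f : ℤ) ^ 2 ≤ 2 * (s f - S0) := by
  induction C using Finset.induction_on_max_value (f := s) with
  | empty =>
    intro f _ h2 _ _
    have := h2 f (by simp)
    simp only [Finset.sum_empty]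
    nlinarith [sq_nonneg (f : ℤ)]
  | insert a C ha hmax ih =>
    intro f hf h2 h3 h4
    have h5 := ih a ha (fun x hx => h2 x (Finset.mem_insert_of_mem hx)) hmax
      (fun x hx y hy => h4 x (Finset.mem_insert_of_mem hx) y (Finset.mem_insert_of_mem hy))
    have h6 := h4 a (by simp) f (by simp) (fun h => hf (by rw [← h]; simp)) (h3 a (by simp))
    rw [Finset.sum_insert ha]
    nlinarith [sq_nonneg ((a : ℤ) - f)]

/-- **The lower bound.** -/
theorem lower_gen {N : ℕ → ℕ} {X m : ℕ} (C : Finset ℕ) (hp : ∀ p ∈ C, p.Prime)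
    (hX : ∀ p ∈ C, p ≤ X) (hN : ∀ p ∈ C, ∀ q ∈ C, p ≤ N q)
    (h : PackInto C (fun p => prog (N p) p) m) :
    ∑ x ∈ C, ((N x : ℤ) * x - x ^ 2) ≤ m + X := by
  rcases C.eq_empty_or_nonempty with h0 | h0
  · subst h0; simp; positivity
  obtain ⟨s, h1, h2⟩ := h
  obtain ⟨f, hf, hmax⟩ := Finset.exists_max_image C s h0
  have hgap : ∀ x ∈ C, ∀ y ∈ C, x ≠ y → s x ≤ s y → (x : ℤ) * ((N x : ℤ) - y) ≤ s y - s x := by
    intro x hx y hy hxy hle
    by_contra hcon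
    push Not at hcon
    have hg : Nat.gcd x y = 1 := (Nat.coprime_primes (hp x hx) (hp y hy)).2 hxy
    obtain ⟨i, hi, j, hj, hij⟩ := meet' (Nd := N x) (Ne := N y) (d := x) (e := y) (c := s y - s x)
      (hp x hx).pos (hp y hy).pos (hN x hx y hy) (by rw [hg]; simp) (by omega) hcon
    rw [Finset.mem_Icc] at hi hj
    refine h2 x hx y hy hxy (i * x) (mem_prog hi.1 hi.2) (j * y) (mem_prog hj.1 hj.2) ?_
    push_cast
    linarith
  have hch := chain' (N := N) (s := s) (S0 := 1 - X) (C.erase f) f (by simp)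
    (by
      rw [Finset.insert_erase hf]
      intro x hx
      have e1 : 1 ≤ N x := (hp x hx).pos.trans_le (hN x hx x hx)
      have e2 := (h1 x hx (1 * x) (mem_prog le_rfl e1)).1
      have e3 := hX x hx
      push_cast at e2
      omega)
    (fun x hx => hmax x (Finset.mem_of_mem_erase hx))
    (by rw [Finset.insert_erase hf]; exact hgap)
  rw [← Finset.add_sum_erase C _ hf]
  have e1 : 1 ≤ N f := (hp f hf).pos.trans_le (hN f hf f hf)
  have h5 := (h1 f hf (N f * f) (mem_prog e1 le_rfl)).2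
  push_cast at h5
  have h6 : (0 : ℤ) ≤ (f : ℤ) ^ 2 := by positivity
  linarith

end Pool.Agent.Q10.PK
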