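import Pool.Agent.Cov.PNT

/-!
# Equidistribution of the primes up to `n` in `[0, n]`

`(log n / n) * ∑_{p ≤ n} h (p / n) → ∫_0^1 h` for Lipschitz functions `h`.
-/

set_option autoImplicit false

open Filter Topology Finset

namespace Pool.Agent.Q10.PK.Pnt

/-- The primes up to `n`. -/
def P (n : ℕ) : Finset ℕ := (Finset.range (n + 1)).filter Nat.Prime

lemma mem_P {n p : ℕ} : p ∈ P n ↔ p ≤ n ∧ p.Prime := by
  simp [P, Nat.lt_succ_iff]

lemma card_P (n : ℕ) : (P n).card = Nat.primeCounting n := by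
  rw [P, Nat.primeCounting, Nat.primeCounting', Nat.count_eq_card_filter_range]

lemma pi_nat : Tendsto (fun n : ℕ => ((P n).card : ℝ) * Real.log n / n) atTop (𝓝 1) := by
  have h := Pool.Agent.Cov.PNT.pi_tendsto.comp tendsto_natCast_atTop_atTop
  refine h.congr fun n => ?_
  simp [card_P]

/-- `π(⌊k n / K⌋) log n / n → k / K`. -/
lemma pi_frac (K k : ℕ) (hK : 0 < K) :
    Tendsto (fun n : ℕ => ((P (k * n / K)).card : ℝ) * Real.log n / n) atTop
      (𝓝 ((k : ℝ) / K)) := by
  rcases Nat.eq_zero_or_pos k with hk | hk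
  · subst hk
    have h0 : (P 0).card = 0 := by decide
    simp [h0]
  have hK' : (0 : ℝ) < K := by exact_mod_cast hK
  have hk' : (0 : ℝ) < k := by exact_mod_cast hk
  have hc : (0 : ℝ) < (k : ℝ) / K := by positivity
  -- real version
  have hx : Tendsto (fun n : ℕ => (k : ℝ) / K * n) atTop atTop :=
    tendsto_natCast_atTop_atTop.const_mul_atTop hc
  have h1 := Pool.Agent.Cov.PNT.pi_tendsto.comp hx
  have hfl : ∀ n : ℕ, ⌊(k : ℝ) / K * n⌋₊ = k * n / K := by
    intro n
    have : (k : ℝ) / K * n = ((k * n : ℕ) : ℝ) / (K : ℕ) := by push_cast; ring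
    rw [this, Nat.floor_div_eq_div]
  -- log ratio
  have h2 : Tendsto (fun n : ℕ => Real.log n / Real.log ((k : ℝ) / K * n)) atTop (𝓝 1) := by
    have hl : Tendsto (fun n : ℕ => Real.log ((k : ℝ) / K) / Real.log n) atTop (𝓝 0) :=
      (Real.tendsto_log_atTop.comp tendsto_natCast_atTop_atTop).const_div_atTop _
    have h3 : Tendsto (fun n : ℕ => (Real.log ((k : ℝ) / K) / Real.log n + 1)⁻¹) atTop (𝓝 1) := by
      have := (hl.add_const 1).inv₀ (by norm_num)
      simpa using this
    refine h3.congr' ?_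
    filter_upwards [eventually_ge_atTop 2] with n hn
    have hn0 : (0 : ℝ) < n := by exact_mod_cast (by omega : 0 < n)
    have hln : Real.log n ≠ 0 := by
      apply ne_of_gt; apply Real.log_pos; exact_mod_cast (by omega : 1 < n)
    rw [Real.log_mul hc.ne' hn0.ne']
    have : Real.log ((k : ℝ) / K) / Real.log n + 1 =
        (Real.log ((k : ℝ) / K) + Real.log n) / Real.log n := by field_simp
    rw [this, inv_div]
  have h4 := (h1.mul h2).mul_const ((k : ℝ) / K)
  simp only [one_mul, mul_one] at h4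
  refine h4.congr' ?_
  have hlog : ∀ᶠ n : ℕ in atTop, 0 < Real.log ((k : ℝ) / K * n) := by
    have := hx.eventually (eventually_gt_atTop 1)
    filter_upwards [this] with n hn using Real.log_pos hn
  filter_upwards [hlog, eventually_ge_atTop 1] with n hn hn1
  have hn0 : (0 : ℝ) < n := by exact_mod_cast hn1
  simp only [Function.comp]
  rw [hfl n, card_P]
  have e1 : (k : ℝ) / K * n ≠ 0 := (mul_pos hc hn0).ne'
  have e2 := hn.ne'
  have hKn := hK'.ne'
  have hkn := hk'.ne'
  have hnn := hn0.ne'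
  rw [div_mul_div_comm, div_mul_eq_mul_div, div_eq_div_iff (mul_ne_zero e1 e2) hnn]
  field_simp

/-- The block of `p`: `p ∈ ((k - 1) n / K, k n / K]`. -/
def blk (K n p : ℕ) : ℕ := (p * K + n - 1) / n

lemma blk_spec {K n p k : ℕ} (hK : 0 < K) (hn : 0 < n) (hp : 0 < p) :
    blk K n p = k ↔ (k - 1) * n < p * K ∧ p * K ≤ k * n ∧ 0 < k := by
  unfold blk
  have hpK : 0 < p * K := Nat.mul_pos hp hK
  constructor
  · intro h
    have h1 := Nat.div_mul_le_self (p * K + n - 1) n
    have h2 := Nat.lt_div_mul_add (a := p * K + n - 1) hn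
    rw [h] at h1 h2
    have hk : 0 < k := by
      rw [← h]; exact Nat.div_pos (by omega) hn
    obtain ⟨j, rfl⟩ : ∃ j, k = j + 1 := ⟨k - 1, by omega⟩
    simp only [Nat.add_sub_cancel]
    rw [Nat.add_mul] at h1 h2 ⊢
    refine ⟨by omega, by omega, hk⟩
  · rintro ⟨h1, h2, h3⟩
    obtain ⟨j, rfl⟩ : ∃ j, k = j + 1 := ⟨k - 1, by omega⟩
    simp only [Nat.add_sub_cancel] at h1
    rw [Nat.add_mul] at h2
    apply Nat.div_eq_of_lt_le
    · rw [Nat.add_mul]; omega
    · rw [Nat.add_mul, Nat.add_mul]; omega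

lemma blk_card {K n k : ℕ} (hK : 0 < K) (hn : 0 < n) (hk : 0 < k) (hkK : k ≤ K) :
    (((P n).filter (fun p => blk K n p = k)).card : ℝ)
      = ((P (k * n / K)).card : ℝ) - (P ((k - 1) * n / K)).card := by
  have hsub : P ((k - 1) * n / K) ⊆ P (k * n / K) := by
    intro p hp
    rw [mem_P] at hp ⊢
    refine ⟨hp.1.trans ?_, hp.2⟩
    apply Nat.div_le_div_right
    exact Nat.mul_le_mul_right _ (by omega)
  have : (P n).filter (fun p => blk K n p = k) = P (k * n / K) \ P ((k - 1) * n / K) := by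
    ext p
    simp only [Finset.mem_filter, Finset.mem_sdiff, mem_P]
    constructor
    · rintro ⟨⟨h1, h2⟩, h3⟩
      rw [blk_spec hK hn h2.pos] at h3
      refine ⟨⟨(Nat.le_div_iff_mul_le hK).2 h3.2.1, h2⟩, ?_⟩
      rintro ⟨h4, -⟩
      have := (Nat.le_div_iff_mul_le hK).1 h4
      omega
    · rintro ⟨⟨h1, h2⟩, h3⟩
      have h4 := (Nat.le_div_iff_mul_le hK).1 h1
      refine ⟨⟨?_, h2⟩, ?_⟩
      · have : p * K ≤ n * K := by
          calc p * K ≤ k * n := h4
            _ ≤ K * n := Nat.mul_le_mul_right _ hkK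
            _ = n * K := Nat.mul_comm _ _
        exact Nat.le_of_mul_le_mul_right this hK
      · rw [blk_spec hK hn h2.pos]
        refine ⟨?_, h4, hk⟩
        by_contra hc
        exact h3 ⟨(Nat.le_div_iff_mul_le hK).2 (not_lt.1 hc), h2⟩
  rw [this, card_sdiff_of_subset hsub, Nat.cast_sub (card_le_card hsub)]

theorem equi (h : ℝ → ℝ) (L : ℝ) (hL : ∀ x ∈ Set.Icc (0 : ℝ) 1, ∀ y ∈ Set.Icc (0 : ℝ) 1,
    |h x - h y| ≤ L * |x - y|) (hcont : ContinuousOn h (Set.Icc 0 1)) :
    Tendsto (fun n : ℕ => (∑ p ∈ P n, h ((p : ℝ) / n)) * Real.log n / n) atTop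
      (𝓝 (∫ x in (0 : ℝ)..1, h x)) := by
  have hL0 : 0 ≤ L := by
    have := hL 0 (by simp) 1 (by simp)
    have h2 : |(0 : ℝ) - 1| = 1 := by norm_num
    rw [h2, mul_one] at this
    exact (abs_nonneg _).trans this
  -- Riemann sums
  have hR : ∀ K : ℕ, 0 < K →
      |(∑ k ∈ Finset.range K, h (((k + 1 : ℕ) : ℝ) / K)) / K - ∫ x in (0 : ℝ)..1, h x| ≤ L / K := by
    intro K hK
    have hK' : (0 : ℝ) < K := by exact_mod_cast hK
    have hii : ∀ k < K, IntervalIntegrable h MeasureTheory.volume ((k : ℝ) / K)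
        (((k + 1 : ℕ) : ℝ) / K) := by
      intro k hk
      apply ContinuousOn.intervalIntegrable
      apply hcont.mono
      have hle : (k : ℝ) / K ≤ ((k + 1 : ℕ) : ℝ) / K := by
        apply div_le_div_of_nonneg_right _ hK'.le
        push_cast; linarith
      rw [Set.uIcc_of_le hle]
      intro x hx
      refine ⟨(by positivity : (0 : ℝ) ≤ (k : ℝ) / K).trans hx.1, hx.2.trans ?_⟩
      rw [div_le_one hK']
      exact_mod_cast hk
    have hs : ∫ x in (0 : ℝ)..1, h x = ∑ k ∈ Finset.range K,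
        ∫ x in ((k : ℝ) / K)..(((k + 1 : ℕ) : ℝ) / K), h x := by
      have := intervalIntegral.sum_integral_adjacent_intervals
        (a := fun k : ℕ => (k : ℝ) / K) (n := K) (f := h) (μ := MeasureTheory.volume) hii
      rw [this]
      simp [hK'.ne']
    have hterm : ∀ k ∈ Finset.range K,
        |h (((k + 1 : ℕ) : ℝ) / K) / K - ∫ x in ((k : ℝ) / K)..(((k + 1 : ℕ) : ℝ) / K), h x|
          ≤ L / K ^ 2 := by
      intro k hk
      rw [Finset.mem_range] at hk
      have hle : (k : ℝ) / K ≤ ((k + 1 : ℕ) : ℝ) / K := by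
        apply div_le_div_of_nonneg_right _ hK'.le
        push_cast; linarith
      have hlen : ((k + 1 : ℕ) : ℝ) / K - (k : ℝ) / K = 1 / K := by
        push_cast; field_simp; ring
      have hc : ∫ x in ((k : ℝ) / K)..(((k + 1 : ℕ) : ℝ) / K), h (((k + 1 : ℕ) : ℝ) / K)
          = h (((k + 1 : ℕ) : ℝ) / K) / K := by
        rw [intervalIntegral.integral_const, hlen, smul_eq_mul]; ring
      rw [← hc, ← intervalIntegral.integral_sub intervalIntegrable_const (hii k hk)]
      have := intervalIntegral.norm_integral_le_of_norm_le_const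
        (a := (k : ℝ) / K) (b := ((k + 1 : ℕ) : ℝ) / K)
        (f := fun x => h (((k + 1 : ℕ) : ℝ) / K) - h x) (C := L / K) ?_
      · rw [Real.norm_eq_abs, hlen, abs_of_pos (by positivity : (0 : ℝ) < 1 / K)] at this
        calc _ ≤ L / K * (1 / K) := this
          _ = L / K ^ 2 := by field_simp
      · intro x hx
        rw [Set.uIoc_of_le hle] at hx
        have h1 : ((k + 1 : ℕ) : ℝ) / K ≤ 1 := by
          rw [div_le_one hK']; exact_mod_cast hk
        have h0 : (0 : ℝ) ≤ (k : ℝ) / K := by positivity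
        rw [Real.norm_eq_abs]
        refine (hL _ ⟨by positivity, h1⟩ x ⟨h0.trans hx.1.le, hx.2.trans h1⟩).trans ?_
        have : |((k + 1 : ℕ) : ℝ) / K - x| ≤ 1 / K := by
          rw [abs_of_nonneg (by linarith [hx.2])]
          have := hx.1
          linarith [hlen]
        calc L * |((k + 1 : ℕ) : ℝ) / K - x| ≤ L * (1 / K) := by gcongr
          _ = L / K := by ring
    rw [hs, Finset.sum_div, ← Finset.sum_sub_distrib]
    refine (Finset.abs_sum_le_sum_abs _ _).trans ((Finset.sum_le_sum hterm).trans ?_)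
    rw [Finset.sum_const, Finset.card_range, nsmul_eq_mul]
    apply le_of_eq
    field_simp
  rw [Metric.tendsto_atTop]
  intro ε hε
  obtain ⟨K, hK0, hK⟩ : ∃ K : ℕ, 0 < K ∧ 4 * L / K < ε / 2 := by
    obtain ⟨K, hK⟩ := exists_nat_gt (4 * L / (ε / 2))
    have hK1 : 4 * L / (ε / 2) < ((K + 1 : ℕ) : ℝ) := by push_cast; linarith
    refine ⟨K + 1, by omega, ?_⟩
    have hp : (0 : ℝ) < ((K + 1 : ℕ) : ℝ) := by positivity
    rw [div_lt_iff₀ (by positivity)] at hK1
    rw [div_lt_iff₀ hp]
    linarith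
  have hK' : (0 : ℝ) < K := by exact_mod_cast hK0
  -- the limit of the block sums
  have hB : Tendsto (fun n : ℕ => ∑ k ∈ Finset.range K, h (((k + 1 : ℕ) : ℝ) / K) *
      (((P ((k + 1) * n / K)).card : ℝ) * Real.log n / n
        - ((P (k * n / K)).card : ℝ) * Real.log n / n)) atTop
      (𝓝 ((∑ k ∈ Finset.range K, h (((k + 1 : ℕ) : ℝ) / K)) / K)) := by
    have := tendsto_finsetSum (Finset.range K) (fun k _ =>
      (((pi_frac K (k + 1) hK0).sub (pi_frac K k hK0)).const_mul (h (((k + 1 : ℕ) : ℝ) / K))))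
    refine this.congr' (Eventually.of_forall fun n => rfl) |>.trans ?_
    apply le_of_eq
    congr 1
    rw [Finset.sum_div]
    apply Finset.sum_congr rfl
    intro k _
    push_cast
    field_simp
    ring
  have e1 := (Metric.tendsto_atTop.1 hB) (ε / 4) (by positivity)
  have e2 := (Metric.tendsto_atTop.1 pi_nat) 1 one_pos
  obtain ⟨N1, hN1⟩ := e1
  obtain ⟨N2, hN2⟩ := e2
  refine ⟨max (max N1 N2) 2, fun n hn => ?_⟩
  have hn1 := hN1 n (by omega)
  have hn2 := hN2 n (by omega)
  have hn3 : 2 ≤ n := by omega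
  have hn0 : (0 : ℝ) < n := by exact_mod_cast (by omega : 0 < n)
  have hlog : 0 < Real.log n := Real.log_pos (by exact_mod_cast (by omega : 1 < n))
  -- compare
  have hfib : ∑ k ∈ Finset.range K, h (((k + 1 : ℕ) : ℝ) / K) *
      (((P ((k + 1) * n / K)).card : ℝ) * Real.log n / n
        - ((P (k * n / K)).card : ℝ) * Real.log n / n)
      = (∑ p ∈ P n, h ((blk K n p : ℝ) / K)) * Real.log n / n := by
    have hm : ∀ p ∈ P n, blk K n p - 1 ∈ Finset.range K := by
      intro p hp
      rw [mem_P] at hp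
      have hb := (blk_spec hK0 (by omega : 0 < n) hp.2.pos).1 (rfl : blk K n p = blk K n p)
      rw [Finset.mem_range]
      have : (blk K n p - 1) * n < K * n := by
        calc (blk K n p - 1) * n < p * K := hb.1
          _ ≤ n * K := Nat.mul_le_mul_right _ hp.1
          _ = K * n := Nat.mul_comm _ _
      exact Nat.lt_of_mul_lt_mul_right this
    rw [← Finset.sum_fiberwise_of_maps_to hm, Finset.sum_mul, Finset.sum_div]
    apply Finset.sum_congr rfl
    intro k hk
    rw [Finset.mem_range] at hk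
    have hfeq : (P n).filter (fun p => blk K n p - 1 = k)
        = (P n).filter (fun p => blk K n p = k + 1) := by
      apply Finset.filter_congr
      intro p hp
      rw [mem_P] at hp
      have hb := (blk_spec hK0 (by omega : 0 < n) hp.2.pos).1 (rfl : blk K n p = blk K n p)
      omega
    rw [hfeq]
    have hval : ∑ p ∈ (P n).filter (fun p => blk K n p = k + 1), h ((blk K n p : ℝ) / K)
        = (((P ((k + 1) * n / K)).card : ℝ) - (P (k * n / K)).card) * h (((k + 1 : ℕ) : ℝ) / K) := by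
      rw [Finset.sum_congr rfl (g := fun _ => h (((k + 1 : ℕ) : ℝ) / K))
        (by intro p hp; rw [(Finset.mem_filter.1 hp).2])]
      rw [Finset.sum_const, nsmul_eq_mul, blk_card hK0 (by omega) (by omega) (by omega)]
      simp
    rw [hval]
    ring
  have hdiff : |(∑ p ∈ P n, h ((p : ℝ) / n)) * Real.log n / n
      - (∑ p ∈ P n, h ((blk K n p : ℝ) / K)) * Real.log n / n| ≤ 2 * L / K := by
    have : (∑ p ∈ P n, h ((p : ℝ) / n)) * Real.log n / n
      - (∑ p ∈ P n, h ((blk K n p : ℝ) / K)) * Real.log n / n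
      = (∑ p ∈ P n, (h ((p : ℝ) / n) - h ((blk K n p : ℝ) / K))) * (Real.log n / n) := by
      rw [Finset.sum_sub_distrib]; ring
    rw [this, abs_mul, abs_of_pos (div_pos hlog hn0)]
    have hs : |∑ p ∈ P n, (h ((p : ℝ) / n) - h ((blk K n p : ℝ) / K))| ≤ (P n).card * (L / K) := by
      refine (Finset.abs_sum_le_sum_abs _ _).trans ?_
      rw [← nsmul_eq_mul, ← Finset.sum_const]
      apply Finset.sum_le_sum
      intro p hp
      rw [mem_P] at hp
      have hb := (blk_spec hK0 (by omega : 0 < n) hp.2.pos).1 (rfl : blk K n p = blk K n p)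
      obtain ⟨hb1, hb2, hb3⟩ := hb
      have hbK : blk K n p ≤ K := by
        have : (blk K n p - 1) * n < K * n := by
          calc (blk K n p - 1) * n < p * K := hb1
            _ ≤ n * K := Nat.mul_le_mul_right _ hp.1
            _ = K * n := Nat.mul_comm _ _
        have := Nat.lt_of_mul_lt_mul_right this
        omega
      have hc1 : (((blk K n p : ℝ)) - 1) * n < p * K := by
        have : ((blk K n p - 1 : ℕ) : ℝ) = (blk K n p : ℝ) - 1 := by
          rw [Nat.cast_sub hb3]; simp
        rw [← this]; exact_mod_cast hb1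
      have hc2 : (p : ℝ) * K ≤ blk K n p * n := by exact_mod_cast hb2
      have hx1 : (p : ℝ) / n ∈ Set.Icc (0 : ℝ) 1 := by
        refine ⟨by positivity, ?_⟩
        rw [div_le_one hn0]; exact_mod_cast hp.1
      have hx2 : (blk K n p : ℝ) / K ∈ Set.Icc (0 : ℝ) 1 := by
        refine ⟨by positivity, ?_⟩
        rw [div_le_one hK']; exact_mod_cast hbK
      refine (hL _ hx1 _ hx2).trans ?_
      have : |(p : ℝ) / n - (blk K n p : ℝ) / K| ≤ 1 / K := by
        rw [abs_le]
        constructor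
        · have : (blk K n p : ℝ) / K - 1 / K ≤ (p : ℝ) / n := by
            rw [← sub_div, div_le_div_iff₀ hK' hn0]
            linarith
          linarith
        · have : (p : ℝ) / n ≤ (blk K n p : ℝ) / K := by
            rw [div_le_div_iff₀ hn0 hK']
            linarith
          have h1K : (0 : ℝ) < 1 / K := by positivity
          linarith
      calc L * |(p : ℝ) / n - (blk K n p : ℝ) / K| ≤ L * (1 / K) := by gcongr
        _ = L / K := by ring
    have hcard : ((P n).card : ℝ) * (Real.log n / n) ≤ 2 := by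
      rw [Real.dist_eq, abs_lt] at hn2
      have : ((P n).card : ℝ) * (Real.log n / n) = ((P n).card : ℝ) * Real.log n / n := by ring
      rw [this]; linarith [hn2.2]
    calc _ ≤ (P n).card * (L / K) * (Real.log n / n) := by
          apply mul_le_mul_of_nonneg_right hs (div_pos hlog hn0).le
      _ = ((P n).card * (Real.log n / n)) * (L / K) := by ring
      _ ≤ 2 * (L / K) := by
          apply mul_le_mul_of_nonneg_right hcard (by positivity)
      _ = 2 * L / K := by ring
  rw [Real.dist_eq]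
  rw [Real.dist_eq, hfib] at hn1
  have h3 := hR K hK0
  have hLK : L / K ≤ 4 * L / K / 4 := by
    apply le_of_eq; ring
  have h2LK : 2 * L / K = 4 * L / K / 2 := by ring
  have hq : (∑ p ∈ P n, h ((p : ℝ) / n)) * Real.log n / n - ∫ x in (0 : ℝ)..1, h x
      = ((∑ p ∈ P n, h ((p : ℝ) / n)) * Real.log n / n
        - (∑ p ∈ P n, h ((blk K n p : ℝ) / K)) * Real.log n / n)
      + ((∑ p ∈ P n, h ((blk K n p : ℝ) / K)) * Real.log n / n
        - (∑ k ∈ Finset.range K, h (((k + 1 : ℕ) : ℝ) / K)) / K)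
      + ((∑ k ∈ Finset.range K, h (((k + 1 : ℕ) : ℝ) / K)) / K - ∫ x in (0 : ℝ)..1, h x) := by
    ring
  rw [hq]
  calc _ ≤ |_| + |_| + |_| := abs_add_three _ _ _
    _ < 2 * L / K + ε / 4 + L / K + (ε / 4) := by
        have := abs_nonneg ((∑ k ∈ Finset.range K, h (((k + 1 : ℕ) : ℝ) / K)) / K - ∫ x in (0 : ℝ)..1, h x)
        linarith
    _ ≤ ε := by
        rw [h2LK]
        linarith

end Pool.Agent.Q10.PK.Pnt
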