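import Pool.Agent.Q10.PK.Upper
import Pool.Agent.Q10.PK.LowerG

/-!
# Equal-length progressions with prime differences
-/

set_option autoImplicit false

open Filter Topology Finset

namespace Pool.Agent.Q10.PK

/-- The least `m` such that `B_p = {p, 2p, …, np}`, `p ≤ n` prime, pack into `[m]`. -/
noncomputable def MP (n : ℕ) : ℕ :=
  sInf {m | PackInto ((Finset.Icc 1 n).filter Nat.Prime) (prog n) m}

lemma filter_eq (n : ℕ) : (Finset.Icc 1 n).filter Nat.Prime = Pnt.P n := by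
  ext p
  rw [Finset.mem_filter, Finset.mem_Icc, Pnt.mem_P]
  exact ⟨fun h => ⟨h.1.2, h.2⟩, fun h => ⟨⟨h.2.pos, h.1⟩, h.2⟩⟩

lemma MP_ne (n : ℕ) : PackInto (Pnt.P n) (prog n) ((Pnt.P n).card * (n * n)) := by
  apply pack_separate
  intro p hp x hx
  obtain ⟨i, hi, rfl⟩ := Finset.mem_image.1 hx
  rw [Finset.mem_Icc] at hi
  have h := Pnt.mem_P.1 hp
  exact ⟨Nat.mul_pos (by omega) h.2.pos, Nat.mul_le_mul hi.2 h.1⟩

lemma pack_MP (n : ℕ) : PackInto (Pnt.P n) (prog n) (MP n) := by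
  have := Nat.sInf_mem (s := {m | PackInto ((Finset.Icc 1 n).filter Nat.Prime) (prog n) m})
    ⟨_, by rw [Set.mem_setOf_eq, filter_eq]; exact MP_ne n⟩
  rw [Set.mem_setOf_eq, filter_eq] at this
  rw [MP, filter_eq]; exact this

lemma MP_le {n m : ℕ} (h : PackInto (Pnt.P n) (prog n) m) : MP n ≤ m := by
  apply Nat.sInf_le
  rw [Set.mem_setOf_eq, filter_eq]; exact h

/-- `(∑_{p ≤ n} (p / n - (p / n) ^ 2)) log n / n → 1 / 6`. -/
lemma main_sum : Tendsto (fun n : ℕ => (∑ p ∈ Pnt.P n, ((p : ℝ) / n - ((p : ℝ) / n) ^ 2)) *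
    Real.log n / n) atTop (𝓝 (1 / 6)) := by
  have h := Pnt.equi (fun x => x - x ^ 2) 3 (by
    intro x hx y hy
    have h1 : |x ^ 2 - y ^ 2| ≤ 2 * |x - y| := by
      have : x ^ 2 - y ^ 2 = (x + y) * (x - y) := by ring
      rw [this, abs_mul]
      apply mul_le_mul_of_nonneg_right _ (abs_nonneg _)
      rw [abs_of_nonneg (by linarith [hx.1, hy.1])]
      linarith [hx.2, hy.2]
    have h2 : x - x ^ 2 - (y - y ^ 2) = (x - y) - (x ^ 2 - y ^ 2) := by ring
    rw [h2]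
    refine (abs_sub _ _).trans ?_
    linarith) (Continuous.continuousOn (by fun_prop))
  have h2 : ∫ x in (0 : ℝ)..1, (x - x ^ 2 : ℝ) = 1 / 6 := by
    rw [intervalIntegral.integral_sub (Continuous.intervalIntegrable (by fun_prop) _ _)
      (Continuous.intervalIntegrable (by fun_prop) _ _)]
    rw [integral_id, integral_pow]; norm_num
  rw [h2] at h
  exact h

lemma log_div : Tendsto (fun n : ℕ => Real.log n / (n : ℝ)) atTop (𝓝 0) := by
  have h3 : Tendsto (fun x : ℝ => Real.log x / x) atTop (𝓝 0) := by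
    have := (isLittleO_log_rpow_atTop (by norm_num : (0 : ℝ) < 1)).tendsto_div_nhds_zero
    refine this.congr fun x => ?_
    norm_num
  exact h3.comp tendsto_natCast_atTop_atTop

lemma log_div_sq : Tendsto (fun n : ℕ => Real.log n / (n : ℝ) ^ 2) atTop (𝓝 0) := by
  have h3 : Tendsto (fun x : ℝ => Real.log x / x ^ 2) atTop (𝓝 0) := by
    have := (isLittleO_log_rpow_atTop (by norm_num : (0 : ℝ) < 2)).tendsto_div_nhds_zero
    refine this.congr fun x => ?_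
    norm_num
  exact h3.comp tendsto_natCast_atTop_atTop

lemma row2_lower (n : ℕ) (hn : 0 < n) :
    (n : ℝ) ^ 2 * ∑ p ∈ Pnt.P n, ((p : ℝ) / n - ((p : ℝ) / n) ^ 2) ≤ MP n + n := by
  have h := lower_gen (N := fun _ => n) (X := n) (Pnt.P n) (fun p hp => (Pnt.mem_P.1 hp).2)
    (fun p hp => (Pnt.mem_P.1 hp).1) (fun p hp q _ => (Pnt.mem_P.1 hp).1) (pack_MP n)
  have h' : ((∑ x ∈ Pnt.P n, ((n : ℤ) * x - x ^ 2) : ℤ) : ℝ) ≤ (((MP n : ℤ) + n : ℤ) : ℝ) := by
    exact_mod_cast h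
  push_cast at h'
  refine le_trans (le_of_eq ?_) h'
  rw [Finset.mul_sum]
  apply Finset.sum_congr rfl
  intro p _
  have : (n : ℝ) ≠ 0 := by positivity
  field_simp

lemma row2_upper {K : ℕ} (hK : 2 ≤ K) {ε : ℝ} (he0 : 0 < ε) (he1 : ε < 1) :
    ∃ C : ℕ, ∀ᶠ n : ℕ in atTop, (MP n : ℝ) ≤
      (n : ℝ) ^ 2 * ∑ p ∈ Pnt.P n, ((p : ℝ) / n - ((p : ℝ) / n) ^ 2)
        + (Pnt.P n).card * ((3 / K + ε) * (n : ℝ) ^ 2 + n + 1) + K * ((n : ℝ) + (C + 1) * (n : ℝ) ^ 2) := by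
  obtain ⟨C, hC⟩ := upper hK he0 he1
  refine ⟨C, ?_⟩
  have hK0 : 0 < K := by omega
  have hK' : (0 : ℝ) < K := by exact_mod_cast hK0
  filter_upwards [hC, eventually_gt_atTop 0] with n hn hn0
  have hn' : (0 : ℝ) < n := by exact_mod_cast hn0
  have hcond : ∀ k < K, 1 ≤ k → ((k : ℝ) * n / K) ^ 2 * K
      ≤ (K - 1) * (((n * ((k + 1) * n / K) : ℕ) : ℝ) + n) := by
    intro k hk hk1
    have h1 : ((k : ℝ) + 1) * n / K ≤ (((k + 1) * n / K : ℕ) : ℝ) + 1 := by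
      have h2 : (k + 1) * n < ((k + 1) * n / K + 1) * K := by
        calc (k + 1) * n < (k + 1) * n / K * K + K := Nat.lt_div_mul_add (a := (k + 1) * n) hK0
          _ = ((k + 1) * n / K + 1) * K := by ring
      rw [div_le_iff₀ hK']
      exact_mod_cast h2.le
    have hk' : (k : ℝ) + 1 ≤ K := by exact_mod_cast hk
    have hk1' : (1 : ℝ) ≤ k := by exact_mod_cast hk1
    push_cast
    have h2 : (n : ℝ) * (((k : ℝ) + 1) * n / K) ≤ (n : ℝ) * (((k + 1) * n / K : ℕ) : ℝ) + n := by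
      nlinarith
    have h3 : ((k : ℝ) * n / K) ^ 2 * K = (k : ℝ) ^ 2 * ((n : ℝ) ^ 2 / K) := by field_simp
    have h4 : (n : ℝ) * (((k : ℝ) + 1) * n / K) = (k + 1) * ((n : ℝ) ^ 2 / K) := by ring
    rw [h3]
    rw [h4] at h2
    have h5 : (k : ℝ) ^ 2 ≤ (K - 1) * (k + 1) := by nlinarith
    have h6 : (0 : ℝ) ≤ (n : ℝ) ^ 2 / K := by positivity
    calc (k : ℝ) ^ 2 * ((n : ℝ) ^ 2 / K) ≤ ((K - 1) * (k + 1)) * ((n : ℝ) ^ 2 / K) := by gcongr
      _ = (K - 1) * ((k + 1) * ((n : ℝ) ^ 2 / K)) := by ring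
      _ ≤ _ := by
        apply mul_le_mul_of_nonneg_left _ (by linarith)
        push_cast at h2 ⊢
        exact h2
  have h1 := hn (fun _ => n) (fun k => n * ((k + 1) * n / K)) (by
    intro k hk p hp
    obtain ⟨-, -, -, h4⟩ := (mem_Qk hK0 hn0).1 hp
    exact Nat.mul_le_mul_left _ ((Nat.le_div_iff_mul_le hK0).2 h4)) hcond
  have h2 := MP_le h1
  have h2' : (MP n : ℝ) ≤ ((∑ k ∈ Finset.range K, lenK K n ε C (n * ((k + 1) * n / K)) k : ℕ) : ℝ) := by
    exact_mod_cast h2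
  refine h2'.trans ?_
  push_cast
  have h3 : ∀ k ∈ Finset.range K, (lenK K n ε C (n * ((k + 1) * n / K)) k : ℝ)
      ≤ ∑ p ∈ Qk K n k, (((n : ℝ) * p - (p : ℝ) ^ 2) + ((3 / K + ε) * (n : ℝ) ^ 2 + n + 1))
        + ((n : ℝ) + (C + 1) * (n : ℝ) ^ 2) := by
    intro k hk
    rw [Finset.mem_range] at hk
    have hST : n * ((k + 1) * n / K) ≤ n * n := by
      apply Nat.mul_le_mul_left
      calc (k + 1) * n / K ≤ K * n / K := Nat.div_le_div_right (Nat.mul_le_mul_right _ hk)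
        _ = n := Nat.mul_div_cancel_left _ hK0
    refine (lenK_le hK0 hn0 he0 he1 hk hST (hcond k hk)).trans ?_
    have h4 : ((n : ℝ) + (n * n : ℕ) + C * (n * n : ℕ)) = (n : ℝ) + (C + 1) * (n : ℝ) ^ 2 := by
      push_cast; ring
    rw [h4]
    apply add_le_add _ le_rfl
    apply Finset.sum_le_sum
    intro p hp
    obtain ⟨hp1, hp2, hp3, hp4⟩ := (mem_Qk hK0 hn0).1 hp
    have h5 : (((n * ((k + 1) * n / K) : ℕ)) : ℝ) ≤ (k + 1) * ((n : ℝ) ^ 2 / K) := by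
      have h6 : ((((k + 1) * n / K : ℕ)) : ℝ) ≤ (((k + 1) * n : ℕ) : ℝ) / K := Nat.cast_div_le
      push_cast at h6 ⊢
      calc (n : ℝ) * ((((k + 1) * n / K : ℕ)) : ℝ) ≤ n * ((k + 1) * n / K) := by
            apply mul_le_mul_of_nonneg_left _ hn'.le
            exact_mod_cast h6
        _ = _ := by ring
    have h6 : (k : ℝ) * ((n : ℝ) ^ 2 / K) ≤ n * p := by
      have h7 : (k : ℝ) * n < p * K := by exact_mod_cast hp3
      have h8 : (k : ℝ) * ((n : ℝ) ^ 2 / K) = (k * n) * n / K := by ring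
      rw [h8, div_le_iff₀ hK']
      nlinarith
    have h7 : (3 / K + ε) * (n : ℝ) ^ 2 = (n : ℝ) ^ 2 / K + (2 / K + ε) * (n : ℝ) ^ 2 := by ring
    rw [h7]
    split_ifs with hk0
    · subst hk0
      simp only [Nat.cast_zero, zero_add, one_mul] at h5
      have h8 : (0 : ℝ) ≤ (n : ℝ) * p - (p : ℝ) ^ 2 := by
        have : (p : ℝ) ≤ n := by exact_mod_cast hp1
        nlinarith
      simp only [zero_add, one_mul] at h5 ⊢
      linarith
    · linarith
  refine (Finset.sum_le_sum h3).trans ?_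
  rw [Finset.sum_add_distrib, sum_Qk hK0 hn0, Finset.sum_add_distrib, Finset.sum_const,
    Finset.sum_const, Finset.card_range, nsmul_eq_mul, nsmul_eq_mul]
  have h4 : ∑ p ∈ Pnt.P n, ((n : ℝ) * p - (p : ℝ) ^ 2)
      = (n : ℝ) ^ 2 * ∑ p ∈ Pnt.P n, ((p : ℝ) / n - ((p : ℝ) / n) ^ 2) := by
    rw [Finset.mul_sum]
    apply Finset.sum_congr rfl
    intro p _
    field_simp
  rw [h4]

/-- **Row 2.** -/
theorem row2 : Tendsto (fun n : ℕ => (MP n : ℝ) * Real.log n / (n : ℝ) ^ 3) atTop (𝓝 (1 / 6)) := by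
  rw [tendsto_order]
  constructor
  · intro c hc
    have h3 := main_sum.sub log_div_sq
    rw [sub_zero] at h3
    filter_upwards [h3.eventually (eventually_gt_nhds hc), eventually_ge_atTop 2] with n hn hn2
    have hn0 : (0 : ℝ) < n := by exact_mod_cast (by omega : 0 < n)
    have hlog : 0 < Real.log n := Real.log_pos (by exact_mod_cast (by omega : 1 < n))
    have h4 := row2_lower n (by omega)
    rw [lt_div_iff₀ (by positivity)]
    have h5 : c * (n : ℝ) ^ 3 < ((∑ p ∈ Pnt.P n, ((p : ℝ) / n - ((p : ℝ) / n) ^ 2)) * Real.log n / n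
        - (Real.log n / (n : ℝ) ^ 2)) * (n : ℝ) ^ 3 := by gcongr
    refine h5.trans_le ?_
    have h6 : ((∑ p ∈ Pnt.P n, ((p : ℝ) / n - ((p : ℝ) / n) ^ 2)) * Real.log n / n
        - (Real.log n / (n : ℝ) ^ 2)) * (n : ℝ) ^ 3
        = ((n : ℝ) ^ 2 * ∑ p ∈ Pnt.P n, ((p : ℝ) / n - ((p : ℝ) / n) ^ 2) - n) * Real.log n := by
      field_simp
    rw [h6]
    gcongr
    linarith
  · intro c hc
    obtain ⟨η, hη⟩ : ∃ η, η = c - 1 / 6 := ⟨_, rfl⟩
    have hη0 : 0 < η := by linarith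
    obtain ⟨K, hK⟩ := exists_nat_gt (6 / η)
    obtain ⟨K, hK2, hK⟩ : ∃ K : ℕ, 2 ≤ K ∧ 6 / η < K := by
      refine ⟨K + 2, by omega, ?_⟩
      push_cast; linarith
    have hK0 : (0 : ℝ) < K := by exact_mod_cast (by omega : 0 < K)
    rw [div_lt_iff₀ hη0] at hK
    have h3K : 3 / (K : ℝ) < η / 2 := by
      rw [div_lt_iff₀ hK0]; nlinarith
    obtain ⟨ε, he0, he1, he2⟩ : ∃ ε : ℝ, 0 < ε ∧ ε < 1 ∧ ε < η / 2 :=
      ⟨min (1 / 2) (η / 4), by positivity, (min_le_left _ _).trans_lt (by norm_num),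
        (min_le_right _ _).trans_lt (by linarith)⟩
    obtain ⟨C, hC⟩ := row2_upper hK2 he0 he1
    -- the limit of the upper bound
    have hlim : Tendsto (fun n : ℕ =>
        (∑ p ∈ Pnt.P n, ((p : ℝ) / n - ((p : ℝ) / n) ^ 2)) * Real.log n / n
        + ((Pnt.P n).card : ℝ) * Real.log n / n * ((3 / K + ε) + (1 : ℝ) / n + 1 / (n : ℝ) ^ 2)
        + (K * (Real.log n / (n : ℝ) ^ 2) + K * (C + 1) * (Real.log n / (n : ℝ)))) atTop
        (𝓝 (1 / 6 + 1 * ((3 / K + ε) + 0 + 0) + (K * 0 + K * (C + 1) * 0))) := by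
      have l1 : Tendsto (fun n : ℕ => (1 : ℝ) / n) atTop (𝓝 0) := tendsto_one_div_atTop_nhds_zero_nat
      have l2 : Tendsto (fun n : ℕ => 1 / (n : ℝ) ^ 2) atTop (𝓝 0) := by
        have := l1.mul l1
        rw [zero_mul] at this
        refine this.congr fun n => ?_
        rw [one_div_mul_one_div]; ring
      exact (main_sum.add (Pnt.pi_nat.mul ((tendsto_const_nhds.add l1).add l2))).add
        ((log_div_sq.const_mul _).add (log_div.const_mul _))
    have hlt : (1 / 6 + 1 * ((3 / K + ε) + 0 + 0) + (K * 0 + K * (C + 1) * 0) : ℝ) < c := by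
      simp only [mul_zero, add_zero, one_mul]; linarith
    filter_upwards [hlim.eventually (eventually_lt_nhds hlt), hC, eventually_ge_atTop 2]
      with n hn hCn hn2
    have hn0 : (0 : ℝ) < n := by exact_mod_cast (by omega : 0 < n)
    have hlog : 0 < Real.log n := Real.log_pos (by exact_mod_cast (by omega : 1 < n))
    refine lt_of_le_of_lt ?_ hn
    rw [div_le_iff₀ (by positivity)]
    have h1 : (MP n : ℝ) * Real.log n ≤ ((n : ℝ) ^ 2 * ∑ p ∈ Pnt.P n, ((p : ℝ) / n - ((p : ℝ) / n) ^ 2)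
        + (Pnt.P n).card * ((3 / K + ε) * (n : ℝ) ^ 2 + n + 1) + K * ((n : ℝ) + (C + 1) * (n : ℝ) ^ 2))
        * Real.log n := by gcongr
    refine h1.trans (le_of_eq ?_)
    field_simp

end Pool.Agent.Q10.PK
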