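import Pool.Agent.Q10.PK.ClassD

/-!
# All progressions of multiples
-/

set_option autoImplicit false

open Filter Topology Finset

namespace Pool.Agent.Q10.PK

/-- The least `m` such that `A_d = {d, 2d, …, ⌊n / d⌋ d}`, `1 ≤ d ≤ n`, pack into `[m]`. -/
noncomputable def mAll (n : ℕ) : ℕ :=
  sInf {m | PackInto (Finset.Icc 1 n) (fun d => prog (n / d) d) m}

lemma mAll_ne (n : ℕ) : PackInto (Finset.Icc 1 n) (fun d => prog (n / d) d)
    ((Finset.Icc 1 n).card * n) :=
  pack_separate _ (fun d hd x hx => A_bd (Finset.mem_Icc.1 hd).1 hx)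

lemma pack_mAll (n : ℕ) : PackInto (Finset.Icc 1 n) (fun d => prog (n / d) d) (mAll n) :=
  Nat.sInf_mem (s := {m | PackInto (Finset.Icc 1 n) (fun d => prog (n / d) d) m}) ⟨_, mAll_ne n⟩

lemma mAll_le {n m : ℕ} (h : PackInto (Finset.Icc 1 n) (fun d => prog (n / d) d) m) :
    mAll n ≤ m := Nat.sInf_le h

lemma mP_le_mAll (n : ℕ) : mP n ≤ mAll n := by
  apply mP_le
  refine pack_sub (pack_mAll n) ?_
  rw [← filter_eq']
  exact Finset.filter_subset _ _

/-- The blocks `1 ≤ k < K`. -/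
noncomputable def setB (K J : ℕ) (k n : ℕ) : Finset ℕ :=
  if k = 0 then ∅ else setD J (Qk K (Nat.sqrt n) k) n

lemma riemann {K : ℕ} (hK : 0 < K) :
    ∑ k ∈ Finset.range K, (if k = 0 then (0 : ℝ) else 1 / K * (1 - ((k : ℝ) / K) ^ 2)) ≤ 2 / 3 := by
  have hK' : (0 : ℝ) < K := by exact_mod_cast hK
  have key : ∀ n : ℕ, ∑ k ∈ Finset.range (n + 1), (if k = 0 then (0 : ℝ) else 1 - ((k : ℝ) / K) ^ 2)
      = n - (n : ℝ) * (n + 1) * (2 * n + 1) / (6 * (K : ℝ) ^ 2) := by
    intro n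
    induction n with
    | zero => simp
    | succ n ih =>
      rw [Finset.sum_range_succ, ih, if_neg (by omega)]
      push_cast
      field_simp
      ring
  obtain ⟨m, rfl⟩ : ∃ m, K = m + 1 := ⟨K - 1, by omega⟩
  have h1 : ∑ k ∈ Finset.range (m + 1), (if k = 0 then (0 : ℝ)
      else 1 / ((m + 1 : ℕ) : ℝ) * (1 - ((k : ℝ) / ((m + 1 : ℕ) : ℝ)) ^ 2))
      = 1 / ((m + 1 : ℕ) : ℝ) * ∑ k ∈ Finset.range (m + 1), (if k = 0 then (0 : ℝ)
        else 1 - ((k : ℝ) / ((m + 1 : ℕ) : ℝ)) ^ 2) := by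
    rw [Finset.mul_sum]
    apply Finset.sum_congr rfl
    intro k _
    split_ifs <;> simp
  rw [h1, key m]
  push_cast
  have hm : (0 : ℝ) ≤ m := by positivity
  rw [div_mul_eq_mul_div, one_mul, div_le_iff₀ (by positivity)]
  have h2 : (m : ℝ) * (m + 1) * (2 * m + 1) / (6 * ((m : ℝ) + 1) ^ 2)
      = m * (2 * m + 1) / (6 * (m + 1)) := by field_simp
  rw [h2, sub_le_iff_le_add, ← sub_le_iff_le_add', le_div_iff₀ (by positivity)]
  nlinarith

/-- The classes cover `{1, …, n}`. -/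
lemma cover {K w n : ℕ} (hK : 0 < K) (hX0 : 0 < Nat.sqrt n) (hl : 1 ≤ Nat.log 2 n)
    (hp : Nat.log 2 n ^ 12 ≤ Nat.sqrt n) :
    Finset.Icc 1 n ⊆ (((((((Finset.Icc 1 (yy n) ∪ (Finset.Icc 1 n).filter
      (fun d => d ≤ DD n ∧ ∃ g ∈ Finset.Ioc (yy n) (zz n), g ∣ d)) ∪ setC K n) ∪
      (Finset.range K).biUnion (fun k => setB K (w ^ 2 * K) k n)) ∪
      setD (w ^ 2 * K) (Pnt.P ((K + 1) * Nat.sqrt n / K) \ Pnt.P (Nat.sqrt n)) n) ∪
      setD (w ^ 2 * K) (Pnt.P (w ^ 2 * Nat.sqrt n) \ Pnt.P ((K + 1) * Nat.sqrt n / K)) n) ∪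
      setE K w n) ∪ (Finset.Icc 1 n).filter (fun d => DD n < d)) := by
  classical
  intro d hd
  have hd' := Finset.mem_Icc.1 hd
  by_cases h1 : d ≤ yy n
  · simp only [Finset.mem_union]
    exact Or.inl (Or.inl (Or.inl (Or.inl (Or.inl (Or.inl (Or.inl (Finset.mem_Icc.2 ⟨hd'.1, h1⟩)))))))
  by_cases h2 : DD n < d
  · simp only [Finset.mem_union]
    exact Or.inr (Finset.mem_filter.2 ⟨hd, h2⟩)
  push Not at h1 h2
  by_cases h3 : ∃ q : ℕ, q.Prime ∧ Nat.sqrt n < q * K ∧ q ∣ d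
  · obtain ⟨q, hq, hqK, hqd⟩ := h3
    by_cases h4 : d ≤ w ^ 2 * Nat.sqrt n
    · obtain ⟨m, hm⟩ := hqd
      have hm0 : 1 ≤ m := by
        rcases Nat.eq_zero_or_pos m with h | h
        · subst h; simp at hm; omega
        · exact h
      have hmJ : m ≤ w ^ 2 * K := by
        have : m * Nat.sqrt n ≤ w ^ 2 * K * Nat.sqrt n := by
          calc m * Nat.sqrt n ≤ m * (q * K) := Nat.mul_le_mul_left _ hqK.le
            _ = q * m * K := by ring
            _ = d * K := by rw [← hm]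
            _ ≤ w ^ 2 * Nat.sqrt n * K := Nat.mul_le_mul_right _ h4
            _ = _ := by ring
        exact Nat.le_of_mul_le_mul_right this hX0
      have hqd' : q ≤ w ^ 2 * Nat.sqrt n := (by rw [hm]; exact Nat.le_mul_of_pos_right _ hm0 :
        q ≤ d).trans h4
      have hmD : ∀ Q : Finset ℕ, q ∈ Q → d ∈ setD (w ^ 2 * K) Q n := by
        intro Q hQ
        unfold setD
        rw [Finset.mem_filter]
        exact ⟨hd, q, hQ, m, hm0, hmJ, by rw [hm]; ring⟩
      by_cases h5 : q ≤ Nat.sqrt n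
      · obtain ⟨k, hk, hkq⟩ := Qk_maps hK hX0 (Pnt.mem_P.2 ⟨h5, hq⟩)
        have hk0 : k ≠ 0 := by
          intro h0
          have := ((mem_Qk hK hX0).1 hkq).2.2.2
          rw [h0] at this
          omega
        have : d ∈ (Finset.range K).biUnion (fun k => setB K (w ^ 2 * K) k n) := by
          rw [Finset.mem_biUnion]
          refine ⟨k, Finset.mem_range.2 hk, ?_⟩
          unfold setB
          rw [if_neg hk0]
          exact hmD _ hkq
        simp only [Finset.mem_union]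
        exact Or.inl (Or.inl (Or.inl (Or.inl (Or.inr this))))
      · push Not at h5
        by_cases h6 : q ≤ (K + 1) * Nat.sqrt n / K
        · have : d ∈ setD (w ^ 2 * K) (Pnt.P ((K + 1) * Nat.sqrt n / K) \ Pnt.P (Nat.sqrt n)) n := by
            apply hmD
            rw [Finset.mem_sdiff, Pnt.mem_P, Pnt.mem_P]
            exact ⟨⟨h6, hq⟩, fun h => by omega⟩
          simp only [Finset.mem_union]
          exact Or.inl (Or.inl (Or.inl (Or.inr this)))
        · have : d ∈ setD (w ^ 2 * K) (Pnt.P (w ^ 2 * Nat.sqrt n) \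
              Pnt.P ((K + 1) * Nat.sqrt n / K)) n := by
            apply hmD
            rw [Finset.mem_sdiff, Pnt.mem_P, Pnt.mem_P]
            exact ⟨⟨hqd', hq⟩, fun h => h6 h.1⟩
          simp only [Finset.mem_union]
          exact Or.inl (Or.inl (Or.inr this))
    · push Not at h4
      have : d ∈ setE K w n := by
        unfold setE
        rw [Finset.mem_filter]
        exact ⟨hd, h4, h2, q, hq, hqK, hqd⟩
      simp only [Finset.mem_union]
      exact Or.inl (Or.inr this)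
  · push Not at h3
    by_cases h4 : ∃ q : ℕ, q.Prime ∧ yy n < q ∧ q ∣ d
    · obtain ⟨q, hq, hqy, hqd⟩ := h4
      by_cases h5 : q ≤ zz n
      · simp only [Finset.mem_union]
        exact Or.inl (Or.inl (Or.inl (Or.inl (Or.inl (Or.inl (Or.inr
          (Finset.mem_filter.2 ⟨hd, h2, q, Finset.mem_Ioc.2 ⟨hqy, h5⟩, hqd⟩)))))))
      · push Not at h5
        have : d ∈ setC K n := by
          unfold setC
          rw [Finset.mem_filter]
          refine ⟨hd, h2, q, hq, h5, ?_, hqd⟩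
          by_contra hcon
          exact h3 q hq (not_le.1 hcon) hqd
        simp only [Finset.mem_union]
        exact Or.inl (Or.inl (Or.inl (Or.inl (Or.inl (Or.inr this)))))
    · push Not at h4
      have hy0 : 0 < yy n := by unfold yy; positivity
      obtain ⟨g, hg1, hg2, hg3⟩ := small_div hy0 h1 (fun p hp hpd => by
        by_contra hcon
        exact h4 p hp (not_le.1 hcon) hpd)
      have hgz : g ≤ zz n := by
        refine hg3.trans ?_
        unfold yy zz
        rw [Nat.le_div_iff_mul_le (by positivity)]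
        calc Nat.log 2 n ^ 5 * Nat.log 2 n ^ 5 * Nat.log 2 n ^ 2 = Nat.log 2 n ^ 12 := by ring
          _ ≤ Nat.sqrt n := hp
      simp only [Finset.mem_union]
      exact Or.inl (Or.inl (Or.inl (Or.inl (Or.inl (Or.inl (Or.inr
        (Finset.mem_filter.2 ⟨hd, h2, g, Finset.mem_Ioc.2 ⟨hg2, hgz⟩, hg1⟩)))))))

/-- The total cost. -/
lemma costAll {c : ℝ} (hc : 2 / 3 < c) : Cost (fun n => Finset.Icc 1 n) c := by
  obtain ⟨η, hη⟩ : ∃ η, η = c - 2 / 3 := ⟨_, rfl⟩
  have hη0 : 0 < η := by linarith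
  obtain ⟨K0, hK0⟩ := exists_nat_gt (16 / η)
  obtain ⟨K, hK2, hK⟩ : ∃ K : ℕ, 2 ≤ K ∧ 16 / η < K := by
    refine ⟨K0 + 2, by omega, ?_⟩
    push_cast; linarith
  have hK1 : 0 < K := by omega
  have hK' : (0 : ℝ) < K := by exact_mod_cast hK1
  rw [div_lt_iff₀ hη0] at hK
  obtain ⟨w, hw⟩ : ∃ w, w = 2561 * K := ⟨_, rfl⟩
  have hw0 : 0 < w := by omega
  have hinv : (0 : ℝ) < 1 / K := by positivity
  obtain ⟨ε, hε⟩ : ∃ ε : ℝ, ε = 1 / (14 * K) := ⟨_, rfl⟩
  have he0 : 0 < ε := by rw [hε]; positivity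
  have he7 : 7 * ε = 1 / 2 * (1 / K) := by rw [hε]; field_simp; norm_num
  have hK2' : (2 : ℝ) ≤ K := by exact_mod_cast hK2
  have hinv2 : 1 / (K : ℝ) ≤ 1 / 2 := by
    rw [div_le_div_iff₀ hK' (by norm_num)]; linarith
  have he1 : 7 * ε < 1 := by rw [he7]; linarith
  -- the blocks
  have hB := Cost.biUnion K (fun k n => setB K (w ^ 2 * K) k n)
    (fun k => if k = 0 then 0 else 1 / K * (1 - (1 - 7 * ε) * ((k : ℝ) / K) ^ 2) + 1 / K * (1 / K))
    (by
      intro k hk
      rcases Nat.eq_zero_or_pos k with h0 | h0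
      · subst h0
        simp only [if_true]
        unfold Cost
        refine Eventually.of_forall fun n => ⟨0, ?_, ?_⟩
        · show PackInto (setB K (w ^ 2 * K) 0 n) (fun d => prog (n / d) d) 0
          unfold setB; rw [if_pos rfl]; exact pack_empty _ _
        · simp
      · have hk0 : k ≠ 0 := by omega
        simp only [hk0, if_false]
        have := costDk (K := K) (k := k) (J := w ^ 2 * K) h0 hk he0 he1
          (c := 1 / K * (1 - (1 - 7 * ε) * ((k : ℝ) / K) ^ 2) + 1 / K * (1 / K))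
          (by have := mul_pos hinv hinv; linarith)
        refine this.sub (Eventually.of_forall fun n => ?_)
        unfold setB; rw [if_neg hk0])
  have hsum : ∑ k ∈ Finset.range K, (if k = 0 then (0 : ℝ) else
      1 / K * (1 - (1 - 7 * ε) * ((k : ℝ) / K) ^ 2) + 1 / K * (1 / K)) ≤ 2 / 3 + 2 * (1 / K) := by
    have h1 : ∀ k ∈ Finset.range K, (if k = 0 then (0 : ℝ) else
        1 / K * (1 - (1 - 7 * ε) * ((k : ℝ) / K) ^ 2) + 1 / K * (1 / K))
        ≤ (if k = 0 then (0 : ℝ) else 1 / K * (1 - ((k : ℝ) / K) ^ 2)) + 2 * (1 / K * (1 / K)) := by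
      intro k hk
      rw [Finset.mem_range] at hk
      split_ifs with h0
      · have := mul_pos hinv hinv; linarith
      · have hkK : (k : ℝ) / K ≤ 1 := by
          rw [div_le_one hK']; exact_mod_cast hk.le
        have hk0 : (0 : ℝ) ≤ (k : ℝ) / K := by positivity
        have h2 : ((k : ℝ) / K) ^ 2 ≤ 1 := by nlinarith
        have h3 : 7 * ε * ((k : ℝ) / K) ^ 2 ≤ 1 / K := by
          rw [he7]
          nlinarith [sq_nonneg ((k : ℝ) / K)]
        have h4 : 1 / K * (1 - (1 - 7 * ε) * ((k : ℝ) / K) ^ 2)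
            = 1 / K * (1 - ((k : ℝ) / K) ^ 2) + 1 / K * (7 * ε * ((k : ℝ) / K) ^ 2) := by ring
        rw [h4]
        have h5 : 1 / (K : ℝ) * (7 * ε * ((k : ℝ) / K) ^ 2) ≤ 1 / K * (1 / K) := by gcongr
        linarith
    refine (Finset.sum_le_sum h1).trans ?_
    rw [Finset.sum_add_distrib, Finset.sum_const, Finset.card_range, nsmul_eq_mul]
    have h2 := riemann hK1
    have h3 : (K : ℝ) * (2 * (1 / K * (1 / K))) = 2 * (1 / K) := by field_simp
    rw [h3]
    linarith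
  have hC := costC (K := K) hK1
  have h6 : (6 : ℝ) / K = 6 * (1 / K) := by ring
  rw [h6] at hC
  have hE := costE (K := K) (w := w) hK1 (by omega)
  have h7 : (2561 : ℝ) / w = 1 / K := by rw [hw]; push_cast; field_simp
  rw [h7] at hE
  have hall := (((((((costA hinv).union (costB hinv)).union hC).union hB).union
    (costD' (K := K) (J := w ^ 2 * K) hK1 (show 1 / (K : ℝ) < 2 * (1 / K) by linarith))).union
    (costD2 (K := K) (w := w) (J := w ^ 2 * K) hK2 hw0
      (show 1 / (K : ℝ) < 2 * (1 / K) by linarith))).union hE).union (costE2 hinv)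
  have hsub := hall.sub (S := fun n => Finset.Icc 1 n) (by
    filter_upwards [sqrt_facts, log_large 1, poly_log 1 12] with n hn hl hp
    exact cover hK1 (by omega) hl (by omega))
  filter_upwards [hsub] with n hn
  obtain ⟨L, hL, hL'⟩ := hn
  refine ⟨L, hL, hL'.trans ?_⟩
  apply mul_le_mul_of_nonneg_right _ (by positivity)
  have h8 : 16 * (1 / (K : ℝ)) < η := by
    rw [mul_one_div, div_lt_iff₀ hK']; linarith
  linarith

/-- In terms of `X = ⌊√ n⌋`. -/
theorem row4_X : Tendsto (fun n : ℕ => (mAll n : ℝ) * Real.log (Nat.sqrt n : ℕ) /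
    ((Nat.sqrt n : ℕ) : ℝ) ^ 3) atTop (𝓝 (2 / 3)) := by
  rw [tendsto_order]
  constructor
  · intro c hc
    filter_upwards [row3_X.eventually (eventually_gt_nhds hc),
      sqrt_tendsto.eventually (eventually_ge_atTop 2)] with n hn hn2
    refine hn.trans_le ?_
    have hlog : 0 < Real.log (Nat.sqrt n : ℕ) :=
      Real.log_pos (by exact_mod_cast (by omega : 1 < Nat.sqrt n))
    have : (mP n : ℝ) ≤ mAll n := by exact_mod_cast mP_le_mAll n
    gcongr
  · intro c hc
    have h := costAll (c := (2 / 3 + c) / 2) (by linarith)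
    filter_upwards [h, sqrt_tendsto.eventually (eventually_ge_atTop 2)] with n hn hn2
    obtain ⟨L, hL, hL'⟩ := hn
    have hX0 : (0 : ℝ) < (Nat.sqrt n : ℕ) := by exact_mod_cast (by omega : 0 < Nat.sqrt n)
    have hlog : 0 < Real.log (Nat.sqrt n : ℕ) :=
      Real.log_pos (by exact_mod_cast (by omega : 1 < Nat.sqrt n))
    rw [div_lt_iff₀ (by positivity)]
    have h1 : (mAll n : ℝ) ≤ L := by exact_mod_cast mAll_le hL
    have h2 : (mAll n : ℝ) * Real.log (Nat.sqrt n : ℕ) ≤ L * Real.log (Nat.sqrt n : ℕ) := by gcongr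
    have h3 : (0 : ℝ) < ((Nat.sqrt n : ℕ) : ℝ) ^ 3 := by positivity
    nlinarith

lemma log_ratio : Tendsto (fun n : ℕ => Real.log n / Real.log (Nat.sqrt n : ℕ)) atTop (𝓝 2) := by
  have l1 : Tendsto (fun n : ℕ => Real.log ((n : ℝ) / ((Nat.sqrt n : ℕ) : ℝ) ^ 2)) atTop
      (𝓝 (Real.log 1)) := (Real.continuousAt_log one_ne_zero).tendsto.comp ratio_tendsto
  rw [Real.log_one] at l1
  have l2 : Tendsto (fun n : ℕ => Real.log (Nat.sqrt n : ℕ)) atTop atTop :=
    Real.tendsto_log_atTop.comp (tendsto_natCast_atTop_atTop.comp sqrt_tendsto)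
  have l3 := (l1.div_atTop l2).add_const 2
  rw [zero_add] at l3
  refine l3.congr' ?_
  filter_upwards [sqrt_tendsto.eventually (eventually_ge_atTop 2), eventually_gt_atTop 0]
    with n hn2 hn0
  have hX0 : (0 : ℝ) < (Nat.sqrt n : ℕ) := by exact_mod_cast (by omega : 0 < Nat.sqrt n)
  have hn0' : (0 : ℝ) < n := by exact_mod_cast hn0
  have hlog : 0 < Real.log (Nat.sqrt n : ℕ) :=
    Real.log_pos (by exact_mod_cast (by omega : 1 < Nat.sqrt n))
  rw [Real.log_div hn0'.ne' (by positivity), Real.log_pow]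
  field_simp
  push_cast
  ring

/-- **Row 4.** -/
theorem row4 : Tendsto (fun n : ℕ => (mAll n : ℝ) * Real.log n / (n : ℝ) ^ (3 / 2 : ℝ)) atTop
    (𝓝 (4 / 3)) := by
  have h1 := row4_X
  have h2 := log_ratio
  have h3 : Tendsto (fun n : ℕ => ((n : ℝ) / ((Nat.sqrt n : ℕ) : ℝ) ^ 2) ^ (3 / 2 : ℝ)) atTop
      (𝓝 1) := by
    have := ratio_tendsto.rpow_const (p := (3 / 2 : ℝ)) (Or.inl one_ne_zero)
    rwa [Real.one_rpow] at this
  have h4 := (h1.mul h2).div h3 one_ne_zero
  have h5 : (2 / 3 * 2 / 1 : ℝ) = 4 / 3 := by norm_num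
  rw [h5] at h4
  refine h4.congr' ?_
  filter_upwards [sqrt_tendsto.eventually (eventually_ge_atTop 2), eventually_gt_atTop 0]
    with n hn2 hn0
  have hX0 : (0 : ℝ) < (Nat.sqrt n : ℕ) := by exact_mod_cast (by omega : 0 < Nat.sqrt n)
  have hn0' : (0 : ℝ) < n := by exact_mod_cast hn0
  have hlog : 0 < Real.log (Nat.sqrt n : ℕ) :=
    Real.log_pos (by exact_mod_cast (by omega : 1 < Nat.sqrt n))
  simp only [Pi.div_apply]
  have e1 : (((Nat.sqrt n : ℕ) : ℝ) ^ 2) ^ (3 / 2 : ℝ) = ((Nat.sqrt n : ℕ) : ℝ) ^ 3 := by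
    rw [← Real.rpow_natCast, ← Real.rpow_mul hX0.le, ← Real.rpow_natCast]
    norm_num
  rw [Real.div_rpow hn0'.le (by positivity), e1]
  have e2 : (0 : ℝ) < (n : ℝ) ^ (3 / 2 : ℝ) := Real.rpow_pos_of_pos hn0' _
  field_simp

end Pool.Agent.Q10.PK
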