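import Pool.Agent.Q10.PK.Assemble

/-!
# The upper bound for families of progressions with prime differences
-/

set_option autoImplicit false

open Filter Topology Finset

namespace Pool.Agent.Q10.PK

/-- The block number `k + 1`: the primes `p` with `k X < p K ≤ (k + 1) X`. -/
def Qk (K X k : ℕ) : Finset ℕ := (Pnt.P X).filter (fun p => Pnt.blk K X p = k + 1)

lemma mem_Qk {K X k p : ℕ} (hK : 0 < K) (hX : 0 < X) :
    p ∈ Qk K X k ↔ p ≤ X ∧ p.Prime ∧ k * X < p * K ∧ p * K ≤ (k + 1) * X := by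
  rw [Qk, Finset.mem_filter, Pnt.mem_P]
  constructor
  · rintro ⟨⟨h1, h2⟩, h3⟩
    rw [Pnt.blk_spec hK hX h2.pos] at h3
    simp only [Nat.add_sub_cancel] at h3
    exact ⟨h1, h2, h3.1, h3.2.1⟩
  · rintro ⟨h1, h2, h3, h4⟩
    refine ⟨⟨h1, h2⟩, ?_⟩
    rw [Pnt.blk_spec hK hX h2.pos]
    simp only [Nat.add_sub_cancel]
    exact ⟨h3, h4, by omega⟩

lemma Qk_maps {K X p : ℕ} (hK : 0 < K) (hX : 0 < X) (hp : p ∈ Pnt.P X) :
    ∃ k < K, p ∈ Qk K X k := by
  have hp' := Pnt.mem_P.1 hp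
  have hb := (Pnt.blk_spec hK hX hp'.2.pos).1 (rfl : Pnt.blk K X p = Pnt.blk K X p)
  refine ⟨Pnt.blk K X p - 1, ?_, ?_⟩
  · have : (Pnt.blk K X p - 1) * X < K * X := by
      calc (Pnt.blk K X p - 1) * X < p * K := hb.1
        _ ≤ X * K := Nat.mul_le_mul_right _ hp'.1
        _ = K * X := Nat.mul_comm _ _
    exact Nat.lt_of_mul_lt_mul_right this
  · rw [Qk, Finset.mem_filter]
    exact ⟨hp, by omega⟩

lemma P_eq {K X : ℕ} (hK : 0 < K) (hX : 0 < X) :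
    Pnt.P X = (Finset.range K).biUnion (Qk K X) := by
  ext p
  rw [Finset.mem_biUnion]
  constructor
  · intro hp
    obtain ⟨k, hk, h⟩ := Qk_maps hK hX hp
    exact ⟨k, Finset.mem_range.2 hk, h⟩
  · rintro ⟨k, -, h⟩
    exact (Finset.mem_filter.1 h).1

lemma Qk_disj {K X k k' : ℕ} (h : k ≠ k') : Disjoint (Qk K X k) (Qk K X k') := by
  rw [Finset.disjoint_left]
  intro p hp hp'
  have h1 := (Finset.mem_filter.1 hp).2
  have h2 := (Finset.mem_filter.1 hp').2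
  omega

lemma sum_Qk {K X : ℕ} (hK : 0 < K) (hX : 0 < X) (F : ℕ → ℝ) :
    ∑ k ∈ Finset.range K, ∑ p ∈ Qk K X k, F p = ∑ p ∈ Pnt.P X, F p := by
  rw [P_eq hK hX, Finset.sum_biUnion]
  intro k _ k' _ h
  exact Qk_disj h

/-- The step of the block. -/
noncomputable def sg (K X : ℕ) (ε : ℝ) (S k : ℕ) : ℕ :=
  ⌈(S : ℝ) + X - (1 - ε) * ((k : ℝ) * X / K) ^ 2⌉₊

/-- The length used by the block. -/
noncomputable def lenK (K X : ℕ) (ε : ℝ) (C S k : ℕ) : ℕ :=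
  if k = 0 then (Qk K X k).card * S else (Qk K X k).card * sg K X ε S k + X + S + C * S

lemma sg_le {K X : ℕ} {ε : ℝ} (hK : 0 < K) (he0 : 0 < ε) (he1 : ε < 1) {S k : ℕ}
    (h : ((k : ℝ) * X / K) ^ 2 * K ≤ (K - 1) * ((S : ℝ) + X)) :
    (sg K X ε S k : ℝ) ≤ (S : ℝ) + X - (1 - ε) * ((k : ℝ) * X / K) ^ 2 + 1 := by
  unfold sg
  apply (Nat.ceil_lt_add_one _).le
  have hK' : (0 : ℝ) < K := by exact_mod_cast hK
  have h1 : (0 : ℝ) ≤ ((k : ℝ) * X / K) ^ 2 := sq_nonneg _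
  have h2 : (0 : ℝ) ≤ (S : ℝ) + X := by positivity
  have h3 : ((k : ℝ) * X / K) ^ 2 ≤ (S : ℝ) + X := by
    have : ((k : ℝ) * X / K) ^ 2 * K ≤ ((S : ℝ) + X) * K := by nlinarith
    exact le_of_mul_le_mul_right this hK'
  nlinarith

/-- Each block, for large `X`. -/
lemma block_ok {K : ℕ} (hK : 2 ≤ K) {ε : ℝ} (he0 : 0 < ε) (he1 : ε < 1) :
    ∃ C : ℕ, ∀ᶠ X : ℕ in atTop, ∀ (N : ℕ → ℕ) (S k : ℕ), k < K →
      (∀ p ∈ Qk K X k, N p * p ≤ S) →
      (1 ≤ k → ((k : ℝ) * X / K) ^ 2 * K ≤ (K - 1) * ((S : ℝ) + X)) →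
      PackInto (Qk K X k) (fun p => prog (N p) p) (lenK K X ε C S k) := by
  obtain ⟨H, hH⟩ := exists_nat_gt ((K : ℝ) / (2 * ε ^ 2))
  have he2 : (0 : ℝ) < 2 * ε ^ 2 := by positivity
  have hK0 : (0 : ℝ) < K := by exact_mod_cast (by omega : 0 < K)
  rw [div_lt_iff₀ he2] at hH
  refine ⟨leftC K H, ?_⟩
  filter_upwards [eventually_gt_atTop (K ^ (K + 2) * H + H * K)] with X hX N S k hk hS hcond
  have hX0 : 0 < X := by omega
  have hX0' : (0 : ℝ) < X := by exact_mod_cast hX0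
  unfold lenK
  split_ifs with hk0
  · apply pack_separate
    intro p hp x hx
    obtain ⟨i, hi, rfl⟩ := Finset.mem_image.1 hx
    rw [Finset.mem_Icc] at hi
    have hpp := ((mem_Qk (by omega) hX0).1 hp).2.1
    exact ⟨Nat.mul_pos (by omega) hpp.pos, (Nat.mul_le_mul_right _ hi.2).trans (hS p hp)⟩
  · have hk1 : 1 ≤ k := by omega
    have hk1' : (1 : ℝ) ≤ k := by exact_mod_cast hk1
    have hc := hcond hk1
    have haX : (X : ℝ) / K ≤ (k : ℝ) * X / K := by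
      apply div_le_div_of_nonneg_right _ hK0.le
      nlinarith
    have ha0 : (0 : ℝ) ≤ (k : ℝ) * X / K := by positivity
    have hB : Blk (Qk K X k) N ((k : ℝ) * X / K) ε X S (sg K X ε S k) K H := by
      refine ⟨?_, ?_, ?_, hS, ha0, he0, he1, ?_, ?_, hH, ?_, ?_⟩
      · intro q hq; exact ((mem_Qk (by omega) hX0).1 hq).2.1
      · intro q hq
        have := ((mem_Qk (by omega) hX0).1 hq).2.2.1
        rw [div_le_iff₀ hK0]
        exact_mod_cast this.le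
      · intro q hq; exact ((mem_Qk (by omega) hX0).1 hq).1
      · -- `S + X ≤ K σ`
        have h1 : (S : ℝ) + X - (1 - ε) * ((k : ℝ) * X / K) ^ 2 ≤ sg K X ε S k := Nat.le_ceil _
        have h2 : ((S + X : ℕ) : ℝ) ≤ ((K * sg K X ε S k : ℕ) : ℝ) := by
          push_cast
          have h3 : (K : ℝ) * ((S : ℝ) + X - (1 - ε) * ((k : ℝ) * X / K) ^ 2)
              ≤ K * sg K X ε S k := by gcongr
          have h4 : (0 : ℝ) ≤ ε * (((k : ℝ) * X / K) ^ 2 * K) := by positivity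
          nlinarith
        exact_mod_cast h2
      · have h1 : (S : ℝ) + X - (1 - ε) * ((k : ℝ) * X / K) ^ 2 ≤ sg K X ε S k := Nat.le_ceil _
        linarith
      · intro q hq
        have h1 := ((mem_Qk (by omega) hX0).1 hq).2.2.1
        have h2 : H * K < q * K := by
          calc H * K < X := by omega
            _ ≤ k * X := Nat.le_mul_of_pos_left _ hk1
            _ < q * K := h1
        exact Nat.lt_of_mul_lt_mul_right h2
      · have h1 : ((X : ℝ) / K) ^ (K + 1) ≤ ((k : ℝ) * X / K) ^ (K + 1) := by gcongr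
        refine lt_of_lt_of_le ?_ h1
        rw [div_pow, lt_div_iff₀ (by positivity)]
        have h2 : K * H * X ^ K * K ^ (K + 1) < X ^ (K + 1) := by
          calc K * H * X ^ K * K ^ (K + 1) = (K ^ (K + 2) * H) * X ^ K := by ring
            _ < X * X ^ K := by
                apply Nat.mul_lt_mul_of_pos_right _ (by positivity)
                omega
            _ = X ^ (K + 1) := by ring
        exact_mod_cast h2
    exact hB.pack

/-- **The upper bound.** -/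
theorem upper {K : ℕ} (hK : 2 ≤ K) {ε : ℝ} (he0 : 0 < ε) (he1 : ε < 1) :
    ∃ C : ℕ, ∀ᶠ X : ℕ in atTop, ∀ (N S : ℕ → ℕ),
      (∀ k < K, ∀ p ∈ Qk K X k, N p * p ≤ S k) →
      (∀ k < K, 1 ≤ k → ((k : ℝ) * X / K) ^ 2 * K ≤ (K - 1) * ((S k : ℝ) + X)) →
      PackInto (Pnt.P X) (fun p => prog (N p) p) (∑ k ∈ Finset.range K, lenK K X ε C (S k) k) := by
  obtain ⟨C, hC⟩ := block_ok hK he0 he1
  refine ⟨C, ?_⟩
  filter_upwards [hC, eventually_gt_atTop 0] with X hX hX0 N S h1 h2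
  rw [P_eq (by omega : 0 < K) hX0]
  apply pack_biUnion
  · intro k _ k' _ h
    exact Qk_disj h
  · intro k hk
    exact hX N (S k) k hk (h1 k hk) (h2 k hk)

/-- The bound of `lenK` by a sum over the block. -/
lemma lenK_le {K X : ℕ} (hK : 0 < K) (hX : 0 < X) {ε : ℝ} (he0 : 0 < ε) (he1 : ε < 1)
    {C S k T : ℕ} (hk : k < K) (hST : S ≤ T)
    (h : 1 ≤ k → ((k : ℝ) * X / K) ^ 2 * K ≤ (K - 1) * ((S : ℝ) + X)) :
    (lenK K X ε C S k : ℝ) ≤ ∑ p ∈ Qk K X k, ((S : ℝ) - (if k = 0 then 0 else (p : ℝ) ^ 2)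
      + (2 / K + ε) * (X : ℝ) ^ 2 + X + 1) + ((X : ℝ) + T + C * T) := by
  have hK0 : (0 : ℝ) < K := by exact_mod_cast hK
  have hX0 : (0 : ℝ) < X := by exact_mod_cast hX
  have hST' : (S : ℝ) ≤ T := by exact_mod_cast hST
  have hpos : (0 : ℝ) ≤ (2 / K + ε) * (X : ℝ) ^ 2 + X + 1 := by positivity
  unfold lenK
  split_ifs with hk0
  · push_cast
    have h1 : ((Qk K X k).card : ℝ) * S = ∑ _p ∈ Qk K X k, (S : ℝ) := by
      rw [Finset.sum_const, nsmul_eq_mul]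
    rw [h1]
    have h2 : ∑ _p ∈ Qk K X k, (S : ℝ) ≤ ∑ p ∈ Qk K X k, ((S : ℝ) - 0
      + (2 / K + ε) * (X : ℝ) ^ 2 + X + 1) := by
      apply Finset.sum_le_sum
      intro p _
      linarith
    have h3 : (0 : ℝ) ≤ (X : ℝ) + T + C * T := by positivity
    linarith
  · push_cast
    have h1 : ((Qk K X k).card : ℝ) * sg K X ε S k = ∑ _p ∈ Qk K X k, (sg K X ε S k : ℝ) := by
      rw [Finset.sum_const, nsmul_eq_mul]
    rw [h1]
    have h2 : ∑ _p ∈ Qk K X k, (sg K X ε S k : ℝ) ≤ ∑ p ∈ Qk K X k, ((S : ℝ) - (p : ℝ) ^ 2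
      + (2 / K + ε) * (X : ℝ) ^ 2 + X + 1) := by
      apply Finset.sum_le_sum
      intro p hp
      obtain ⟨hp1, hp2, hp3, hp4⟩ := (mem_Qk hK hX).1 hp
      have h3 := sg_le hK he0 he1 (h (by omega))
      have h4 : (p : ℝ) * K ≤ (k + 1) * X := by exact_mod_cast hp4
      have h5 : (p : ℝ) ≤ (k : ℝ) * X / K + X / K := by
        rw [← add_div, le_div_iff₀ hK0]; linarith
      have hkK : (k : ℝ) + 1 ≤ K := by exact_mod_cast hk
      have h6 : (k : ℝ) * X / K + X / K ≤ X := by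
        rw [← add_div, div_le_iff₀ hK0]; nlinarith
      have ha0 : (0 : ℝ) ≤ (k : ℝ) * X / K := by positivity
      have hb0 : (0 : ℝ) ≤ (X : ℝ) / K := by positivity
      obtain ⟨a, ha⟩ : ∃ a, a = (k : ℝ) * X / K := ⟨_, rfl⟩
      obtain ⟨b, hb⟩ : ∃ b, b = (X : ℝ) / K := ⟨_, rfl⟩
      rw [← ha] at h3 h5 h6 ha0
      rw [← hb] at h5 h6 hb0
      have hbX : 2 / (K : ℝ) * (X : ℝ) ^ 2 = 2 * b * X := by rw [hb]; ring
      have hp0 : (0 : ℝ) ≤ p := by positivity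
      have h7 : (p : ℝ) ^ 2 ≤ (a + b) ^ 2 := by gcongr
      have h8 : (a + b) ^ 2 ≤ a ^ 2 + 2 * b * X := by nlinarith
      have h9 : a ^ 2 ≤ (X : ℝ) ^ 2 := by
        have : a ≤ X := by linarith
        gcongr
      have h10 : ε * a ^ 2 ≤ ε * (X : ℝ) ^ 2 := by gcongr
      nlinarith
    have h3 : (C : ℝ) * S ≤ C * T := by gcongr
    linarith

end Pool.Agent.Q10.PK
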